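import Pool.Agent.Ramanujan.Swaps

/-!
The uniform average over a symmetric group is a product of random swaps.
-/

open Polynomial Matrix Function Equiv

namespace Pool.Agent.Ramanujan

variable {ι N : Type*} [Fintype ι] [DecidableEq ι] [Fintype N] [DecidableEq N]

section Group

variable {α : Type*} [Fintype α] [DecidableEq α]

/-- Permutations supported in `S`. -/
def permOn (S : Finset α) : Finset (Perm α) :=
  Finset.univ.filter fun g => ∀ x, x ∉ S → g x = x

lemma mem_permOn {S : Finset α} {g : Perm α} : g ∈ permOn S ↔ ∀ x, x ∉ S → g x = x := by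
  simp [permOn]

lemma one_mem_permOn (S : Finset α) : (1 : Perm α) ∈ permOn S := by
  simp [mem_permOn]

lemma mul_mem_permOn {S : Finset α} {g h : Perm α} (hg : g ∈ permOn S) (hh : h ∈ permOn S) :
    g * h ∈ permOn S := by
  rw [mem_permOn] at *
  intro x hx
  rw [Perm.mul_apply, hh x hx, hg x hx]

lemma inv_mem_permOn {S : Finset α} {g : Perm α} (hg : g ∈ permOn S) : g⁻¹ ∈ permOn S := by
  rw [mem_permOn] at *
  intro x hx
  rw [Perm.inv_eq_iff_eq]
  exact (hg x hx).symm

lemma apply_mem_of_permOn {S : Finset α} {g : Perm α} (hg : g ∈ permOn S) {x : α} (hx : x ∈ S) :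
    g x ∈ S := by
  by_contra h
  have h1 := (mem_permOn.mp hg) (g x) h
  have h2 := g.injective h1
  rw [h2] at h
  exact h hx

lemma swap_mem_permOn {S : Finset α} {a b : α} (ha : a ∈ S) (hb : b ∈ S) :
    swap a b ∈ permOn S := by
  rw [mem_permOn]
  intro x hx
  apply swap_apply_of_ne_of_ne
  · rintro rfl; exact hx ha
  · rintro rfl; exact hx hb

variable {M : Type*} [AddCommGroup M] [Module ℝ M]

omit [Module ℝ M] in
lemma sum_permOn_mul_right {S : Finset α} {g : Perm α} (hg : g ∈ permOn S) (f : Perm α → M) :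
    ∑ h ∈ permOn S, f (h * g) = ∑ h ∈ permOn S, f h := by
  refine Finset.sum_nbij' (fun h => h * g) (fun h => h * g⁻¹) ?_ ?_ ?_ ?_ ?_
  · intro h hh; exact mul_mem_permOn hh hg
  · intro h hh; exact mul_mem_permOn hh (inv_mem_permOn hg)
  · intro h _; simp
  · intro h _; simp
  · intro h _; rfl

lemma sum_permOn_apply {S : Finset α} {b : α} (hb : b ∈ S) (F : α → M) :
    (S.card : ℝ) • ∑ g ∈ permOn S, F (g⁻¹ b) = ((permOn S).card : ℝ) • ∑ b' ∈ S, F b' := by
  have h1 : ∀ b'' ∈ S, ∑ g ∈ permOn S, F (g⁻¹ b'') = ∑ g ∈ permOn S, F (g⁻¹ b) := by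
    intro b'' hb''
    refine Finset.sum_nbij' (fun h => swap b b'' * h) (fun h => swap b b'' * h) ?_ ?_ ?_ ?_ ?_
    · intro h hh; exact mul_mem_permOn (swap_mem_permOn hb hb'') hh
    · intro h hh; exact mul_mem_permOn (swap_mem_permOn hb hb'') hh
    · intro h _; simp [← mul_assoc]
    · intro h _; simp [← mul_assoc]
    · intro h _
      simp [_root_.mul_inv_rev]
  have h2 : ∑ b'' ∈ S, ∑ g ∈ permOn S, F (g⁻¹ b'') = (S.card : ℝ) • ∑ g ∈ permOn S, F (g⁻¹ b) := by
    rw [Finset.sum_congr rfl h1, Finset.sum_const, Nat.cast_smul_eq_nsmul]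
  rw [← h2, Finset.sum_comm]
  have h3 : ∀ g ∈ permOn S, ∑ b'' ∈ S, F (g⁻¹ b'') = ∑ b' ∈ S, F b' := by
    intro g hg
    refine Finset.sum_nbij' (fun x => g⁻¹ x) (fun x => g x) ?_ ?_ ?_ ?_ ?_
    · intro x hx; exact apply_mem_of_permOn (inv_mem_permOn hg) hx
    · intro x hx; exact apply_mem_of_permOn hg hx
    · intro x _; simp
    · intro x _; simp
    · intro x _; rfl
  rw [Finset.sum_congr rfl h3, Finset.sum_const, Nat.cast_smul_eq_nsmul]

lemma sum_sandwich {S : Finset α} {a b : α} (ha : a ∉ S) (hb : b ∈ S) (f : Perm α → M) :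
    (S.card : ℝ) • ∑ g ∈ permOn S, ∑ h ∈ permOn S, f (h * swap a b * g) =
      ((permOn S).card : ℝ) • ∑ b' ∈ S, ∑ h ∈ permOn S, f (h * swap a b') := by
  have h1 : ∀ g ∈ permOn S, ∑ h ∈ permOn S, f (h * swap a b * g) =
      ∑ h ∈ permOn S, f (h * swap a (g⁻¹ b)) := by
    intro g hg
    have hga : g⁻¹ a = a := (mem_permOn.mp (inv_mem_permOn hg)) a ha
    have h2 : ∀ h : Perm α, h * swap a b * g = (h * g) * swap a (g⁻¹ b) := by
      intro h
      have : swap a b * g = g * swap a (g⁻¹ b) := by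
        rw [Equiv.swap_mul_eq_mul_swap, hga]
      rw [mul_assoc, this, mul_assoc]
    rw [Finset.sum_congr rfl fun h _ => by rw [h2 h]]
    exact sum_permOn_mul_right hg fun k => f (k * swap a (g⁻¹ b))
  rw [Finset.sum_congr rfl h1]
  exact sum_permOn_apply hb fun b' => ∑ h ∈ permOn S, f (h * swap a b')

omit [Module ℝ M] in
lemma sum_permOn_insert {S : Finset α} {a : α} (ha : a ∉ S) (f : Perm α → M) :
    ∑ k ∈ permOn (insert a S), f k =
      ∑ h ∈ permOn S, f h + ∑ b' ∈ S, ∑ h ∈ permOn S, f (h * swap a b') := by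
  have h0 : ∑ h ∈ permOn S, f h = ∑ h ∈ permOn S, f (h * swap a a) := by
    rw [swap_self]; rfl
  rw [h0, ← Finset.sum_insert (f := fun b' => ∑ h ∈ permOn S, f (h * swap a b')) ha,
    ← Finset.sum_product']
  refine Finset.sum_nbij' (fun k => (k⁻¹ a, k * swap a (k⁻¹ a)))
    (fun p => p.2 * swap a p.1) ?_ ?_ ?_ ?_ ?_
  · intro k hk
    rw [Finset.mem_product]
    refine ⟨apply_mem_of_permOn (inv_mem_permOn hk) (Finset.mem_insert_self _ _), ?_⟩
    rw [mem_permOn]
    intro x hx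
    by_cases hxa : x = a
    · subst hxa; simp
    · rw [Perm.mul_apply]
      have hx' : x ∉ insert a S := by simp [hxa, hx]
      have hkx := (mem_permOn.mp hk) x hx'
      have h3 : x ≠ k⁻¹ a := by
        intro h; apply hxa
        have h5 : k x = a := by rw [h]; exact Equiv.apply_symm_apply k a
        rw [← hkx, h5]
      rw [swap_apply_of_ne_of_ne hxa h3, hkx]
  · rintro ⟨b', h⟩ hp
    rw [Finset.mem_product] at hp
    apply mul_mem_permOn
    · rw [mem_permOn]
      intro x hx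
      exact (mem_permOn.mp hp.2) x fun h => hx (Finset.mem_insert_of_mem h)
    · exact swap_mem_permOn (Finset.mem_insert_self _ _) hp.1
  · intro k _
    simp [mul_assoc]
  · rintro ⟨b', h⟩ hp
    rw [Finset.mem_product] at hp
    have hha : h⁻¹ a = a := (mem_permOn.mp (inv_mem_permOn hp.2)) a ha
    have : (h * swap a b')⁻¹ a = b' := by
      rw [_root_.mul_inv_rev, Perm.mul_apply, hha, swap_inv, swap_apply_left]
    simp only [this, Prod.mk.injEq, true_and]
    simp [mul_assoc]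
  · intro k _
    simp [mul_assoc]

lemma card_permOn_insert {S : Finset α} {a : α} (ha : a ∉ S) :
    ((permOn (insert a S)).card : ℝ) = (S.card + 1) * (permOn S).card := by
  have h := sum_permOn_insert (M := ℝ) ha (fun _ => (1 : ℝ))
  simp only [Finset.sum_const, nsmul_eq_mul, mul_one] at h
  rw [h]; ring

lemma card_permOn_pos (S : Finset α) : 0 < ((permOn S).card : ℝ) := by
  have : 0 < (permOn S).card := Finset.card_pos.mpr ⟨1, one_mem_permOn S⟩
  exact_mod_cast this

/-- The key identity: averaging over `insert a S` is (average over `S`), then a random swap,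
then (average over `S`). -/
lemma avg_insert {S : Finset α} {a b : α} (ha : a ∉ S) (hb : b ∈ S) (f : Perm α → M) :
    ((permOn (insert a S)).card : ℝ)⁻¹ • ∑ k ∈ permOn (insert a S), f k =
      ((permOn S).card : ℝ)⁻¹ • ∑ g ∈ permOn S,
        ((1 - (S.card : ℝ) / (S.card + 1)) • (((permOn S).card : ℝ)⁻¹ • ∑ h ∈ permOn S, f (h * g)) +
          ((S.card : ℝ) / (S.card + 1)) •
            (((permOn S).card : ℝ)⁻¹ • ∑ h ∈ permOn S, f (h * swap a b * g))) := by
  have hS : (S.card : ℝ) ≠ 0 := by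
    have : 0 < S.card := Finset.card_pos.mpr ⟨b, hb⟩
    exact_mod_cast this.ne'
  have hS1 : (S.card : ℝ) + 1 ≠ 0 := by positivity
  have hP : ((permOn S).card : ℝ) ≠ 0 := (card_permOn_pos S).ne'
  rw [Finset.sum_add_distrib, ← Finset.smul_sum, ← Finset.smul_sum, ← Finset.smul_sum,
    ← Finset.smul_sum, Finset.sum_congr rfl fun g hg => sum_permOn_mul_right hg f,
    Finset.sum_const, card_permOn_insert ha, sum_permOn_insert ha]
  have h1 := sum_sandwich ha hb f
  have h2 : ∑ g ∈ permOn S, ∑ h ∈ permOn S, f (h * swap a b * g) =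
      (((S.card : ℝ)⁻¹) * ((permOn S).card : ℝ)) • ∑ b' ∈ S, ∑ h ∈ permOn S, f (h * swap a b') := by
    rw [mul_smul, ← h1, smul_smul, inv_mul_cancel₀ hS, one_smul]
  rw [h2, ← Nat.cast_smul_eq_nsmul ℝ]
  simp only [smul_add, smul_smul]
  congr 1
  · congr 1
    field_simp
    ring
  · congr 1
    field_simp

end Group

section Ops

variable {α : Type*} [Fintype α] [DecidableEq α]
variable (ρ : Perm α →* Matrix N N ℝ)

/-- Action of a group element on the slot `j`. -/
def act {G : Type*} (ρ : G → Matrix N N ℝ) (j : ι) (g : G) (X : ι → Matrix N N ℝ) :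
    ι → Matrix N N ℝ :=
  update X j (ρ g * X j * (ρ g)ᵀ)

omit [Fintype ι] [DecidableEq N] in
lemma act_symm {G : Type*} (ρ : G → Matrix N N ℝ) (j : ι) (g : G) {X : ι → Matrix N N ℝ}
    (hX : SymFam X) : SymFam (act ρ j g X) := by
  apply hX.update
  unfold Matrix.IsSymm
  rw [transpose_mul, transpose_mul, transpose_transpose, hX j, mul_assoc]

omit [Fintype ι] [Fintype α] [DecidableEq α] in
lemma act_act (j : ι) (g h : Perm α) (X : ι → Matrix N N ℝ) :
    act ρ j h (act ρ j g X) = act ρ j (h * g) X := by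
  unfold act
  simp only [update_self, update_idem, map_mul, transpose_mul]
  congr 1
  simp only [mul_assoc]

omit [Fintype ι] [Fintype α] [DecidableEq α] in
lemma act_one (j : ι) (X : ι → Matrix N N ℝ) : act ρ j (1 : Perm α) X = X := by
  unfold act
  simp

/-- Average of a function of families over a finite set acting on the slot `j`. -/
noncomputable def avgOn {M : Type*} [AddCommGroup M] [Module ℝ M] {G : Type*}
    (ρ : G → Matrix N N ℝ) (j : ι) (S : Finset G)
    (Φ : (ι → Matrix N N ℝ) → M) : (ι → Matrix N N ℝ) → M :=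
  fun X => ((S.card : ℝ)⁻¹) • ∑ g ∈ S, Φ (act ρ j g X)

/-- Operators preserving goodness and allowing selection. -/
def SelOp (ρ : Perm α →* Matrix N N ℝ) (j : ι)
    (Op : ((ι → Matrix N N ℝ) → ℝ[X]) → ((ι → Matrix N N ℝ) → ℝ[X])) : Prop :=
  ∀ Φ, Good Φ → Good (Op Φ) ∧ ∀ X, SymFam X → ∀ x₀, PosFrom (Op Φ X) x₀ →
    ∃ g : Perm α, PosFrom (Φ (act ρ j g X)) x₀

omit [Fintype ι] [Fintype α] [DecidableEq α] in
lemma SelOp.comp {j : ι} {Op₁ Op₂ : ((ι → Matrix N N ℝ) → ℝ[X]) → ((ι → Matrix N N ℝ) → ℝ[X])}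
    (h₁ : SelOp ρ j Op₁) (h₂ : SelOp ρ j Op₂) : SelOp ρ j (fun Φ => Op₁ (Op₂ Φ)) := by
  intro Φ hΦ
  obtain ⟨g2, s2⟩ := h₂ Φ hΦ
  obtain ⟨g1, s1⟩ := h₁ _ g2
  refine ⟨g1, ?_⟩
  intro X hX x₀ hp
  obtain ⟨g, hg⟩ := s1 X hX x₀ hp
  obtain ⟨h, hh⟩ := s2 _ (act_symm _ j g hX) x₀ hg
  refine ⟨h * g, ?_⟩
  rwa [act_act] at hh

omit [Fintype ι] [Fintype α] [DecidableEq α] in
lemma SelOp.id (j : ι) : SelOp ρ j (fun Φ => Φ) := by
  intro Φ hΦ
  refine ⟨hΦ, fun X _ x₀ hp => ⟨1, ?_⟩⟩
  rwa [act_one]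

omit [Fintype ι] [Fintype α] in
lemma SelOp.swap (j : ι) (hρ : ∀ a b : α, a ≠ b → ∃ u : N → ℝ, u ⬝ᵥ u = 2 ∧
    ρ (Equiv.swap a b) = refl u) {a b : α} (hab : a ≠ b) {c : ℝ} (hc0 : 0 ≤ c) (hc1 : c ≤ 1) :
    SelOp ρ j (fun Φ X => (1 - c) • Φ X + c • Φ (act ρ j (Equiv.swap a b) X)) := by
  obtain ⟨u, hu, hρu⟩ := hρ a b hab
  intro Φ hΦ
  have e : (fun X => (1 - c) • Φ X + c • Φ (act ρ j (Equiv.swap a b) X)) = swapOp j (refl u) c Φ := by
    funext X
    unfold swapOp act
    rw [hρu, refl_symm u, smul_eq_C_mul, smul_eq_C_mul]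
  beta_reduce
  refine ⟨by rw [e]; exact hΦ.swap j hu hc0 hc1, ?_⟩
  intro X hX x₀ hp
  have e2 : (1 - c) • Φ X + c • Φ (act ρ j (Equiv.swap a b) X) = swapOp j (refl u) c Φ X :=
    congrFun e X
  rw [e2] at hp
  rcases hΦ.swap_select hX j hu hc0 hc1 hp with h | h
  · exact ⟨1, by rwa [act_one]⟩
  · refine ⟨Equiv.swap a b, ?_⟩
    unfold act
    rw [hρu, refl_symm u]
    exact h

omit [Fintype ι] in
lemma selOp_avgOn (j : ι) (hρ : ∀ a b : α, a ≠ b → ∃ u : N → ℝ, u ⬝ᵥ u = 2 ∧
    ρ (Equiv.swap a b) = refl u) (S : Finset α) : SelOp ρ j (avgOn ρ j (permOn S)) := by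
  have h1 : ∀ S : Finset α, S.card ≤ 1 → SelOp ρ j (avgOn ρ j (permOn S)) := by
    intro S hS
    have hset : permOn S = {1} := by
      ext g
      rw [mem_permOn, Finset.mem_singleton]
      constructor
      · intro hg
        ext x
        by_cases hx : x ∈ S
        · have h2 := apply_mem_of_permOn (mem_permOn.mpr hg) hx
          have := Finset.card_le_one.mp hS _ h2 _ hx
          simpa using this
        · simpa using hg x hx
      · rintro rfl; simp
    have e : avgOn ρ j (permOn S) = fun Φ : (ι → Matrix N N ℝ) → ℝ[X] => Φ := by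
      funext Φ X
      unfold avgOn
      rw [hset]
      simp [act_one]
    rw [e]
    exact SelOp.id ρ j
  induction S using Finset.induction_on with
  | empty => exact h1 _ (by simp)
  | insert a S ha ih =>
    rcases S.eq_empty_or_nonempty with rfl | ⟨b, hb⟩
    · exact h1 _ (by simp)
    · have hab : a ≠ b := by rintro rfl; exact ha hb
      set c : ℝ := (S.card : ℝ) / (S.card + 1) with hc
      have hc0 : 0 ≤ c := by positivity
      have hc1 : c ≤ 1 := by
        rw [hc, div_le_one (by positivity)]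
        linarith
      have e : avgOn ρ j (permOn (insert a S)) = fun Φ : (ι → Matrix N N ℝ) → ℝ[X] =>
          avgOn ρ j (permOn S) ((fun Ψ X => (1 - c) • Ψ X + c • Ψ (act ρ j (Equiv.swap a b) X))
            (avgOn ρ j (permOn S) Φ)) := by
        funext Φ X
        unfold avgOn
        simp only [act_act]
        exact avg_insert ha hb fun k => Φ (act ρ j k X)
      rw [e]
      exact ih.comp ρ ((SelOp.swap ρ j hρ hab hc0 hc1).comp ρ ih)

lemma permOn_univ : permOn (Finset.univ : Finset α) = Finset.univ := by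
  ext g; simp [mem_permOn]

omit [Fintype ι] in
theorem selOp_avg (j : ι) (hρ : ∀ a b : α, a ≠ b → ∃ u : N → ℝ, u ⬝ᵥ u = 2 ∧
    ρ (Equiv.swap a b) = refl u) : SelOp ρ j (avgOn ρ j Finset.univ) := by
  rw [← permOn_univ]
  exact selOp_avgOn ρ j hρ _

end Ops

end Pool.Agent.Ramanujan
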