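import Pool.Agent.Ramanujan.Main

/-!
Block diagonalisation of the adjacency matrix of a covering and the main theorem.
-/

open Matrix Function Equiv Polynomial

namespace Pool.Agent.Ramanujan

section Block

variable {V : Type*} [Fintype V] [DecidableEq V] {d : ℕ}

/-- Constant vectors on the fibres. -/
noncomputable def P1 (V : Type*) [DecidableEq V] (d : ℕ) : Matrix (V × Fin (d + 1)) V ℝ :=
  fun p w => if p.1 = w then (Real.sqrt ((d + 1 : ℕ) : ℝ))⁻¹ else 0

/-- Fibrewise orthonormal basis of the complement of the constants. -/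
def P2 (V : Type*) [DecidableEq V] {d : ℕ} (Q : Matrix (Fin (d + 1)) (Fin d) ℝ) :
    Matrix (V × Fin (d + 1)) (V × Fin d) ℝ :=
  fun p q => if p.1 = q.1 then Q p.2 q.2 else 0

lemma PP_one {Q : Matrix (Fin (d + 1)) (Fin d) ℝ} (hQ : IsStd Q) :
    fromCols (P1 V d) (P2 V Q) * (fromCols (P1 V d) (P2 V Q))ᵀ = 1 := by
  rw [transpose_fromCols, fromCols_mul_fromRows]
  ext p q
  rw [Matrix.add_apply, Matrix.mul_apply, Matrix.mul_apply, Fintype.sum_prod_type]
  have hr : (0 : ℝ) ≤ ((d + 1 : ℕ) : ℝ) := by positivity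
  have e1 : ∑ w, P1 V d p w * (P1 V d)ᵀ w q = if p.1 = q.1 then (((d + 1 : ℕ) : ℝ))⁻¹ else 0 := by
    simp only [transpose_apply, P1]
    rw [Finset.sum_eq_single p.1]
    · by_cases h : p.1 = q.1
      · rw [if_pos rfl, if_pos h.symm, if_pos h, ← mul_inv, Real.mul_self_sqrt hr]
      · rw [if_neg h, if_neg (Ne.symm h), mul_zero]
    · intro b _ hb; rw [if_neg hb.symm, zero_mul]
    · intro h; exact absurd (Finset.mem_univ _) h
  have e2 : ∑ w, ∑ k, P2 V Q p (w, k) * (P2 V Q)ᵀ (w, k) q =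
      if p.1 = q.1 then (if p.2 = q.2 then 1 else 0) - (((d + 1 : ℕ) : ℝ))⁻¹ else 0 := by
    simp only [transpose_apply, P2]
    rw [Finset.sum_eq_single p.1]
    · by_cases h : p.1 = q.1
      · simp only [h, if_true]
        exact hQ.gram p.2 q.2
      · simp [h, Ne.symm h]
    · intro b _ hb
      simp [hb.symm]
    · intro h; exact absurd (Finset.mem_univ _) h
  rw [e1, e2, Matrix.one_apply]
  by_cases h : p.1 = q.1
  · by_cases h' : p.2 = q.2
    · rw [if_pos h, if_pos h, if_pos h', if_pos (Prod.ext h h')]; ring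
    · rw [if_pos h, if_pos h, if_neg h', if_neg fun h3 => h' (by rw [h3])]; ring
  · rw [if_neg h, if_neg h, if_neg fun h3 => h (by rw [h3])]; ring

lemma P1_E_P1 (u v : V) (τ : Perm (Fin (d + 1))) :
    (P1 V d)ᵀ * E u v (pm τ) * P1 V d = Matrix.single u v 1 := by
  have hr : (0 : ℝ) ≤ ((d + 1 : ℕ) : ℝ) := by positivity
  have hr0 : ((d + 1 : ℕ) : ℝ) ≠ 0 := by positivity
  ext a b
  rw [Matrix.mul_apply, Fintype.sum_prod_type]
  have e : ∀ w i, ((P1 V d)ᵀ * E u v (pm τ)) a (w, i) =
      if a = u ∧ w = v then (Real.sqrt ((d + 1 : ℕ) : ℝ))⁻¹ else 0 := by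
    intro w i
    rw [Matrix.mul_apply, Fintype.sum_prod_type]
    simp only [transpose_apply, P1, E]
    rw [Finset.sum_eq_single a]
    · by_cases h : a = u ∧ w = v
      · simp only [h, and_self, if_true, pm]
        simp
      · simp only [h, if_false, mul_zero, Finset.sum_const_zero]
    · intro c _ hc; simp [hc]
    · intro h; exact absurd (Finset.mem_univ _) h
  simp only [e, P1]
  rw [Finset.sum_eq_single b]
  · simp only [if_true, Finset.sum_const, Finset.card_univ, Fintype.card_fin, nsmul_eq_mul,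
      Matrix.single_apply]
    by_cases h : a = u ∧ b = v
    · rw [if_pos h, if_pos ⟨h.1.symm, h.2.symm⟩, ← mul_inv, Real.mul_self_sqrt hr,
        mul_inv_cancel₀ hr0]
    · rw [if_neg h, if_neg fun h' => h ⟨h'.1.symm, h'.2.symm⟩]; ring
  · intro c _ hc; simp [hc]
  · intro h; exact absurd (Finset.mem_univ _) h

lemma P1_E_P2 {Q : Matrix (Fin (d + 1)) (Fin d) ℝ} (hQ : IsStd Q) (u v : V)
    (τ : Perm (Fin (d + 1))) : (P1 V d)ᵀ * E u v (pm τ) * P2 V Q = 0 := by
  ext a b
  rw [Matrix.mul_apply, Fintype.sum_prod_type]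
  have e : ∀ w i, ((P1 V d)ᵀ * E u v (pm τ)) a (w, i) =
      if a = u ∧ w = v then (Real.sqrt ((d + 1 : ℕ) : ℝ))⁻¹ else 0 := by
    intro w i
    rw [Matrix.mul_apply, Fintype.sum_prod_type]
    simp only [transpose_apply, P1, E]
    rw [Finset.sum_eq_single a]
    · by_cases h : a = u ∧ w = v
      · simp only [h, and_self, if_true, pm]
        simp
      · simp only [h, if_false, mul_zero, Finset.sum_const_zero]
    · intro c _ hc; simp [hc]
    · intro h; exact absurd (Finset.mem_univ _) h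
  simp only [e, P2, Matrix.zero_apply]
  apply Finset.sum_eq_zero
  intro w _
  rw [← Finset.mul_sum]
  by_cases h : w = b.1
  · simp only [h, if_true]
    rw [hQ.colsum, mul_zero]
  · simp [h]

lemma P2_E_P2 {Q : Matrix (Fin (d + 1)) (Fin d) ℝ} (u v : V)
    (A : Matrix (Fin (d + 1)) (Fin (d + 1)) ℝ) :
    (P2 V Q)ᵀ * E u v A * P2 V Q = E u v (Qᵀ * A * Q) := by
  ext a b
  rw [Matrix.mul_apply, Fintype.sum_prod_type]
  have e : ∀ w i, ((P2 V Q)ᵀ * E u v A) a (w, i) =
      if a.1 = u ∧ w = v then (Qᵀ * A) a.2 i else 0 := by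
    intro w i
    rw [Matrix.mul_apply, Fintype.sum_prod_type]
    simp only [transpose_apply, P2, E]
    rw [Finset.sum_eq_single a.1]
    · by_cases h : a.1 = u ∧ w = v
      · simp only [h, and_self, if_true, Matrix.mul_apply, transpose_apply]
      · simp only [h, if_false, mul_zero, Finset.sum_const_zero]
    · intro c _ hc; simp [hc]
    · intro h; exact absurd (Finset.mem_univ _) h
  simp only [e, P2]
  rw [Finset.sum_eq_single b.1]
  · by_cases h : a.1 = u ∧ b.1 = v
    · simp only [E, h, and_self, if_true, Matrix.mul_apply]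
    · simp only [E, h, if_false, zero_mul, Finset.sum_const_zero]
  · intro c _ hc; simp [hc]
  · intro h; exact absurd (Finset.mem_univ _) h

end Block

section Cover

variable {V E : Type} [Fintype V] [DecidableEq V] [Fintype E] [DecidableEq E] (G : MGraph V E)

omit [Fintype V] [DecidableEq E] in
lemma adj_eq : G.adj = ∑ e, (Matrix.single (G.src e) (G.tgt e) (1 : ℝ) +
    Matrix.single (G.tgt e) (G.src e) 1) := by
  ext u v
  unfold MGraph.adj
  rw [Matrix.sum_apply, Fintype.sum_prod_type]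
  apply Finset.sum_congr rfl
  intro e _
  rw [Fintype.sum_bool]
  simp only [MGraph.dsrc, MGraph.dtgt, Matrix.add_apply, Matrix.single_apply, if_true,
    Bool.false_eq_true, if_false]

omit [Fintype V] [DecidableEq E] in
lemma coverAdj_eq {r : ℕ} (τ : E → Perm (Fin r)) : G.coverAdj (fun e => (τ e)⁻¹) =
    ∑ e, (Ramanujan.E (G.src e) (G.tgt e) (pm (τ e)) +
      Ramanujan.E (G.tgt e) (G.src e) (pm (τ e)⁻¹)) := by
  ext p q
  unfold MGraph.coverAdj
  rw [Matrix.sum_apply, Fintype.sum_prod_type]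
  apply Finset.sum_congr rfl
  intro e _
  rw [Fintype.sum_bool]
  have hperm : ∀ (π : Perm (Fin r)) (i j : Fin r), (π⁻¹.permMatrix ℝ) i j = pm π i j := by
    intro π i j
    unfold Equiv.Perm.permMatrix
    rw [PEquiv.toMatrix_apply]
    simp only [toPEquiv_apply, Option.mem_def, Option.some.injEq, pm]
    congr 1
    rw [eq_iff_iff, Perm.inv_eq_iff_eq]
  simp only [MGraph.dsrc, MGraph.dtgt, MGraph.dperm, Matrix.add_apply, Ramanujan.E, if_true,
    Bool.false_eq_true, if_false, hperm]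
  congr 1
  · simp only [eq_comm]
  · simp only [eq_comm]

/-- The new part of the adjacency matrix. -/
def newPart {d : ℕ} (Q : Matrix (Fin (d + 1)) (Fin d) ℝ) (τ : E → Perm (Fin (d + 1))) :
    Matrix (V × Fin d) (V × Fin d) ℝ :=
  ∑ e, (Ramanujan.E (G.src e) (G.tgt e) (stdRep Q (τ e)) +
      Ramanujan.E (G.tgt e) (G.src e) (stdRep Q (τ e))ᵀ)

omit [DecidableEq E] in
theorem charpoly_cover {d : ℕ} {Q : Matrix (Fin (d + 1)) (Fin d) ℝ} (hQ : IsStd Q)
    (τ : E → Perm (Fin (d + 1))) : (G.coverAdj fun e => (τ e)⁻¹).charpoly =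
      G.adj.charpoly * (newPart G Q τ).charpoly := by
  set P := fromCols (P1 V d) (P2 V Q) with hP
  set M := G.coverAdj fun e => (τ e)⁻¹ with hM
  have h1 : Pᵀ * (M * P) = fromBlocks G.adj 0 0 (newPart G Q τ) := by
    rw [hM, coverAdj_eq, ← Matrix.mul_assoc, hP, transpose_fromCols, fromRows_mul,
      fromRows_mul_fromCols, Matrix.mul_sum, Matrix.mul_sum, Matrix.sum_mul, Matrix.sum_mul,
      Matrix.sum_mul, Matrix.sum_mul, adj_eq, newPart]
    have t : ∀ (u v : V) (π : Perm (Fin (d + 1))), (P2 V Q)ᵀ * Ramanujan.E u v (pm π) * P1 V d =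
        0 := by
      intro u v π
      have h := congrArg Matrix.transpose (P1_E_P2 hQ v u π⁻¹)
      rw [transpose_mul, transpose_mul, transpose_transpose, E_transpose, pm_transpose, inv_inv,
        transpose_zero, ← Matrix.mul_assoc] at h
      exact h
    congr 1
    · apply Finset.sum_congr rfl
      intro e _
      rw [Matrix.mul_add, Matrix.add_mul, P1_E_P1, P1_E_P1]
    · apply Finset.sum_eq_zero
      intro e _
      rw [Matrix.mul_add, Matrix.add_mul, P1_E_P2 hQ, P1_E_P2 hQ, add_zero]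
    · apply Finset.sum_eq_zero
      intro e _
      rw [Matrix.mul_add, Matrix.add_mul, t, t, add_zero]
    · apply Finset.sum_congr rfl
      intro e _
      rw [Matrix.mul_add, Matrix.add_mul, P2_E_P2, P2_E_P2, stdRep_transpose]
      rfl
  have h2 : X ^ Fintype.card (V ⊕ V × Fin d) * M.charpoly =
      X ^ Fintype.card (V × Fin (d + 1)) * (Pᵀ * (M * P)).charpoly := by
    have h3 := charpoly_mul_comm' (M * P) Pᵀ
    rw [Matrix.mul_assoc, PP_one hQ, Matrix.mul_one] at h3
    exact h3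
  have hcard : Fintype.card (V ⊕ V × Fin d) = Fintype.card (V × Fin (d + 1)) := by
    simp only [Fintype.card_sum, Fintype.card_prod, Fintype.card_fin]
    ring
  rw [hcard] at h2
  have h4 := mul_left_cancel₀ (pow_ne_zero _ X_ne_zero) h2
  rw [h4, h1, charpoly_fromBlocks_zero₁₂]

omit [DecidableEq E] in
theorem newSpectrum_eq {d : ℕ} {Q : Matrix (Fin (d + 1)) (Fin d) ℝ} (hQ : IsStd Q)
    (τ : E → Perm (Fin (d + 1))) : (G.newSpectrum fun e => (τ e)⁻¹) =
      (newPart G Q τ).charpoly.roots := by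
  unfold MGraph.newSpectrum
  rw [charpoly_cover G hQ, roots_mul, add_tsub_cancel_left]
  exact mul_ne_zero (charpoly_monic _).ne_zero (charpoly_monic _).ne_zero

variable {G}

/-- Coverings whose new eigenvalues are below `x₀`, for every `x₀ > ρ(G)`. -/
theorem exists_cover_lt {v₀ : V} (hconn : G.Connected) {x₀ : ℝ} (hx : G.rho v₀ < x₀) (d : ℕ) :
    ∃ σ : E → Perm (Fin (d + 1)), ∀ x ∈ G.newSpectrum σ, x < x₀ := by
  obtain ⟨Q, hQ⟩ := exists_std d
  obtain ⟨τ, hτ⟩ := exists_perm hconn hx hQ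
  refine ⟨fun e => (τ e)⁻¹, ?_⟩
  intro x hx
  rw [newSpectrum_eq G hQ, mem_roots (charpoly_monic _).ne_zero] at hx
  by_contra hcon
  rw [not_lt] at hcon
  have h1 := hτ x hcon
  have h2 : ((newPart G Q τ).charpoly).eval x = 0 := hx
  unfold newPart at h2
  linarith

/-- Every finite connected graph has a one-sided Ramanujan covering of every degree. -/
theorem exists_ramanujan_cover (hconn : G.Connected) (v₀ : V) (r : ℕ) (hr : 1 ≤ r) :
    ∃ σ : E → Perm (Fin r), ∀ x ∈ G.newSpectrum σ, x ≤ G.rho v₀ := by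
  obtain ⟨d, rfl⟩ : ∃ d, r = d + 1 := ⟨r - 1, by omega⟩
  by_contra hcon
  push Not at hcon
  choose f hf1 hf2 using hcon
  have hne : (Finset.univ : Finset (E → Perm (Fin (d + 1)))).Nonempty := Finset.univ_nonempty
  have hlt : G.rho v₀ < Finset.univ.inf' hne f := by
    rw [Finset.lt_inf'_iff]
    intro σ _
    exact hf2 σ
  obtain ⟨σ, hσ⟩ := exists_cover_lt hconn hlt d
  have h1 := hσ _ (hf1 σ)
  have h2 : Finset.univ.inf' hne f ≤ f σ := Finset.inf'_le f (Finset.mem_univ σ)
  linarith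

end Cover

end Pool.Agent.Ramanujan
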