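import Mathlib

/-!
Definitions for the theorem on one-sided Ramanujan coverings.

A finite graph (multiple edges and loops allowed) is given by its vertex set `V`, its set of edges
`E` and one orientation `src e → tgt e` of every edge.  The oriented edges are the pairs `(e, b)`:
`(e, true)` is `e` from `src e` to `tgt e` and `(e, false)` is the reverse `-e`.
-/

open Matrix Equiv

namespace Pool.Agent.Ramanujan

/-- A graph with multiple edges and loops, every edge with a chosen orientation. -/
structure MGraph (V E : Type) where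
  src : E → V
  tgt : E → V

namespace MGraph

variable {V E : Type} (G : MGraph V E)

/-- Initial vertex of an oriented edge. -/
def dsrc (a : E × Bool) : V := if a.2 then G.src a.1 else G.tgt a.1

/-- Terminal vertex of an oriented edge. -/
def dtgt (a : E × Bool) : V := if a.2 then G.tgt a.1 else G.src a.1

/-- `G.IsWalk u L v`: the list `L` of oriented edges is a walk from `u` to `v`. -/
def IsWalk : V → List (E × Bool) → V → Prop
  | u, [], v => u = v
  | u, a :: L, v => G.dsrc a = u ∧ IsWalk (G.dtgt a) L v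

/-- Any two vertices are joined by a walk. -/
def Connected : Prop := ∀ u v, ∃ L, G.IsWalk u L v

/-- Adjacency matrix: number of oriented edges from `u` to `v` (a loop counts twice). -/
def adj [Fintype E] [DecidableEq V] : Matrix V V ℝ := fun u v =>
  ∑ a : E × Bool, if G.dsrc a = u ∧ G.dtgt a = v then 1 else 0

/-- The permutation on an oriented edge: `σ_e` on `e` and `σ_e⁻¹` on `-e`. -/
def dperm {r : ℕ} (σ : E → Perm (Fin r)) (a : E × Bool) : Perm (Fin r) :=
  if a.2 then σ a.1 else (σ a.1)⁻¹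

/-- Adjacency matrix of the `r`-covering given by `σ`: the `(u, v)` block is the sum of the
permutation matrices `P_{σ_a}` over the oriented edges `a` from `u` to `v`. -/
def coverAdj [Fintype E] [DecidableEq V] {r : ℕ} (σ : E → Perm (Fin r)) :
    Matrix (V × Fin r) (V × Fin r) ℝ := fun p q =>
  ∑ a : E × Bool, if G.dsrc a = p.1 ∧ G.dtgt a = q.1 then
    ((dperm σ a).permMatrix ℝ) p.2 q.2 else 0

/-- The new spectrum of the covering (eigenvalues with multiplicity of the covering minus those
of `G`). -/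
noncomputable def newSpectrum [Fintype E] [Fintype V] [DecidableEq V] {r : ℕ}
    (σ : E → Perm (Fin r)) : Multiset ℝ :=
  (G.coverAdj σ).charpoly.roots - G.adj.charpoly.roots

/-- Vertices of the universal covering tree based at `v₀`: homotopy classes of walks ending at
`v₀`, i.e. pairs of an initial vertex `u` and the class in the free group on the edges of a walk
from `u` to `v₀`. -/
def TreeVertex (v₀ : V) : Type :=
  {p : V × FreeGroup E // ∃ L, G.IsWalk p.1 L v₀ ∧ p.2 = FreeGroup.mk L}

variable {G}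

lemma step_mem {v₀ : V} (a : E × Bool) (p : G.TreeVertex v₀) (h : G.dsrc a = p.1.1) :
    ∃ L, G.IsWalk (G.dtgt a) L v₀ ∧ (FreeGroup.mk [a])⁻¹ * p.1.2 = FreeGroup.mk L := by
  obtain ⟨⟨u, g⟩, L, hL, hg⟩ := p
  refine ⟨(a.1, !a.2) :: L, ⟨?_, ?_⟩, ?_⟩
  · obtain ⟨e, b⟩ := a; cases b <;> rfl
  · have e1 : G.dtgt (a.1, !a.2) = G.dsrc a := by obtain ⟨e, b⟩ := a; cases b <;> rfl
    rw [e1, h]; exact hL
  · simp only at hg ⊢
    rw [hg, FreeGroup.inv_mk, FreeGroup.mul_mk]
    rfl

/-- The neighbour of a vertex of the tree along the oriented edge `a`. -/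
def TreeVertex.step {v₀ : V} (a : E × Bool) (p : G.TreeVertex v₀) (h : G.dsrc a = p.1.1) :
    G.TreeVertex v₀ :=
  ⟨(G.dtgt a, (FreeGroup.mk [a])⁻¹ * p.1.2), step_mem a p h⟩

/-- The function `p ↦ f (p·a)` (zero if `a` does not start at the endpoint of `p`). -/
noncomputable def shiftFun {v₀ : V} [DecidableEq V] (a : E × Bool) (f : G.TreeVertex v₀ → ℂ) :
    G.TreeVertex v₀ → ℂ :=
  fun p => if h : G.dsrc a = p.1.1 then f (p.step a h) else 0

lemma TreeVertex.step_injective {v₀ : V} {a : E × Bool} {p q : G.TreeVertex v₀}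
    (hp : G.dsrc a = p.1.1) (hq : G.dsrc a = q.1.1) (h : p.step a hp = q.step a hq) : p = q := by
  have h1 := congrArg (fun t => t.1.2) h
  simp only [TreeVertex.step] at h1
  have h2 : p.1.2 = q.1.2 := mul_left_cancel h1
  apply Subtype.ext
  exact Prod.ext (hp.symm.trans hq) h2

lemma shift_sum_le {v₀ : V} [DecidableEq V] (a : E × Bool)
    (f : lp (fun _ : G.TreeVertex v₀ => ℂ) 2) (s : Finset (G.TreeVertex v₀)) :
    ∑ p ∈ s, ‖shiftFun a f p‖ ^ (2 : ENNReal).toReal ≤ ‖f‖ ^ (2 : ENNReal).toReal := by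
  classical
  have h2 : 0 < (2 : ENNReal).toReal := by simp
  have h1 : ∑ p ∈ s, ‖shiftFun a f p‖ ^ (2 : ENNReal).toReal =
      ∑ p ∈ s.filter (fun p => G.dsrc a = p.1.1), ‖shiftFun a f p‖ ^ (2 : ENNReal).toReal := by
    rw [Finset.sum_filter]
    apply Finset.sum_congr rfl
    intro p _
    by_cases h : G.dsrc a = p.1.1
    · rw [if_pos h]
    · rw [if_neg h]; simp [shiftFun, h]
  set st : G.TreeVertex v₀ → G.TreeVertex v₀ := fun p =>
    if h : G.dsrc a = p.1.1 then p.step a h else p with hst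
  have h3 : ∑ p ∈ s.filter (fun p => G.dsrc a = p.1.1), ‖shiftFun a f p‖ ^ (2 : ENNReal).toReal =
      ∑ q ∈ (s.filter (fun p => G.dsrc a = p.1.1)).image st, ‖f q‖ ^ (2 : ENNReal).toReal := by
    rw [Finset.sum_image]
    · apply Finset.sum_congr rfl
      intro p hp
      have hp' := (Finset.mem_filter.mp hp).2
      simp [shiftFun, hst, hp']
    · intro p hp q hq hpq
      have hp' : G.dsrc a = p.1.1 := (Finset.mem_filter.mp (Finset.mem_coe.mp hp)).2
      have hq' : G.dsrc a = q.1.1 := (Finset.mem_filter.mp (Finset.mem_coe.mp hq)).2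
      simp only [hst, dif_pos hp', dif_pos hq'] at hpq
      exact TreeVertex.step_injective hp' hq' hpq
  rw [h1, h3]
  exact lp.sum_rpow_le_norm_rpow h2 f _

lemma shiftFun_add {v₀ : V} [DecidableEq V] (a : E × Bool) (f g : G.TreeVertex v₀ → ℂ) :
    shiftFun a (f + g) = shiftFun a f + shiftFun a g := by
  funext p
  by_cases h : G.dsrc a = p.1.1 <;> simp [shiftFun, h]

lemma shiftFun_smul {v₀ : V} [DecidableEq V] (a : E × Bool) (c : ℂ) (f : G.TreeVertex v₀ → ℂ) :
    shiftFun a (c • f) = c • shiftFun a f := by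
  funext p
  by_cases h : G.dsrc a = p.1.1 <;> simp [shiftFun, h]

variable (G)

/-- The Hilbert space `ℓ²` of the vertices of the universal covering tree (Mathlib's `lp`). -/
def TreeL2 (v₀ : V) : Type := lp (fun _ : G.TreeVertex v₀ => ℂ) 2

/-- Mathlib's norm on `ℓ²`. -/
noncomputable instance instNormedTreeL2 (v₀ : V) : NormedAddCommGroup (G.TreeL2 v₀) :=
  @lp.normedAddCommGroup (G.TreeVertex v₀) (fun _ => ℂ) 2 _ _

/-- Mathlib's inner product on `ℓ²`. -/
noncomputable instance instInnerTreeL2 (v₀ : V) : InnerProductSpace ℂ (G.TreeL2 v₀) :=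
  @lp.instInnerProductSpace (G.TreeVertex v₀) ℂ _ (fun _ => ℂ) _ _

instance instCompleteTreeL2 (v₀ : V) : CompleteSpace (G.TreeL2 v₀) :=
  inferInstanceAs (CompleteSpace (lp (fun _ : G.TreeVertex v₀ => ℂ) 2))

variable {G}

/-- The function on the vertices of the tree given by an element of `ℓ²`. -/
def TreeL2.fn {v₀ : V} (f : G.TreeL2 v₀) : G.TreeVertex v₀ → ℂ := Subtype.val f

lemma shift_mem {v₀ : V} [DecidableEq V] (a : E × Bool) (f : G.TreeL2 v₀) :
    Memℓp (shiftFun a f.fn) 2 :=
  memℓp_gen' (shift_sum_le a f)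

/-- `f ↦ (p ↦ f (p·a))` on `ℓ²`. -/
noncomputable def shiftLp [DecidableEq V] {v₀ : V} (a : E × Bool) (f : G.TreeL2 v₀) :
    G.TreeL2 v₀ := Subtype.mk (shiftFun a f.fn) (shift_mem a f)

lemma norm_shiftLp_le [DecidableEq V] {v₀ : V} (a : E × Bool) (f : G.TreeL2 v₀) :
    ‖shiftLp a f‖ ≤ 1 * ‖f‖ := by
  rw [one_mul]
  exact lp.norm_le_of_forall_sum_le (f := (shiftLp a f : lp (fun _ : G.TreeVertex v₀ => ℂ) 2))
    (by simp) (norm_nonneg f) (shift_sum_le a f)

variable (G)

/-- The bounded operator `f ↦ (p ↦ f (p·a))`. -/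
noncomputable def shiftOp [DecidableEq V] (v₀ : V) (a : E × Bool) :
    G.TreeL2 v₀ →L[ℂ] G.TreeL2 v₀ :=
  LinearMap.mkContinuous
    { toFun := shiftLp a
      map_add' := fun f g => Subtype.ext (shiftFun_add a f.fn g.fn)
      map_smul' := fun c f => Subtype.ext (shiftFun_smul a c f.fn) } 1 (norm_shiftLp_le a)

/-- The adjacency operator of the universal covering tree on `ℓ²` of its vertices:
`(A f)(p)` is the sum of `f` over the neighbours of `p`. -/
noncomputable def treeAdj [Fintype E] [DecidableEq V] (v₀ : V) :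
    G.TreeL2 v₀ →L[ℂ] G.TreeL2 v₀ :=
  ∑ a : E × Bool, G.shiftOp v₀ a

/-- `ρ(G)`: the spectral radius of the adjacency operator of the universal covering tree. -/
noncomputable def rho [Fintype E] [DecidableEq V] (v₀ : V) : ℝ :=
  (spectralRadius ℂ (G.treeAdj v₀)).toReal

end MGraph

end Pool.Agent.Ramanujan
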