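import Pool.Agent.Ramanujan.Frames

/-!
Matrices acting on one fibre, and the quadrature theorem comparing the average over the standard
representation of a symmetric group with the average over signed permutation matrices.
-/

open Matrix Function Equiv

namespace Pool.Agent.Ramanujan

section Perm

variable {α : Type*} [Fintype α] [DecidableEq α]

/-- Permutation matrix (covariant). -/
def pm (π : Perm α) : Matrix α α ℝ := fun i j => if i = π j then 1 else 0

omit [Fintype α] in
lemma pm_one : pm (1 : Perm α) = 1 := by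
  ext i j; by_cases h : i = j <;> simp [pm, Matrix.one_apply, h]

lemma pm_mul (π τ : Perm α) : pm (π * τ) = pm π * pm τ := by
  ext i k
  rw [Matrix.mul_apply, Finset.sum_eq_single (τ k)]
  · by_cases h : i = π (τ k) <;> simp [pm, h]
  · intro b _ hb; simp [pm, hb]
  · intro h; exact absurd (Finset.mem_univ _) h

omit [Fintype α] in
lemma pm_transpose (π : Perm α) : (pm π)ᵀ = pm π⁻¹ := by
  ext i j
  simp only [pm, transpose_apply]
  congr 1
  rw [eq_iff_iff, Perm.eq_inv_iff_eq, eq_comm]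

omit [Fintype α] in
lemma pm_swap {a b : α} (hab : a ≠ b) : pm (swap a b) =
    1 - vecMulVec (Pi.single a 1 - Pi.single b 1) (Pi.single a 1 - Pi.single b 1) := by
  ext i j
  simp only [pm, Matrix.sub_apply, Matrix.one_apply, vecMulVec_apply, Pi.sub_apply]
  by_cases hja : j = a
  · subst hja
    rw [swap_apply_left]
    by_cases hib : i = b
    · subst hib; simp [hab, hab.symm]
    · by_cases hia : i = j
      · subst hia; simp [hab]
      · simp [hib, hia, hab]
  · by_cases hjb : j = b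
    · subst hjb
      rw [swap_apply_right]
      by_cases hib : i = j
      · subst hib; simp [hab.symm]
      · by_cases hia : i = a
        · subst hia; simp [hab, hab.symm]
        · simp [hib, hia]
    · rw [swap_apply_of_ne_of_ne hja hjb]
      simp [hja, hjb]

lemma pm_orth (π : Perm α) : pm π * (pm π)ᵀ = 1 := by
  rw [pm_transpose, ← pm_mul, mul_inv_cancel, pm_one]

/-- Sign matrix. -/
def sg (ε : α → ℤˣ) : Matrix α α ℝ := Matrix.diagonal fun i => (((ε i : ℤˣ) : ℤ) : ℝ)

lemma sg_mul (ε δ : α → ℤˣ) : sg (ε * δ) = sg ε * sg δ := by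
  unfold sg
  rw [diagonal_mul_diagonal]
  congr 1
  ext i
  simp

omit [Fintype α] in
lemma sg_transpose (ε : α → ℤˣ) : (sg ε)ᵀ = sg ε := by
  unfold sg; rw [diagonal_transpose]

omit [Fintype α] in
lemma sg_one : sg (1 : α → ℤˣ) = 1 := by
  unfold sg
  simp

lemma sg_sq (ε : α → ℤˣ) : sg ε * sg ε = 1 := by
  rw [← sg_mul, Int.units_mul_self_eq_one_pi ε, sg_one]
where
  Int.units_mul_self_eq_one_pi (ε : α → ℤˣ) : ε * ε = 1 := by
    ext i; simp

lemma sg_mul_pm (ε : α → ℤˣ) (τ : Perm α) : sg ε * pm τ = pm τ * sg (ε ∘ τ) := by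
  unfold sg
  ext i j
  rw [diagonal_mul, mul_diagonal]
  simp only [pm, Function.comp]
  by_cases h : i = τ j
  · subst h; simp
  · simp [h]

end Perm

section Fibre

variable {V : Type*} [Fintype V] [DecidableEq V] {d : ℕ}

/-- The block matrix with the single block `A` at position `(u, v)`. -/
def E (u v : V) (A : Matrix (Fin d) (Fin d) ℝ) : Matrix (V × Fin d) (V × Fin d) ℝ :=
  fun p q => if p.1 = u ∧ q.1 = v then A p.2 q.2 else 0

omit [Fintype V] in
lemma E_add (u v : V) (A B : Matrix (Fin d) (Fin d) ℝ) : E u v (A + B) = E u v A + E u v B := by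
  ext p q; by_cases h : p.1 = u ∧ q.1 = v <;> simp [E, h]

omit [Fintype V] in
lemma E_sub (u v : V) (A B : Matrix (Fin d) (Fin d) ℝ) : E u v (A - B) = E u v A - E u v B := by
  ext p q; by_cases h : p.1 = u ∧ q.1 = v <;> simp [E, h]

omit [Fintype V] in
lemma E_neg (u v : V) (A : Matrix (Fin d) (Fin d) ℝ) : E u v (-A) = - E u v A := by
  ext p q; by_cases h : p.1 = u ∧ q.1 = v <;> simp [E, h]

omit [Fintype V] in
lemma E_smul (u v : V) (c : ℝ) (A : Matrix (Fin d) (Fin d) ℝ) : E u v (c • A) = c • E u v A := by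
  ext p q; by_cases h : p.1 = u ∧ q.1 = v <;> simp [E, h]

omit [Fintype V] in
lemma E_zero (u v : V) : E u v (0 : Matrix (Fin d) (Fin d) ℝ) = 0 := by
  ext p q; simp [E]

omit [Fintype V] in
lemma E_transpose (u v : V) (A : Matrix (Fin d) (Fin d) ℝ) : (E u v A)ᵀ = E v u Aᵀ := by
  ext p q; simp [E, and_comm]

lemma E_mul (u v w x : V) (A B : Matrix (Fin d) (Fin d) ℝ) :
    E u v A * E w x B = if v = w then E u x (A * B) else 0 := by
  ext p q
  rw [Matrix.mul_apply, Fintype.sum_prod_type]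
  by_cases hvw : v = w
  · subst hvw
    rw [if_pos rfl, Finset.sum_eq_single v]
    · by_cases h : p.1 = u ∧ q.1 = x
      · simp [E, h.1, h.2, Matrix.mul_apply]
      · by_cases h1 : p.1 = u
        · have h2 : q.1 ≠ x := fun h2 => h ⟨h1, h2⟩
          simp [E, h1, h2]
        · simp [E, h1]
    · intro b _ hb
      simp [E, hb]
    · intro h; exact absurd (Finset.mem_univ v) h
  · rw [if_neg hvw]
    simp only [Matrix.zero_apply]
    apply Finset.sum_eq_zero
    intro b _
    apply Finset.sum_eq_zero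
    intro i _
    by_cases hb : b = v
    · subst hb; simp [E, hvw]
    · simp [E, hb]

lemma E_mul_same (u v x : V) (A B : Matrix (Fin d) (Fin d) ℝ) :
    E u v A * E v x B = E u x (A * B) := by
  rw [E_mul, if_pos rfl]

/-- The matrix acting as `g` on the fibre over `v` and as the identity elsewhere. -/
def U (v : V) (g : Matrix (Fin d) (Fin d) ℝ) : Matrix (V × Fin d) (V × Fin d) ℝ :=
  1 + E v v (g - 1)

omit [Fintype V] in
lemma U_one (v : V) : U v (1 : Matrix (Fin d) (Fin d) ℝ) = 1 := by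
  unfold U; rw [sub_self, E_zero, add_zero]

lemma U_mul (v : V) (g h : Matrix (Fin d) (Fin d) ℝ) : U v g * U v h = U v (g * h) := by
  unfold U
  have key : g * h - 1 = (g - 1) + (h - 1) + (g - 1) * (h - 1) := by noncomm_ring
  rw [key, E_add, E_add]
  simp only [mul_add, add_mul, E_mul_same, one_mul, mul_one]
  abel

omit [Fintype V] in
lemma U_transpose (v : V) (g : Matrix (Fin d) (Fin d) ℝ) : (U v g)ᵀ = U v gᵀ := by
  unfold U
  rw [transpose_add, E_transpose, transpose_one, transpose_sub, transpose_one]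

lemma U_orth (v : V) {g : Matrix (Fin d) (Fin d) ℝ} (hg : g * gᵀ = 1) :
    U v g * (U v g)ᵀ = 1 := by
  rw [U_transpose, U_mul, hg, U_one]

lemma U_mul_E (v x : V) (g A : Matrix (Fin d) (Fin d) ℝ) : U v g * E v x A = E v x (g * A) := by
  unfold U
  rw [add_mul, one_mul, E_mul_same, ← E_add]
  congr 1
  noncomm_ring

lemma U_mul_E_ne {v w : V} (h : v ≠ w) (x : V) (g A : Matrix (Fin d) (Fin d) ℝ) :
    U v g * E w x A = E w x A := by
  unfold U
  rw [add_mul, one_mul, E_mul, if_neg h, add_zero]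

lemma E_mul_U (v x : V) (g A : Matrix (Fin d) (Fin d) ℝ) : E x v A * U v g = E x v (A * g) := by
  unfold U
  rw [mul_add, mul_one, E_mul_same, ← E_add]
  congr 1
  noncomm_ring

lemma E_mul_U_ne {v w : V} (h : w ≠ v) (x : V) (g A : Matrix (Fin d) (Fin d) ℝ) :
    E x w A * U v g = E x w A := by
  unfold U
  rw [mul_add, mul_one, E_mul, if_neg h, add_zero]

/-- A vector in the fibre over `v`. -/
def emb (v : V) (x : Fin d → ℝ) : V × Fin d → ℝ := fun p => if p.1 = v then x p.2 else 0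

omit [Fintype V] in
lemma emb_sub (v : V) (x y : Fin d → ℝ) : emb v (x - y) = emb v x - emb v y := by
  ext p; by_cases h : p.1 = v <;> simp [emb, h]

omit [Fintype V] in
lemma emb_sum {β : Type*} (s : Finset β) (v : V) (f : β → Fin d → ℝ) :
    emb v (∑ b ∈ s, f b) = ∑ b ∈ s, emb v (f b) := by
  ext p; by_cases h : p.1 = v <;> simp [emb, h]

omit [Fintype V] in
lemma emb_smul (v : V) (c : ℝ) (x : Fin d → ℝ) : emb v (c • x) = c • emb v x := by
  ext p; by_cases h : p.1 = v <;> simp [emb, h]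

omit [Fintype V] in
lemma vecMulVec_emb (v : V) (x y : Fin d → ℝ) :
    vecMulVec (emb v x) (emb v y) = E v v (vecMulVec x y) := by
  ext p q
  by_cases h1 : p.1 = v <;> by_cases h2 : q.1 = v <;> simp [emb, E, vecMulVec_apply, h1, h2]

lemma emb_dot (v : V) (x y : Fin d → ℝ) : emb v x ⬝ᵥ emb v y = x ⬝ᵥ y := by
  unfold dotProduct
  rw [Fintype.sum_prod_type, Finset.sum_eq_single v]
  · simp [emb]
  · intro b _ hb; simp [emb, hb]
  · intro h; exact absurd (Finset.mem_univ v) h

lemma hh_emb (v : V) (x : Fin d → ℝ) : hh (emb v x) = U v (hh x) := by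
  unfold hh U
  rw [emb_dot, vecMulVec_emb, sub_sub_cancel_left, E_neg, E_smul]
  abel

variable {G : Type*} [Fintype G]

/-- Every orthogonal matrix acting on the fibre is a product of reflections. -/
theorem Inv.all_orthogonal {M : G → Matrix (V × Fin d) (V × Fin d) ℝ} (v : V)
    (h : ∀ x : Fin d → ℝ, Inv M (hh (emb v x))) :
    ∀ (n : ℕ) (A : Matrix (Fin d) (Fin d) ℝ), A * Aᵀ = 1 →
      (Finset.univ.filter fun k => A *ᵥ Pi.single k 1 ≠ Pi.single k 1).card = n →
      Inv M (U v A) := by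
  intro n
  induction n using Nat.strong_induction_on with
  | _ n ih =>
  intro A hA hn
  have hA' : Aᵀ * A = 1 := mul_eq_one_comm.mp hA
  by_cases hk : ∃ k, A *ᵥ Pi.single k 1 ≠ Pi.single k 1
  · obtain ⟨k, hk⟩ := hk
    have hdot : ∀ x y : Fin d → ℝ, (A *ᵥ x) ⬝ᵥ (A *ᵥ y) = x ⬝ᵥ y := by
      intro x y
      rw [dotProduct_mulVec, ← mulVec_transpose, mulVec_mulVec, hA', one_mulVec]
    set X := A *ᵥ Pi.single k 1 with hX
    set H := hh (X - Pi.single k 1) with hH
    have hHk : H *ᵥ X = Pi.single k 1 := by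
      have h1 : H *ᵥ Pi.single k 1 = X := by
        rw [hH]
        apply hh_sub_mulVec
        rw [hX, hdot]
      rw [← h1, mulVec_mulVec, hH, hh_mul_self, one_mulVec]
    have hHH : H * H = 1 := hh_mul_self _
    have hHt : Hᵀ = H := hh_symm _
    have horth : (H * A) * (H * A)ᵀ = 1 := by
      rw [transpose_mul, hHt]
      have : H * A * (Aᵀ * H) = H * (A * Aᵀ) * H := by simp only [mul_assoc]
      rw [this, hA, mul_one, hHH]
    have hfix : ∀ j, A *ᵥ Pi.single j 1 = Pi.single j 1 →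
        (H * A) *ᵥ Pi.single j 1 = Pi.single j 1 := by
      intro j hj
      have hjk : j ≠ k := by rintro rfl; exact hk hj
      rw [← mulVec_mulVec, hj, hH]
      unfold hh
      rw [sub_mulVec, one_mulVec, smul_mulVec, vecMulVec_mulVec]
      have h0 : (X - Pi.single k 1) ⬝ᵥ Pi.single j 1 = 0 := by
        rw [sub_dotProduct]
        have e1 : X ⬝ᵥ Pi.single j 1 = 0 := by
          nth_rewrite 1 [← hj]
          rw [hX, hdot]
          simp [hjk]
        rw [e1]
        simp [hjk]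
      rw [h0]
      simp
    have key := ih ((Finset.univ.filter fun j => (H * A) *ᵥ Pi.single j 1 ≠ Pi.single j 1).card)
      (by
        rw [← hn]
        apply Finset.card_lt_card
        rw [Finset.ssubset_iff_of_subset]
        · refine ⟨k, by simp only [Finset.mem_filter, Finset.mem_univ, true_and]; exact hk, ?_⟩
          simp only [Finset.mem_filter, Finset.mem_univ, true_and, not_not]
          rw [← mulVec_mulVec, ← hX, hHk]
        · intro j hj
          simp only [Finset.mem_filter, Finset.mem_univ, true_and] at hj ⊢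
          intro h1
          exact hj (hfix j h1))
      (H * A) horth rfl
    have e : U v A = hh (emb v (X - Pi.single k 1)) * U v (H * A) := by
      rw [hh_emb, ← hH, U_mul, ← mul_assoc, hHH, one_mul]
    rw [e]
    exact (h _).mul key
  · push Not at hk
    have : A = 1 := by
      ext i j
      have := congrFun (hk j) i
      rw [mulVec_single_one] at this
      simp only [col_apply] at this
      rw [this, Pi.single_apply, Matrix.one_apply]
    rw [this, U_one]
    exact Inv.one M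

/-- Comparison of two averages which are invariant under each other. -/
theorem quad_general {N : Type*} [Fintype N] [DecidableEq N] {G₁ G₂ : Type*} [Fintype G₁]
    [Fintype G₂] {M₁ : G₁ → Matrix N N ℝ} {M₂ : G₂ → Matrix N N ℝ}
    (h₁ : ∀ g, M₁ g * (M₁ g)ᵀ = 1) (h₂ : ∀ g, M₂ g * (M₂ g)ᵀ = 1)
    (h₁₂ : ∀ g, Inv M₁ (M₂ g)) (h₂₁ : ∀ g, Inv M₂ (M₁ g)ᵀ)
    (e : G₂ ≃ G₂) (he : ∀ g, M₂ (e g) = (M₂ g)ᵀ) (Y B : Matrix N N ℝ) :
    (Fintype.card G₂ : ℝ) * ∑ g, (Y + M₁ g * B * (M₁ g)ᵀ).det =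
      (Fintype.card G₁ : ℝ) * ∑ g, (Y + M₂ g * B * (M₂ g)ᵀ).det := by
  have e1 : (Fintype.card G₂ : ℝ) * ∑ g, (Y + M₁ g * B * (M₁ g)ᵀ).det =
      ∑ g₂, ∑ g₁, (Y + M₁ g₁ * (M₂ g₂ * B * (M₂ g₂)ᵀ) * (M₁ g₁)ᵀ).det := by
    rw [Finset.sum_congr rfl fun g₂ _ => h₁₂ g₂ Y B, Finset.sum_const, Finset.card_univ,
      nsmul_eq_mul]
  have hflip : ∀ Z C : Matrix N N ℝ, ∑ g, (Z + M₂ g * C * (M₂ g)ᵀ).det =
      ∑ g, (C + M₂ g * Z * (M₂ g)ᵀ).det := by
    intro Z C
    rw [← Equiv.sum_comp e fun g => (C + M₂ g * Z * (M₂ g)ᵀ).det]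
    apply Finset.sum_congr rfl
    intro g _
    rw [conj_det (h₂ g), he, transpose_transpose, add_comm]
  rw [e1, Finset.sum_comm]
  have e2 : ∀ g₁, ∑ g₂, (Y + M₁ g₁ * (M₂ g₂ * B * (M₂ g₂)ᵀ) * (M₁ g₁)ᵀ).det =
      ∑ g₂, (Y + M₂ g₂ * B * (M₂ g₂)ᵀ).det := by
    intro g₁
    have h3 : ∀ g₂, (Y + M₁ g₁ * (M₂ g₂ * B * (M₂ g₂)ᵀ) * (M₁ g₁)ᵀ).det =
        ((M₁ g₁)ᵀ * Y * M₁ g₁ + M₂ g₂ * B * (M₂ g₂)ᵀ).det := fun g₂ => conj_det (h₁ g₁)
    rw [Finset.sum_congr rfl fun g₂ _ => h3 g₂, hflip]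
    have h4 := h₂₁ g₁ B Y
    rw [transpose_transpose] at h4
    rw [h4, hflip]
  rw [Finset.sum_congr rfl fun g₁ _ => e2 g₁, Finset.sum_const, Finset.card_univ, nsmul_eq_mul]

end Fibre

end Pool.Agent.Ramanujan
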