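import Pool.Agent.Ramanujan.Inv

/-!
Reflections in all directions spanned by a frame.
-/

open Matrix Function

namespace Pool.Agent.Ramanujan

variable {N : Type*} [Fintype N] [DecidableEq N]
variable {G : Type*} [Fintype G]

lemma hh_sub_mulVec {X X' : N → ℝ} (h : X ⬝ᵥ X = X' ⬝ᵥ X') : hh (X - X') *ᵥ X' = X := by
  by_cases h0 : X - X' = 0
  · rw [h0, hh_zero, one_mulVec]
    exact (sub_eq_zero.mp h0).symm
  · have hne : (X - X') ⬝ᵥ (X - X') ≠ 0 := fun h1 => h0 (dotProduct_self_eq_zero.mp h1)
    have h2 : (X - X') ⬝ᵥ (X - X') = -2 * ((X - X') ⬝ᵥ X') := by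
      rw [sub_dotProduct, dotProduct_sub, dotProduct_sub, sub_dotProduct, dotProduct_comm X' X]
      linarith
    have hne2 : (X - X') ⬝ᵥ X' ≠ 0 := by
      intro h3; rw [h3] at h2; exact hne (by rw [h2]; ring)
    unfold hh
    rw [sub_mulVec, one_mulVec, smul_mulVec, vecMulVec_mulVec, h2]
    set κ := (X - X') ⬝ᵥ X' with hκ
    have hc : 2 / (-2 * κ) * κ = -1 := by field_simp
    ext i
    simp only [Pi.sub_apply, Pi.smul_apply, MulOpposite.smul_eq_mul_unop, MulOpposite.unop_op,
      smul_eq_mul]
    linear_combination (-(X i - X' i)) * hc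

lemma Inv.transport {M : G → Matrix N N ℝ} {X X' : N → ℝ} (h : X ⬝ᵥ X = X' ⬝ᵥ X')
    (h1 : Inv M (hh (X - X'))) (h2 : Inv M (hh X')) : Inv M (hh X) := by
  have e := hh_sub_mulVec h
  have h3 := Inv.hh_conj (R := hh (X - X')) (by rw [hh_symm]; exact hh_mul_self _) h1
    (by rw [hh_symm]; exact h1) h2
  rwa [e] at h3

section Frame

variable {α : Type*} [Fintype α] [DecidableEq α]

/-- Linear combination of a family of vectors. -/
def comb (w : α → N → ℝ) (x : α → ℝ) : N → ℝ := ∑ a, x a • w a

omit [Fintype N] [DecidableEq N] [DecidableEq α] in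
lemma comb_sub (w : α → N → ℝ) (x y : α → ℝ) : comb w (x - y) = comb w x - comb w y := by
  unfold comb
  rw [← Finset.sum_sub_distrib]
  exact Finset.sum_congr rfl fun a _ => by rw [Pi.sub_apply, sub_smul]

omit [Fintype N] [DecidableEq N] [DecidableEq α] in
lemma comb_add (w : α → N → ℝ) (x y : α → ℝ) : comb w (x + y) = comb w x + comb w y := by
  unfold comb
  rw [← Finset.sum_add_distrib]
  exact Finset.sum_congr rfl fun a _ => by rw [Pi.add_apply, add_smul]

omit [Fintype N] [DecidableEq N] [DecidableEq α] in
lemma comb_smul (w : α → N → ℝ) (c : ℝ) (x : α → ℝ) : comb w (c • x) = c • comb w x := by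
  unfold comb
  rw [Finset.smul_sum]
  exact Finset.sum_congr rfl fun a _ => by rw [Pi.smul_apply, smul_assoc]

omit [Fintype N] [DecidableEq N] in
lemma comb_single (w : α → N → ℝ) (a : α) : comb w (Pi.single a 1) = w a := by
  unfold comb
  rw [Finset.sum_eq_single a]
  · simp
  · intro b _ hb; simp [Pi.single_eq_of_ne hb]
  · intro h; exact absurd (Finset.mem_univ a) h

omit [DecidableEq N] in
lemma comb_dot {w : α → N → ℝ} {κ : ℝ} (hw : ∀ a b, w a ⬝ᵥ w b = (if a = b then 1 else 0) - κ)
    (x y : α → ℝ) : comb w x ⬝ᵥ comb w y = x ⬝ᵥ y - κ * (∑ a, x a) * (∑ a, y a) := by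
  unfold comb
  rw [sum_dotProduct]
  simp only [dotProduct_sum, smul_dotProduct, dotProduct_smul, hw, smul_eq_mul]
  simp only [mul_sub, Finset.sum_sub_distrib, mul_ite, mul_one, mul_zero, Finset.sum_ite_eq,
    Finset.mem_univ, if_true]
  congr 1
  · exact Finset.sum_congr rfl fun b _ => by ring
  · rw [mul_assoc, Finset.sum_mul_sum, Finset.mul_sum]
    apply Finset.sum_congr rfl
    intro a _
    rw [Finset.mul_sum]
    exact Finset.sum_congr rfl fun b _ => by ring

omit [Fintype α] in
/-- The plane spanned by two differences of frame vectors. -/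
lemma Inv.triple {M : G → Matrix N N ℝ} (hM : ∀ g, M g * (M g)ᵀ = 1) {w : α → N → ℝ} {κ : ℝ}
    (hw : ∀ a b, w a ⬝ᵥ w b = (if a = b then 1 else 0) - κ)
    (h : ∀ a b, a ≠ b → Inv M (hh (w a - w b))) {a b c : α} (hab : a ≠ b) (hbc : b ≠ c)
    (hac : a ≠ c) (s t : ℝ) : Inv M (hh (s • (w a - w b) + t • (w b - w c))) := by
  have h2 : Real.sqrt 2 * Real.sqrt 2 = 2 := Real.mul_self_sqrt (by norm_num)
  have h20 : Real.sqrt 2 ≠ 0 := by positivity
  have hinv : (1 / Real.sqrt 2) * (1 / Real.sqrt 2) = 1 / 2 := by
    rw [div_mul_div_comm, h2, one_mul]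
  have d1 : (w a - w b) ⬝ᵥ (w a - w b) = 2 := by
    rw [sub_dotProduct, dotProduct_sub, dotProduct_sub, hw, hw, hw, hw]
    simp [hab, hab.symm]; ring
  have d2 : (w b - w c) ⬝ᵥ (w b - w c) = 2 := by
    rw [sub_dotProduct, dotProduct_sub, dotProduct_sub, hw, hw, hw, hw]
    simp [hbc, hbc.symm]; ring
  have d3 : (w a - w b) ⬝ᵥ (w b - w c) = -1 := by
    rw [sub_dotProduct, dotProduct_sub, dotProduct_sub, hw, hw, hw, hw]
    simp [hab, hbc, hac]
  have key := Inv.plane hM (v := (1 / Real.sqrt 2) • (w a - w b))
    (w := (1 / Real.sqrt 2) • (w b - w c))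
    (by rw [smul_dotProduct, dotProduct_smul, d1]; simp only [smul_eq_mul]
        rw [← mul_assoc, hinv]; norm_num)
    (by rw [smul_dotProduct, dotProduct_smul, d2]; simp only [smul_eq_mul]
        rw [← mul_assoc, hinv]; norm_num)
    (by left
        rw [smul_dotProduct, dotProduct_smul, d3]; simp only [smul_eq_mul]
        rw [← mul_assoc, hinv]; norm_num)
    (by rw [hh_smul (by positivity)]; exact h a b hab)
    (by rw [hh_smul (by positivity)]; exact h b c hbc)
    (Real.sqrt 2 * s) (Real.sqrt 2 * t)
  have e : (Real.sqrt 2 * s) • (1 / Real.sqrt 2) • (w a - w b) +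
      (Real.sqrt 2 * t) • (1 / Real.sqrt 2) • (w b - w c) =
      s • (w a - w b) + t • (w b - w c) := by
    rw [smul_smul, smul_smul]
    congr 2 <;> field_simp
  rwa [e] at key

/-- Reflections in all directions spanned by differences of frame vectors. -/
theorem Inv.frame {M : G → Matrix N N ℝ} (hM : ∀ g, M g * (M g)ᵀ = 1) {w : α → N → ℝ} {κ : ℝ}
    (hw : ∀ a b, w a ⬝ᵥ w b = (if a = b then 1 else 0) - κ)
    (h : ∀ a b, a ≠ b → Inv M (hh (w a - w b))) :
    ∀ (n : ℕ) (x : α → ℝ), (Finset.univ.filter fun a => x a ≠ 0).card = n → ∑ a, x a = 0 →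
      Inv M (hh (comb w x)) := by
  intro n
  induction n using Nat.strong_induction_on with
  | _ n ih =>
  intro x hn hx
  -- reduction step
  have step : ∀ a b c : α, a ≠ b → b ≠ c → a ≠ c → x a ≠ 0 → x b ≠ 0 → x c ≠ 0 →
      x c * (x a + x b) ≤ 0 → Inv M (hh (comb w x)) := by
    intro a b c hab hbc hac ha hb hc hle
    set S := x a + x b + x c with hS
    set Q := x a ^ 2 + x b ^ 2 + x c ^ 2 with hQ
    have hΔ : 0 ≤ 2 * Q - S ^ 2 := by
      have : 2 * Q - S ^ 2 = (x a - x b) ^ 2 + x c ^ 2 - 2 * (x c * (x a + x b)) := by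
        rw [hQ, hS]; ring
      rw [this]
      nlinarith [sq_nonneg (x a - x b), sq_nonneg (x c)]
    set δ := Real.sqrt (2 * Q - S ^ 2) with hδ
    have hδ2 : δ * δ = 2 * Q - S ^ 2 := Real.mul_self_sqrt hΔ
    set x' : α → ℝ := fun i => if i = a then (S + δ) / 2 else if i = b then (S - δ) / 2
      else if i = c then 0 else x i with hx'
    have xa : x' a = (S + δ) / 2 := by simp [hx']
    have xb : x' b = (S - δ) / 2 := by simp [hx', hab.symm]
    have xc : x' c = 0 := by simp [hx', hac.symm, hbc.symm]
    have xo : ∀ i, i ≠ a → i ≠ b → i ≠ c → x' i = x i := by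
      intro i h1 h2 h3; simp [hx', h1, h2, h3]
    -- the difference
    have hd : x - x' = (x a - x' a) • (Pi.single a 1 - Pi.single b 1) +
        (x a - x' a + (x b - x' b)) • (Pi.single b 1 - Pi.single c 1) := by
      funext i
      simp only [Pi.sub_apply, Pi.add_apply, Pi.smul_apply, smul_eq_mul]
      by_cases hia : i = a
      · subst hia; simp [hab, hac]
      · by_cases hib : i = b
        · subst hib; simp [hab.symm, hbc]; ring
        · by_cases hic : i = c
          · subst hic
            rw [xa, xb, xc]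
            simp [hac.symm, hbc.symm]
            rw [hS]; ring
          · rw [xo i hia hib hic]
            simp [hia, hib, hic]
    have hsum' : ∑ i, x' i = 0 := by
      have h1 : ∑ i, (x - x') i = 0 := by
        rw [hd]
        simp [Finset.sum_add_distrib, ← Finset.mul_sum, Finset.sum_sub_distrib]
      simp only [Pi.sub_apply, Finset.sum_sub_distrib, hx] at h1
      linarith
    have hsq : x ⬝ᵥ x = x' ⬝ᵥ x' := by
      have h1 : x ⬝ᵥ x - x' ⬝ᵥ x' = (x - x') ⬝ᵥ (x + x') := by
        rw [sub_dotProduct, dotProduct_add, dotProduct_add, dotProduct_comm x' x]; ring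
      have h2 : (x - x') ⬝ᵥ (x + x') = 0 := by
        rw [hd, add_dotProduct, smul_dotProduct, smul_dotProduct, sub_dotProduct, sub_dotProduct,
          single_dotProduct, single_dotProduct, single_dotProduct]
        simp only [Pi.add_apply, smul_eq_mul, one_mul]
        rw [xa, xb, xc]
        have hS' : x a + x b + x c = S := hS.symm
        have hQ' : x a ^ 2 + x b ^ 2 + x c ^ 2 = Q := hQ.symm
        linear_combination hQ' + (- x c) * hS' - (1/2) * hδ2
      linarith
    apply Inv.transport (X' := comb w x')
    · rw [comb_dot hw, comb_dot hw, hx, hsum', hsq]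
    · rw [← comb_sub, hd, comb_add, comb_smul, comb_smul, comb_sub, comb_sub, comb_single,
        comb_single, comb_single]
      exact Inv.triple hM hw h hab hbc hac _ _
    · apply ih _ _ x' rfl hsum'
      rw [← hn]
      apply Finset.card_lt_card
      rw [Finset.ssubset_iff_of_subset]
      · refine ⟨c, by simpa using hc, by simp [xc]⟩
      · intro i hi
        simp only [Finset.mem_filter, Finset.mem_univ, true_and] at hi ⊢
        by_cases hia : i = a
        · subst hia; exact ha
        · by_cases hib : i = b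
          · subst hib; exact hb
          · by_cases hic : i = c
            · subst hic; exact hc
            · rwa [xo i hia hib hic] at hi
  by_cases hx0 : x = 0
  · have : comb w x = 0 := by rw [hx0]; unfold comb; simp
    rw [this, hh_zero]
    exact Inv.one M
  · have hne : ∃ i ∈ Finset.univ, x i ≠ 0 := by
      by_contra hcon
      push Not at hcon
      exact hx0 (funext fun i => hcon i (Finset.mem_univ i))
    obtain ⟨a, -, ha⟩ := Finset.exists_pos_of_sum_zero_of_exists_nonzero x hx hne
    obtain ⟨c, -, hc⟩ : ∃ c ∈ Finset.univ, x c < 0 := by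
      have := Finset.exists_pos_of_sum_zero_of_exists_nonzero (s := Finset.univ) (fun i => - x i)
        (by simp [hx]) (by obtain ⟨i, h1, h2⟩ := hne; exact ⟨i, h1, by simpa using h2⟩)
      obtain ⟨c, h1, h2⟩ := this
      exact ⟨c, h1, by linarith⟩
    have hac : a ≠ c := by rintro rfl; linarith
    by_cases hb : ∃ b, b ≠ a ∧ b ≠ c ∧ x b ≠ 0
    · obtain ⟨b, hba, hbc, hb⟩ := hb
      rcases lt_or_gt_of_ne hb with hb' | hb'
      · -- same sign as c : kill a
        exact step b c a hbc hac.symm hba hb hc.ne ha.ne'
          (mul_nonpos_of_nonneg_of_nonpos ha.le (by linarith))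
      · exact step a b c hba.symm hbc hac ha.ne' hb hc.ne
          (mul_nonpos_of_nonpos_of_nonneg hc.le (by linarith))
    · push Not at hb
      have hsupp : x = x a • (Pi.single a 1 - Pi.single c 1) := by
        have hxc : x c = - x a := by
          have h1 : ∑ i, x i = x a + x c := by
            rw [← Finset.sum_subset (Finset.subset_univ {a, c})]
            · rw [Finset.sum_pair hac]
            · intro i _ hi
              simp only [Finset.mem_insert, Finset.mem_singleton, not_or] at hi
              exact hb i hi.1 hi.2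
          linarith
        funext i
        by_cases hia : i = a
        · subst hia; simp [hac]
        · by_cases hic : i = c
          · subst hic; simp [hac.symm, hxc]
          · simp [hia, hic, hb i hia hic]
      rw [hsupp, comb_smul, comb_sub, comb_single, comb_single, hh_smul ha.ne']
      exact h a c hac

/-- Reflections in all directions spanned by an orthonormal family. -/
theorem Inv.ortho {M : G → Matrix N N ℝ} (hM : ∀ g, M g * (M g)ᵀ = 1) {w : α → N → ℝ}
    (hw : ∀ a b, w a ⬝ᵥ w b = (if a = b then 1 else 0))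
    (h1 : ∀ a, Inv M (hh (w a))) (h2 : ∀ a b, a ≠ b → Inv M (hh (w a - w b))) :
    ∀ (n : ℕ) (x : α → ℝ), (Finset.univ.filter fun a => x a ≠ 0).card = n →
      Inv M (hh (comb w x)) := by
  have hw0 : ∀ a b, w a ⬝ᵥ w b = (if a = b then 1 else 0) - 0 := by
    intro a b; rw [hw, sub_zero]
  intro n
  induction n using Nat.strong_induction_on with
  | _ n ih =>
  intro x hn
  by_cases hab : ∃ a b, a ≠ b ∧ x a ≠ 0 ∧ x b ≠ 0
  · obtain ⟨a, b, hab, ha, hb⟩ := hab
    set δ := Real.sqrt (x a ^ 2 + x b ^ 2) with hδ
    have hδ2 : δ * δ = x a ^ 2 + x b ^ 2 := Real.mul_self_sqrt (by positivity)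
    set x' : α → ℝ := fun i => if i = a then δ else if i = b then 0 else x i with hx'
    have xa : x' a = δ := by simp [hx']
    have xb : x' b = 0 := by simp [hx', hab.symm]
    have xo : ∀ i, i ≠ a → i ≠ b → x' i = x i := by
      intro i h1 h2; simp [hx', h1, h2]
    have hd : x - x' = (x a - x' a) • Pi.single a 1 + (x b - x' b) • Pi.single b 1 := by
      funext i
      simp only [Pi.sub_apply, Pi.add_apply, Pi.smul_apply, smul_eq_mul]
      by_cases hia : i = a
      · subst hia; simp [hab]
      · by_cases hib : i = b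
        · subst hib; simp [hab.symm]
        · rw [xo i hia hib]
          simp [hia, hib]
    have hsq : x ⬝ᵥ x = x' ⬝ᵥ x' := by
      have h1 : x ⬝ᵥ x - x' ⬝ᵥ x' = (x - x') ⬝ᵥ (x + x') := by
        rw [sub_dotProduct, dotProduct_add, dotProduct_add, dotProduct_comm x' x]; ring
      have h2 : (x - x') ⬝ᵥ (x + x') = 0 := by
        rw [hd, add_dotProduct, smul_dotProduct, smul_dotProduct, single_dotProduct,
          single_dotProduct]
        simp only [Pi.add_apply, smul_eq_mul, one_mul]
        rw [xa, xb]
        linear_combination (-1) * hδ2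
      linarith
    apply Inv.transport (X' := comb w x')
    · rw [comb_dot hw0, comb_dot hw0, hsq]; ring
    · rw [← comb_sub, hd, comb_add, comb_smul, comb_smul, comb_single, comb_single]
      have h2' : Real.sqrt 2 * Real.sqrt 2 = 2 := Real.mul_self_sqrt (by norm_num)
      have h20 : Real.sqrt 2 ≠ 0 := by positivity
      have hinv : (1 / Real.sqrt 2) * (1 / Real.sqrt 2) = 1 / 2 := by
        rw [div_mul_div_comm, h2', one_mul]
      have d1 : w a ⬝ᵥ w a = 1 := by rw [hw]; simp
      have d2 : (w a - w b) ⬝ᵥ (w a - w b) = 2 := by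
        rw [sub_dotProduct, dotProduct_sub, dotProduct_sub, hw, hw, hw, hw]
        simp [hab, hab.symm]; norm_num
      have d3 : w a ⬝ᵥ (w a - w b) = 1 := by
        rw [dotProduct_sub, hw, hw]
        simp [hab]
      have key := Inv.plane hM (v := w a)
        (w := (1 / Real.sqrt 2) • (w a - w b)) d1
        (by rw [smul_dotProduct, dotProduct_smul, d2]; simp only [smul_eq_mul]
            rw [← mul_assoc, hinv]; norm_num)
        (by right
            rw [dotProduct_smul, d3]; simp only [smul_eq_mul, mul_one]
            rw [pow_two, hinv])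
        (h1 a)
        (by rw [hh_smul (by positivity)]; exact h2 a b hab)
        ((x a - x' a) + (x b - x' b)) (- Real.sqrt 2 * (x b - x' b))
      have e : ((x a - x' a) + (x b - x' b)) • w a +
          (- Real.sqrt 2 * (x b - x' b)) • (1 / Real.sqrt 2) • (w a - w b) =
          (x a - x' a) • w a + (x b - x' b) • w b := by
        rw [smul_smul]
        have : - Real.sqrt 2 * (x b - x' b) * (1 / Real.sqrt 2) = -(x b - x' b) := by
          field_simp
        rw [this]
        ext i
        simp only [Pi.add_apply, Pi.smul_apply, Pi.sub_apply, smul_eq_mul]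
        ring
      rwa [e] at key
    · apply ih _ _ x' rfl
      rw [← hn]
      apply Finset.card_lt_card
      rw [Finset.ssubset_iff_of_subset]
      · refine ⟨b, by simpa using hb, by simp [xb]⟩
      · intro i hi
        simp only [Finset.mem_filter, Finset.mem_univ, true_and] at hi ⊢
        by_cases hia : i = a
        · subst hia; exact ha
        · by_cases hib : i = b
          · subst hib; exact hb
          · rwa [xo i hia hib] at hi
  · push Not at hab
    by_cases hx0 : x = 0
    · have : comb w x = 0 := by rw [hx0]; unfold comb; simp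
      rw [this, hh_zero]
      exact Inv.one M
    · obtain ⟨a, ha⟩ : ∃ a, x a ≠ 0 := by
        by_contra hcon
        push Not at hcon
        exact hx0 (funext hcon)
      have hsupp : x = x a • Pi.single a 1 := by
        funext i
        by_cases hia : i = a
        · subst hia; simp
        · simp [hia, hab a i (Ne.symm hia) ha]
      rw [hsupp, comb_smul, comb_single, hh_smul ha]
      exact h1 a

end Frame

end Pool.Agent.Ramanujan
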