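import Pool.Agent.Ramanujan.Plane

/-!
Invariance of averages of determinants under orthogonal matrices.
-/

open Matrix Function

namespace Pool.Agent.Ramanujan

variable {N : Type*} [Fintype N] [DecidableEq N]
variable {G : Type*} [Fintype G]

/-- The average over the family `M` of `det (Y + M g B (M g)ᵀ)` does not change if `B` is
conjugated by `R`. -/
def Inv (M : G → Matrix N N ℝ) (R : Matrix N N ℝ) : Prop :=
  ∀ Y B : Matrix N N ℝ, ∑ g, (Y + M g * (R * B * Rᵀ) * (M g)ᵀ).det =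
    ∑ g, (Y + M g * B * (M g)ᵀ).det

lemma Inv.one (M : G → Matrix N N ℝ) : Inv M 1 := by
  intro Y B; simp

lemma Inv.mul {M : G → Matrix N N ℝ} {R S : Matrix N N ℝ} (hR : Inv M R) (hS : Inv M S) :
    Inv M (R * S) := by
  intro Y B
  have h : R * S * B * (R * S)ᵀ = R * (S * B * Sᵀ) * Rᵀ := by
    rw [transpose_mul]; simp only [mul_assoc]
  rw [h, hR, hS]

lemma Inv.of_equiv {M : G → Matrix N N ℝ} {R : Matrix N N ℝ} (e : G ≃ G)
    (he : ∀ g, M (e g) = M g * R) : Inv M R := by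
  intro Y B
  rw [← Equiv.sum_comp e fun g => (Y + M g * B * (M g)ᵀ).det]
  apply Finset.sum_congr rfl
  intro g _
  rw [he, transpose_mul]
  simp only [mul_assoc]

lemma conj_det {A Y C : Matrix N N ℝ} (hA : A * Aᵀ = 1) :
    (Y + A * C * Aᵀ).det = (Aᵀ * Y * A + C).det := by
  have hA' : Aᵀ * A = 1 := mul_eq_one_comm.mp hA
  have h1 : Y + A * C * Aᵀ = A * (Aᵀ * Y * A + C) * Aᵀ := by
    rw [mul_add, add_mul]
    congr 1
    have : A * (Aᵀ * Y * A) * Aᵀ = (A * Aᵀ) * Y * (A * Aᵀ) := by simp only [mul_assoc]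
    rw [this, hA, one_mul, mul_one]
  have h2 : A.det * Aᵀ.det = 1 := by rw [← det_mul, hA, det_one]
  rw [h1, det_mul, det_mul]
  linear_combination (Aᵀ * Y * A + C).det * h2

lemma Inv.rot {M : G → Matrix N N ℝ} (hM : ∀ g, M g * (M g)ᵀ = 1) {p q : N → ℝ}
    (hp : p ⬝ᵥ p = 1) (hq : q ⬝ᵥ q = 1) (hpq : p ⬝ᵥ q = 0) {ζ : ℂ}
    (hζ : ζ * starRingEnd ℂ ζ = 1) {m : ℕ} (hm : 0 < m)
    (h1 : ∑ k ∈ Finset.range m, ζ ^ k = 0) (h2 : ∑ k ∈ Finset.range m, ζ ^ (2 * k) = 0)
    (h : Inv M (rot p q ζ)) {z : ℂ} (hz : z * starRingEnd ℂ z = 1) :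
    Inv M (rot p q z) := by
  have hpow : ∀ k : ℕ, Inv M (Pool.Agent.Ramanujan.rot p q (ζ ^ k)) := by
    intro k
    induction k with
    | zero => rw [pow_zero, rot_one]; exact Inv.one M
    | succ k ih =>
      rw [pow_succ, ← rot_mul hp hq hpq]
      exact ih.mul h
  intro Y B
  choose a₀ a₁ a₂ b₁ b₂ hab using fun g => rot_trig hp hq hpq ((M g)ᵀ * Y * M g) B
  -- the average over the `m` rotations
  have key : ∀ z : ℂ, z * starRingEnd ℂ z = 1 →
      (m : ℂ) * ((∑ g, (Y + M g * (Pool.Agent.Ramanujan.rot p q z * B *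
        (Pool.Agent.Ramanujan.rot p q z)ᵀ) * (M g)ᵀ).det : ℝ) : ℂ) = (m : ℂ) * ∑ g, a₀ g := by
    intro z hz
    have e1 : ∀ k : ℕ, ∑ g, (Y + M g * (Pool.Agent.Ramanujan.rot p q z * B *
        (Pool.Agent.Ramanujan.rot p q z)ᵀ) * (M g)ᵀ).det =
        ∑ g, ((M g)ᵀ * Y * M g + Pool.Agent.Ramanujan.rot p q (ζ ^ k * z) * B *
          (Pool.Agent.Ramanujan.rot p q (ζ ^ k * z))ᵀ).det := by
      intro k
      rw [← hpow k Y (Pool.Agent.Ramanujan.rot p q z * B * (Pool.Agent.Ramanujan.rot p q z)ᵀ)]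
      apply Finset.sum_congr rfl
      intro g _
      rw [conj_det (hM g)]
      congr 2
      rw [← rot_mul hp hq hpq, transpose_mul]
      simp only [mul_assoc]
    have hunit : ∀ k : ℕ, (ζ ^ k * z) * starRingEnd ℂ (ζ ^ k * z) = 1 := by
      intro k
      rw [map_mul, map_pow]
      have : ζ ^ k * z * (starRingEnd ℂ ζ ^ k * starRingEnd ℂ z) =
          (ζ * starRingEnd ℂ ζ) ^ k * (z * starRingEnd ℂ z) := by
        rw [mul_pow]; ring
      rw [this, hζ, hz]; simp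
    have e2 : (m : ℂ) * ((∑ g, (Y + M g * (Pool.Agent.Ramanujan.rot p q z * B *
        (Pool.Agent.Ramanujan.rot p q z)ᵀ) * (M g)ᵀ).det : ℝ) : ℂ) =
        ∑ k ∈ Finset.range m, ∑ g, (a₀ g + a₁ g * (ζ ^ k * z) + a₂ g * (ζ ^ k * z) ^ 2 +
          b₁ g * starRingEnd ℂ (ζ ^ k * z) + b₂ g * (starRingEnd ℂ (ζ ^ k * z)) ^ 2) := by
      have : ∀ k ∈ Finset.range m, ∑ g, (a₀ g + a₁ g * (ζ ^ k * z) + a₂ g * (ζ ^ k * z) ^ 2 +
          b₁ g * starRingEnd ℂ (ζ ^ k * z) + b₂ g * (starRingEnd ℂ (ζ ^ k * z)) ^ 2) =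
          ((∑ g, (Y + M g * (Pool.Agent.Ramanujan.rot p q z * B *
        (Pool.Agent.Ramanujan.rot p q z)ᵀ) * (M g)ᵀ).det : ℝ) : ℂ) := by
        intro k _
        rw [e1 k]
        push_cast
        apply Finset.sum_congr rfl
        intro g _
        rw [← hab g _ (hunit k)]
      rw [Finset.sum_congr rfl this, Finset.sum_const, Finset.card_range, nsmul_eq_mul]
    rw [e2, Finset.sum_comm, Finset.mul_sum]
    apply Finset.sum_congr rfl
    intro g _
    have h1' : ∑ k ∈ Finset.range m, (starRingEnd ℂ ζ) ^ k = 0 := by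
      have := congrArg (starRingEnd ℂ) h1
      simpa [map_sum] using this
    have h2' : ∑ k ∈ Finset.range m, (starRingEnd ℂ ζ) ^ (2 * k) = 0 := by
      have := congrArg (starRingEnd ℂ) h2
      simpa [map_sum] using this
    have e3 : ∀ k : ℕ, a₀ g + a₁ g * (ζ ^ k * z) + a₂ g * (ζ ^ k * z) ^ 2 +
          b₁ g * starRingEnd ℂ (ζ ^ k * z) + b₂ g * (starRingEnd ℂ (ζ ^ k * z)) ^ 2 =
          a₀ g + (a₁ g * z) * ζ ^ k + (a₂ g * z ^ 2) * ζ ^ (2 * k) +
          (b₁ g * starRingEnd ℂ z) * (starRingEnd ℂ ζ) ^ k +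
          (b₂ g * (starRingEnd ℂ z) ^ 2) * (starRingEnd ℂ ζ) ^ (2 * k) := by
      intro k
      rw [map_mul, map_pow]
      ring
    rw [Finset.sum_congr rfl fun k _ => e3 k]
    simp only [Finset.sum_add_distrib, ← Finset.mul_sum, h1, h2, h1', h2', mul_zero, add_zero,
      Finset.sum_const, Finset.card_range, nsmul_eq_mul]
  have hm' : (m : ℂ) ≠ 0 := by exact_mod_cast hm.ne'
  have k1 := mul_left_cancel₀ hm' (key z hz)
  have k2 := mul_left_cancel₀ hm' (key 1 (by simp))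
  rw [rot_one] at k2
  simp only [one_mul, transpose_one, mul_one] at k2
  rw [← k2] at k1
  exact_mod_cast k1

/-- Householder reflection. -/
noncomputable def hh (w : N → ℝ) : Matrix N N ℝ := 1 - (2 / (w ⬝ᵥ w)) • vecMulVec w w

lemma hh_zero : hh (0 : N → ℝ) = 1 := by
  unfold hh; simp

lemma hh_smul {c : ℝ} (hc : c ≠ 0) (w : N → ℝ) : hh (c • w) = hh w := by
  unfold hh
  congr 1
  rw [smul_vecMulVec, vecMulVec_smul, smul_dotProduct, dotProduct_smul, smul_smul, smul_smul]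
  congr 1
  simp only [smul_eq_mul]
  by_cases h : w ⬝ᵥ w = 0
  · rw [h]; simp
  · field_simp

lemma hh_symm (w : N → ℝ) : (hh w)ᵀ = hh w := by
  unfold hh
  rw [transpose_sub, transpose_one, transpose_smul, isSymm_vecMulVec_self]

lemma hh_eq_refl {w : N → ℝ} (hw : w ⬝ᵥ w = 2) : hh w = refl w := by
  unfold hh refl
  rw [hw]; norm_num

lemma hh_mul_self (w : N → ℝ) : hh w * hh w = 1 := by
  by_cases h : w ⬝ᵥ w = 0
  · have : w = 0 := dotProduct_self_eq_zero.mp h
    rw [this, hh_zero, one_mul]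
  · unfold hh
    rw [mul_sub, sub_mul, sub_mul, smul_mul_smul_comm, vecMulVec_mul_vecMulVec, vecMulVec_smul,
      smul_smul]
    have : 2 / (w ⬝ᵥ w) * (2 / (w ⬝ᵥ w)) * (w ⬝ᵥ w) = 2 * (2 / (w ⬝ᵥ w)) := by
      field_simp
    rw [this]
    simp only [one_mul, mul_one]
    rw [mul_smul, two_smul]
    abel

lemma hh_conj {R : Matrix N N ℝ} (hR : R * Rᵀ = 1) (w : N → ℝ) :
    hh (R *ᵥ w) = R * hh w * Rᵀ := by
  have hR' : Rᵀ * R = 1 := mul_eq_one_comm.mp hR
  unfold hh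
  have h1 : (R *ᵥ w) ⬝ᵥ (R *ᵥ w) = w ⬝ᵥ w := by
    rw [dotProduct_mulVec, ← mulVec_transpose, mulVec_mulVec, hR', one_mulVec]
  rw [h1, mul_sub, sub_mul, mul_one, hR, mul_smul_comm, smul_mul_assoc, mul_vecMulVec,
    vecMulVec_mul]
  congr 3
  rw [← mulVec_transpose, transpose_transpose]

lemma Inv.hh_conj {M : G → Matrix N N ℝ} {R : Matrix N N ℝ} (hR : R * Rᵀ = 1) (h : Inv M R)
    (h' : Inv M Rᵀ) {w : N → ℝ} (hw : Inv M (hh w)) : Inv M (hh (R *ᵥ w)) := by
  rw [Pool.Agent.Ramanujan.hh_conj hR]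
  exact (h.mul hw).mul h'

lemma Inv.plane' {M : G → Matrix N N ℝ} {p q : N → ℝ}
    (hp : p ⬝ᵥ p = 1) (hq : q ⬝ᵥ q = 1) (hpq : p ⬝ᵥ q = 0)
    (h : ∀ z : ℂ, z * starRingEnd ℂ z = 1 → Inv M (Pool.Agent.Ramanujan.rot p q z))
    (h0 : Inv M (hh p)) (x y : ℝ) : Inv M (hh (x • p + y • q)) := by
  by_cases hxy : x ^ 2 + y ^ 2 = 0
  · have hx : x = 0 := by nlinarith [sq_nonneg x, sq_nonneg y]
    have hy : y = 0 := by nlinarith [sq_nonneg x, sq_nonneg y]
    rw [hx, hy, zero_smul, zero_smul, add_zero, hh_zero]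
    exact Inv.one M
  · have hpos : 0 < x ^ 2 + y ^ 2 := lt_of_le_of_ne (by positivity) (Ne.symm hxy)
    set r := Real.sqrt (x ^ 2 + y ^ 2) with hr
    have hr0 : 0 < r := Real.sqrt_pos.mpr hpos
    have hr2 : r * r = x ^ 2 + y ^ 2 := Real.mul_self_sqrt hpos.le
    set z : ℂ := ⟨x / r, y / r⟩ with hz
    have hz1 : z * starRingEnd ℂ z = 1 := by
      rw [Complex.mul_conj]
      have : Complex.normSq z = 1 := by
        rw [Complex.normSq_apply, hz]
        field_simp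
        linarith
      rw [this]; simp
    have hqp : q ⬝ᵥ p = 0 := by rw [dotProduct_comm]; exact hpq
    have hrot : Pool.Agent.Ramanujan.rot p q z *ᵥ p = (1 / r) • (x • p + y • q) := by
      unfold Pool.Agent.Ramanujan.rot
      rw [add_mulVec, add_mulVec, smul_mulVec, smul_mulVec, add_mulVec, sub_mulVec, one_mulVec]
      simp only [vecMulVec_mulVec, hp, hqp, hz]
      ext i
      simp
      ring
    have h1 := (h z hz1).hh_conj (rot_orth hp hq hpq hz1)
      (by rw [rot_transpose]; exact h _ (by rw [Complex.conj_conj, mul_comm]; exact hz1)) h0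
    rw [hrot, hh_smul (by positivity)] at h1
    exact h1

/-- The plane lemma: two unit vectors at angle `60°`, `120°`, `45°` or `135°`. -/
lemma Inv.plane {M : G → Matrix N N ℝ} (hM : ∀ g, M g * (M g)ᵀ = 1) {v w : N → ℝ}
    (hv : v ⬝ᵥ v = 1) (hw : w ⬝ᵥ w = 1) (hvw : (v ⬝ᵥ w) ^ 2 = 1 / 4 ∨ (v ⬝ᵥ w) ^ 2 = 1 / 2)
    (h1 : Inv M (hh v)) (h2 : Inv M (hh w)) (x y : ℝ) : Inv M (hh (x • v + y • w)) := by
  set γ := v ⬝ᵥ w with hγ
  have hγ1 : 0 < 1 - γ ^ 2 := by rcases hvw with h | h <;> rw [h] <;> norm_num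
  set σ := Real.sqrt (1 - γ ^ 2) with hσ
  have hσ0 : 0 < σ := Real.sqrt_pos.mpr hγ1
  have hσ2 : σ * σ = 1 - γ ^ 2 := Real.mul_self_sqrt hγ1.le
  set q : N → ℝ := (1 / σ) • (v - γ • w) with hq
  have hwv : w ⬝ᵥ v = γ := by rw [dotProduct_comm]
  have hqq : q ⬝ᵥ q = 1 := by
    rw [hq, smul_dotProduct, dotProduct_smul, sub_dotProduct, dotProduct_sub, dotProduct_sub,
      smul_dotProduct, smul_dotProduct, dotProduct_smul, dotProduct_smul, hv, hw, hwv, ← hγ]
    simp only [smul_eq_mul]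
    field_simp
    linarith
  have hwq : w ⬝ᵥ q = 0 := by
    rw [hq, dotProduct_smul, dotProduct_sub, dotProduct_smul, hw, hwv]
    simp
  have hvdec : v = γ • w + σ • q := by
    rw [hq, smul_smul, mul_one_div_cancel hσ0.ne', one_smul]
    abel
  set ζ : ℂ := ⟨2 * γ ^ 2 - 1, 2 * γ * σ⟩ with hζ
  have hζu : ζ * starRingEnd ℂ ζ = 1 := by
    rw [Complex.mul_conj]
    have : Complex.normSq ζ = 1 := by
      rw [Complex.normSq_apply, hζ]
      linear_combination (4 * γ ^ 2) * hσ2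
    rw [this]; simp
  have hrot : hh v * hh w = Pool.Agent.Ramanujan.rot w q ζ := by
    unfold hh Pool.Agent.Ramanujan.rot
    rw [hv, hw]
    simp only [hζ]
    rw [sub_mul, one_mul, mul_sub, mul_one, smul_mul_smul_comm, vecMulVec_mul_vecMulVec, ← hγ]
    ext i j
    have hvi : v i = γ * w i + σ * q i := by
      have := congrFun hvdec i
      simpa using this
    have hvj : v j = γ * w j + σ * q j := by
      have := congrFun hvdec j
      simpa using this
    simp only [Matrix.add_apply, Matrix.sub_apply, Matrix.smul_apply, vecMulVec_apply, smul_eq_mul,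
      Pi.smul_apply, hvi, hvj]
    linear_combination (-2 * q i * q j) * hσ2
  have hInvζ : Inv M (Pool.Agent.Ramanujan.rot w q ζ) := by
    rw [← hrot]; exact h1.mul h2
  have hall : ∀ z : ℂ, z * starRingEnd ℂ z = 1 → Inv M (Pool.Agent.Ramanujan.rot w q z) := by
    intro z hz
    rcases hvw with h | h
    · have hzz : 1 + ζ + ζ ^ 2 = 0 := by
        apply Complex.ext
        · simp [hζ, pow_two]
          linear_combination (-4 * γ ^ 2) * hσ2 + (8 * γ ^ 2 - 4) * h
        · simp [hζ, pow_two]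
          linear_combination (8 * γ * σ) * h
      refine Inv.rot hM hw hqq hwq hζu (m := 3) (by norm_num) ?_ ?_ hInvζ hz
      · simp [Finset.sum_range_succ]
        linear_combination hzz
      · simp [Finset.sum_range_succ]
        linear_combination (ζ ^ 2 - ζ + 1) * hzz
    · have hzz : ζ ^ 2 = -1 := by
        apply Complex.ext
        · simp [hζ, pow_two]
          linear_combination (-4 * γ ^ 2) * hσ2 + (8 * γ ^ 2 - 4) * h
        · simp [hζ, pow_two]
          linear_combination (8 * γ * σ) * h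
      refine Inv.rot hM hw hqq hwq hζu (m := 4) (by norm_num) ?_ ?_ hInvζ hz
      · simp [Finset.sum_range_succ]
        linear_combination (1 + ζ) * hzz
      · simp [Finset.sum_range_succ]
        linear_combination (1 + ζ ^ 4) * hzz
  have h3 := Inv.plane' hw hqq hwq hall h2 (x * γ + y) (x * σ)
  have e : x • v + y • w = (x * γ + y) • w + (x * σ) • q := by
    ext i
    have hvi : v i = γ * w i + σ * q i := by
      have := congrFun hvdec i
      simpa using this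
    simp only [Pi.add_apply, Pi.smul_apply, smul_eq_mul, hvi]
    ring
  rw [e]
  exact h3

end Pool.Agent.Ramanujan
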