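import Pool.Agent.Ramanujan.Std

/-!
Iterated averages over all slots.
-/

open Matrix Function Equiv Polynomial

namespace Pool.Agent.Ramanujan

variable {ι N : Type*} [DecidableEq ι] [Fintype N] [DecidableEq N]
variable {M : Type*} [AddCommGroup M] [Module ℝ M]

lemma act_comm {G G' : Type*} (R : G → Matrix N N ℝ) (R' : G' → Matrix N N ℝ) {i j : ι}
    (hij : i ≠ j) (g : G) (g' : G') (X : ι → Matrix N N ℝ) :
    act R i g (act R' j g' X) = act R' j g' (act R i g X) := by
  unfold act
  rw [update_of_ne hij, update_of_ne hij.symm, update_comm hij]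

lemma avgOn_comm {G G' : Type*} (R : G → Matrix N N ℝ) (R' : G' → Matrix N N ℝ) {i j : ι}
    (hij : i ≠ j) (S : Finset G) (T : Finset G') (F : (ι → Matrix N N ℝ) → M) :
    avgOn R i S (avgOn R' j T F) = avgOn R' j T (avgOn R i S F) := by
  funext X
  unfold avgOn
  rw [← Finset.smul_sum, ← Finset.smul_sum, Finset.sum_comm, smul_comm]
  congr 2
  apply Finset.sum_congr rfl
  intro g' _
  apply Finset.sum_congr rfl
  intro g _
  rw [act_comm R R' hij]

/-- Iterated average over the slots in the list `l`. -/
noncomputable def iter {G : Type*} [Fintype G] (R : ι → G → Matrix N N ℝ) (l : List ι)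
    (F : (ι → Matrix N N ℝ) → M) : (ι → Matrix N N ℝ) → M :=
  l.foldr (fun j Ψ => avgOn (R j) j Finset.univ Ψ) F

lemma iter_cons {G : Type*} [Fintype G] (R : ι → G → Matrix N N ℝ) (j : ι) (l : List ι)
    (F : (ι → Matrix N N ℝ) → M) : iter R (j :: l) F = avgOn (R j) j Finset.univ (iter R l F) := rfl

lemma iter_nil {G : Type*} [Fintype G] (R : ι → G → Matrix N N ℝ)
    (F : (ι → Matrix N N ℝ) → M) : iter R [] F = F := rfl

lemma avgOn_iter {G G' : Type*} [Fintype G] (R : ι → G → Matrix N N ℝ)
    (R' : G' → Matrix N N ℝ) (T : Finset G') {j : ι} {l : List ι} (hj : j ∉ l)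
    (F : (ι → Matrix N N ℝ) → M) :
    avgOn R' j T (iter R l F) = iter R l (avgOn R' j T F) := by
  induction l with
  | nil => rfl
  | cons i l ih =>
    rw [List.mem_cons, not_or] at hj
    rw [iter_cons, iter_cons, avgOn_comm R' (R i) hj.1, ih hj.2]

lemma avgOn_pre {G G' : Type*} (R : G → Matrix N N ℝ) (R' : G' → Matrix N N ℝ) {i j : ι}
    (hij : i ≠ j) (S : Finset G) (g' : G') (F : (ι → Matrix N N ℝ) → M) :
    (fun X => avgOn R i S F (act R' j g' X)) = avgOn R i S (fun X => F (act R' j g' X)) := by
  funext X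
  unfold avgOn
  congr 1
  apply Finset.sum_congr rfl
  intro g _
  rw [act_comm R R' hij]

lemma iter_pre {G G' : Type*} [Fintype G] (R : ι → G → Matrix N N ℝ)
    (R' : G' → Matrix N N ℝ) (g' : G') {j : ι} {l : List ι} (hj : j ∉ l)
    (F : (ι → Matrix N N ℝ) → M) :
    (fun X => iter R l F (act R' j g' X)) = iter R l (fun X => F (act R' j g' X)) := by
  induction l with
  | nil => rfl
  | cons i l ih =>
    rw [List.mem_cons, not_or] at hj
    rw [iter_cons, iter_cons, avgOn_pre (R i) R' (Ne.symm hj.1), ih hj.2]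

/-- The two averages agree slot by slot, hence the iterated averages agree. -/
lemma iter_eq {G G' : Type*} [Fintype G] [Fintype G'] (R : ι → G → Matrix N N ℝ)
    (R' : ι → G' → Matrix N N ℝ) {l : List ι} (hl : l.Nodup) (F : (ι → Matrix N N ℝ) → M)
    (h : ∀ j ∈ l, avgOn (R j) j Finset.univ F = avgOn (R' j) j Finset.univ F) :
    iter R l F = iter R' l F := by
  induction l with
  | nil => rfl
  | cons j l ih =>
    rw [List.nodup_cons] at hl
    rw [iter_cons, iter_cons, ih hl.2 fun i hi => h i (List.mem_cons_of_mem _ hi),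
      avgOn_iter R' (R j) _ hl.1, avgOn_iter R' (R' j) _ hl.1, h j List.mem_cons_self]

/-- Invariance in one slot. -/
lemma iter_inv {G : Type*} [Fintype G] (R : ι → G → Matrix N N ℝ) {l : List ι} (hl : l.Nodup)
    (F : (ι → Matrix N N ℝ) → M) {j : ι} (hj : j ∈ l) (A : Matrix N N ℝ)
    (h : ∀ X, avgOn (R j) j Finset.univ F (update X j (A * X j * Aᵀ)) =
      avgOn (R j) j Finset.univ F X) (X : ι → Matrix N N ℝ) :
    iter R l F (update X j (A * X j * Aᵀ)) = iter R l F X := by
  have key : (fun X => iter R l F (act (fun _ : Unit => A) j () X)) = iter R l F := by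
    induction l with
    | nil => simp at hj
    | cons i l ih =>
      rw [List.nodup_cons] at hl
      by_cases hij : i = j
      · subst hij
        rw [iter_cons, avgOn_iter R (R i) _ hl.1, iter_pre R _ _ hl.1]
        congr 1
        funext X
        exact h X
      · rw [iter_cons, avgOn_pre (R i) _ hij]
        congr 1
        refine ih hl.2 ?_
        rcases List.mem_cons.mp hj with h1 | h1
        · exact absurd h1.symm hij
        · exact h1
  exact congrFun key X

/-- Evaluation commutes with the iterated average. -/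
lemma iter_eval {G : Type*} [Fintype G] (R : ι → G → Matrix N N ℝ) (l : List ι)
    (F : (ι → Matrix N N ℝ) → ℝ[X]) (z : ℝ) (X : ι → Matrix N N ℝ) :
    (iter R l F X).eval z = iter R l (fun Y => (F Y).eval z) X := by
  induction l generalizing X with
  | nil => rfl
  | cons j l ih =>
    rw [iter_cons, iter_cons]
    unfold avgOn
    rw [eval_smul, eval_finsetSum]
    congr 1
    exact Finset.sum_congr rfl fun g _ => ih _

section Sum

variable [Fintype ι]

lemma sum_update {G : Type*} [Fintype G] [DecidableEq G] (j : ι) (F : (ι → G) → M) :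
    ∑ h : G, ∑ g : ι → G, F (update g j h) = (Fintype.card G : ℝ) • ∑ g : ι → G, F g := by
  have e : ∑ h : G, ∑ g : ι → G, F (update g j h) = ∑ p : G × (ι → G), F (update p.2 j p.1) := by
    rw [Fintype.sum_prod_type]
  set eq : G × (ι → G) ≃ G × (ι → G) :=
    { toFun := fun p => (p.2 j, update p.2 j p.1)
      invFun := fun p => (p.2 j, update p.2 j p.1)
      left_inv := by rintro ⟨h, g⟩; simp
      right_inv := by rintro ⟨h, g⟩; simp } with heq
  rw [e]
  have e2 : ∑ p : G × (ι → G), F (update p.2 j p.1) = ∑ p : G × (ι → G), F ((eq p).2) := rfl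
  rw [e2, Equiv.sum_comp eq (fun p => F p.2), Fintype.sum_prod_type]
  simp only
  rw [Finset.sum_const, Finset.card_univ, Nat.cast_smul_eq_nsmul]

/-- Simultaneous action on the slots of a list. -/
def actL {G : Type*} (R : ι → G → Matrix N N ℝ) (l : List ι) (g : ι → G)
    (X : ι → Matrix N N ℝ) : ι → Matrix N N ℝ :=
  fun j => if j ∈ l then R j (g j) * X j * (R j (g j))ᵀ else X j

/-- The iterated average as an average over functions. -/
lemma iter_eq_sum {G : Type*} [Fintype G] [DecidableEq G] [Nonempty G] (R : ι → G → Matrix N N ℝ)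
    {l : List ι} (hl : l.Nodup) (F : (ι → Matrix N N ℝ) → M) (X : ι → Matrix N N ℝ) :
    iter R l F X = ((Fintype.card (ι → G) : ℝ)⁻¹) • ∑ g : ι → G, F (actL R l g X) := by
  induction l generalizing X with
  | nil =>
    rw [iter_nil]
    have : ∀ g : ι → G, actL R [] g X = X := by
      intro g; funext j; simp [actL]
    rw [Finset.sum_congr rfl fun g _ => by rw [this g], Finset.sum_const, Finset.card_univ,
      ← Nat.cast_smul_eq_nsmul ℝ, smul_smul, inv_mul_cancel₀, one_smul]
    have : 0 < Fintype.card (ι → G) := Fintype.card_pos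
    exact_mod_cast this.ne'
  | cons j l ih =>
    rw [List.nodup_cons] at hl
    rw [iter_cons]
    unfold avgOn
    rw [Finset.sum_congr rfl fun h _ => ih hl.2 (act (R j) j h X), ← Finset.smul_sum]
    have e : ∀ (h : G) (g : ι → G), actL R l g (act (R j) j h X) =
        actL R (j :: l) (update g j h) X := by
      intro h g
      funext i
      unfold actL act
      by_cases hij : i = j
      · subst hij
        simp [hl.1]
      · simp [hij]
    have e2 : ∑ h : G, ∑ g : ι → G, F (actL R l g (act (R j) j h X)) =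
        ∑ h : G, ∑ g : ι → G, F (actL R (j :: l) (update g j h) X) :=
      Finset.sum_congr rfl fun h _ => Finset.sum_congr rfl fun g _ => by rw [e]
    rw [e2, sum_update j (fun g => F (actL R (j :: l) g X)), smul_comm, smul_smul, smul_smul]
    have hG : (Fintype.card G : ℝ) ≠ 0 := by
      have : 0 < Fintype.card G := Fintype.card_pos
      exact_mod_cast this.ne'
    congr 1
    rw [Finset.card_univ]
    field_simp

end Sum

/-- Selection for iterated averages. -/
lemma iter_select {α : Type*} [Fintype α] [DecidableEq α] [Fintype ι]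
    (ρ : ι → (Perm α →* Matrix N N ℝ))
    (hρ : ∀ j (a b : α), a ≠ b → ∃ u : N → ℝ, u ⬝ᵥ u = 2 ∧ ρ j (Equiv.swap a b) = refl u)
    (l : List ι) {Φ : (ι → Matrix N N ℝ) → ℝ[X]} (hΦ : Good Φ) :
    Good (iter (fun j g => ρ j g) l Φ) ∧ ∀ X, SymFam X → ∀ x₀,
      PosFrom (iter (fun j g => ρ j g) l Φ X) x₀ →
      ∃ g : ι → Perm α, PosFrom (Φ fun j => ρ j (g j) * X j * (ρ j (g j))ᵀ) x₀ := by
  induction l with
  | nil =>
    refine ⟨hΦ, fun X _ x₀ h => ⟨fun _ => 1, ?_⟩⟩
    have e : (fun j => ρ j 1 * X j * (ρ j 1)ᵀ) = X := by funext j; simp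
    rw [e]; exact h
  | cons j l ih =>
    obtain ⟨h1, h2⟩ := ih
    obtain ⟨h3, h4⟩ := selOp_avg (ρ j) j (hρ j) _ h1
    refine ⟨h3, fun X hX x₀ hp => ?_⟩
    obtain ⟨h, hh⟩ := h4 X hX x₀ hp
    obtain ⟨g, hg⟩ := h2 _ (act_symm _ j h hX) x₀ hh
    refine ⟨update g j (g j * h), ?_⟩
    have e : (fun i => ρ i (g i) * act (ρ j) j h X i * (ρ i (g i))ᵀ) =
        fun i => ρ i (update g j (g j * h) i) * X i * (ρ i (update g j (g j * h) i))ᵀ := by
      funext i
      unfold act
      by_cases hij : i = j
      · subst hij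
        simp only [update_self, map_mul, transpose_mul]
        simp only [mul_assoc]
      · simp [hij]
    rwa [e] at hg

/-- Monotonicity in all slots. -/
lemma Good.mono_all [Fintype ι] {Φ : (ι → Matrix N N ℝ) → ℝ[X]} (hΦ : Good Φ)
    {X : ι → Matrix N N ℝ} (hX : SymFam X) (v : ι → N → ℝ) (t : ι → ℝ) (ht : ∀ j, 0 ≤ t j)
    {x₀ : ℝ} (h : PosFrom (Φ X) x₀) :
    PosFrom (Φ fun j => X j + t j • vecMulVec (v j) (v j)) x₀ := by
  have key : ∀ T : Finset ι, PosFrom (Φ fun j => if j ∈ T then
      X j + t j • vecMulVec (v j) (v j) else X j) x₀ := by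
    intro T
    induction T using Finset.induction_on with
    | empty => simpa using h
    | insert a T ha ih =>
      have hs : SymFam fun j => if j ∈ T then X j + t j • vecMulVec (v j) (v j) else X j := by
        intro j
        by_cases hj : j ∈ T
        · simp only [hj, if_true]
          exact (hX j).add ((isSymm_vecMulVec_self _).smul _)
        · simp only [hj, if_false]; exact hX j
      have h1 := hΦ.mono hs a (v a) (ht a) ih
      convert h1 using 2
      funext j
      by_cases hja : j = a
      · subst hja; simp [ha]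
      · simp [hja]
  have := key Finset.univ
  simpa using this

/-- Invariance in all slots. -/
lemma iter_inv_all {G : Type*} [Fintype G] [Fintype ι] (R : ι → G → Matrix N N ℝ)
    (F : (ι → Matrix N N ℝ) → M) (A : ι → Matrix N N ℝ)
    (h : ∀ j X, avgOn (R j) j Finset.univ F (update X j (A j * X j * (A j)ᵀ)) =
      avgOn (R j) j Finset.univ F X) (X : ι → Matrix N N ℝ) :
    iter R Finset.univ.toList F (fun j => A j * X j * (A j)ᵀ) =
      iter R Finset.univ.toList F X := by
  have key : ∀ T : Finset ι, iter R Finset.univ.toList F (fun j => if j ∈ T then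
      A j * X j * (A j)ᵀ else X j) = iter R Finset.univ.toList F X := by
    intro T
    induction T using Finset.induction_on with
    | empty => simp
    | insert a T ha ih =>
      rw [← ih]
      have h1 := iter_inv R (Finset.nodup_toList Finset.univ) F
        (Finset.mem_toList.mpr (Finset.mem_univ a)) (A a) (h a)
        (fun j => if j ∈ T then A j * X j * (A j)ᵀ else X j)
      rw [← h1]
      congr 1
      funext j
      by_cases hja : j = a
      · subst hja; simp [ha]
      · simp [hja]
  have := key Finset.univ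
  simpa using this

end Pool.Agent.Ramanujan
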