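import Pool.Agent.Ramanujan.Std

/-!
The cyclic permutation on the standard representation is dominated by a matrix which is
orthogonally similar to the adjacency matrix of a path.
-/

open Matrix Function Equiv

namespace Pool.Agent.Ramanujan

/-- Adjacency matrix of the path with `d` vertices. -/
def pathAdj (d : ℕ) : Matrix (Fin d) (Fin d) ℝ := fun i j =>
  (if (i : ℕ) + 1 = j then 1 else 0) + (if (j : ℕ) + 1 = i then 1 else 0)

/-- Incidence matrix of the path with `d + 1` vertices. -/
def inc (d : ℕ) : Matrix (Fin (d + 1)) (Fin d) ℝ := fun i j =>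
  (if i = j.castSucc then 1 else 0) - (if i = j.succ then 1 else 0)

lemma inc_tmul (d : ℕ) : (inc d)ᵀ * inc d = (2 : ℝ) • 1 - pathAdj d := by
  ext i j
  rw [Matrix.mul_apply]
  have g1 : ∑ k : Fin (d + 1), (if k = i.castSucc then (1 : ℝ) else 0) *
      (if k = j.castSucc then (1 : ℝ) else 0) = if i = j then 1 else 0 := by
    simp only [ite_mul, one_mul, zero_mul, Finset.sum_ite_eq', Finset.mem_univ, if_true]
    congr 1
    rw [eq_iff_iff, Fin.castSucc_inj]
  have g2 : ∑ k : Fin (d + 1), (if k = i.succ then (1 : ℝ) else 0) *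
      (if k = j.succ then (1 : ℝ) else 0) = if i = j then 1 else 0 := by
    simp only [ite_mul, one_mul, zero_mul, Finset.sum_ite_eq', Finset.mem_univ, if_true]
    congr 1
    rw [eq_iff_iff, Fin.succ_inj]
  have g3 : ∑ k : Fin (d + 1), (if k = i.castSucc then (1 : ℝ) else 0) *
      (if k = j.succ then (1 : ℝ) else 0) = if (j : ℕ) + 1 = i then 1 else 0 := by
    simp only [ite_mul, one_mul, zero_mul, Finset.sum_ite_eq', Finset.mem_univ, if_true]
    congr 1
    rw [eq_iff_iff, Fin.ext_iff]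
    simp [eq_comm]
  have g4 : ∑ k : Fin (d + 1), (if k = i.succ then (1 : ℝ) else 0) *
      (if k = j.castSucc then (1 : ℝ) else 0) = if (i : ℕ) + 1 = j then 1 else 0 := by
    simp only [ite_mul, one_mul, zero_mul, Finset.sum_ite_eq', Finset.mem_univ, if_true]
    congr 1
    rw [eq_iff_iff, Fin.ext_iff]
    simp
  have e : ∀ k : Fin (d + 1), (inc d)ᵀ i k * inc d k j =
      (if k = i.castSucc then (1 : ℝ) else 0) * (if k = j.castSucc then (1 : ℝ) else 0) -
      (if k = i.castSucc then (1 : ℝ) else 0) * (if k = j.succ then (1 : ℝ) else 0) -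
      (if k = i.succ then (1 : ℝ) else 0) * (if k = j.castSucc then (1 : ℝ) else 0) +
      (if k = i.succ then (1 : ℝ) else 0) * (if k = j.succ then (1 : ℝ) else 0) := by
    intro k
    simp only [transpose_apply, inc]
    ring
  rw [Finset.sum_congr rfl fun k _ => e k, Finset.sum_add_distrib, Finset.sum_sub_distrib,
    Finset.sum_sub_distrib, g1, g2, g3, g4]
  simp only [Matrix.sub_apply, Matrix.smul_apply, Matrix.one_apply, pathAdj, smul_eq_mul]
  ring

/-- The all one row annihilates the incidence matrix. -/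
lemma ones_inc (d : ℕ) : (Matrix.of (fun _ _ => (1 : ℝ)) : Matrix (Fin (d + 1)) (Fin (d + 1)) ℝ) *
    inc d = 0 := by
  ext i j
  rw [Matrix.mul_apply]
  simp [inc, Finset.sum_sub_distrib]

lemma cycle_eq (d : ℕ) : pm (finRotate (d + 1)) + (pm (finRotate (d + 1)))ᵀ +
    vecMulVec (Pi.single 0 1 - Pi.single (Fin.last d) 1)
      (Pi.single 0 1 - Pi.single (Fin.last d) 1) = (2 : ℝ) • 1 - inc d * (inc d)ᵀ := by
  set c := finRotate (d + 1) with hc
  have h1 : ∑ i : Fin (d + 1), vecMulVec (Pi.single i (1 : ℝ) - Pi.single (c i) 1)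
      (Pi.single i 1 - Pi.single (c i) 1 : Fin (d + 1) → ℝ) =
      (2 : ℝ) • (1 : Matrix (Fin (d + 1)) (Fin (d + 1)) ℝ) - pm c - (pm c)ᵀ := by
    ext a b
    rw [Matrix.sum_apply]
    have g1 : ∑ x : Fin (d + 1), (if a = x then (1 : ℝ) else 0) * (if b = x then (1 : ℝ) else 0) =
        if a = b then 1 else 0 := by
      simp only [ite_mul, one_mul, zero_mul, Finset.sum_ite_eq, Finset.mem_univ, if_true]
      simp [eq_comm]
    have g2 : ∑ x : Fin (d + 1), (if a = c x then (1 : ℝ) else 0) * (if b = x then (1 : ℝ) else 0) =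
        if a = c b then 1 else 0 := by
      have : ∀ x : Fin (d + 1), (if a = c x then (1 : ℝ) else 0) * (if b = x then (1 : ℝ) else 0) =
          (if b = x then (1 : ℝ) else 0) * (if a = c x then (1 : ℝ) else 0) := fun x => mul_comm _ _
      rw [Finset.sum_congr rfl fun x _ => this x]
      simp only [ite_mul, one_mul, zero_mul, Finset.sum_ite_eq, Finset.mem_univ, if_true]
    have g3 : ∑ x : Fin (d + 1), (if a = x then (1 : ℝ) else 0) * (if b = c x then (1 : ℝ) else 0) =
        if b = c a then 1 else 0 := by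
      simp only [ite_mul, one_mul, zero_mul, Finset.sum_ite_eq, Finset.mem_univ, if_true]
    have g4 : ∑ x : Fin (d + 1), (if a = c x then (1 : ℝ) else 0) *
        (if b = c x then (1 : ℝ) else 0) = if a = b then 1 else 0 := by
      rw [Equiv.sum_comp c (fun y => (if a = y then (1 : ℝ) else 0) * (if b = y then (1 : ℝ) else 0))]
      exact g1
    have e : ∀ x : Fin (d + 1), vecMulVec (Pi.single x (1 : ℝ) - Pi.single (c x) 1)
        (Pi.single x 1 - Pi.single (c x) 1 : Fin (d + 1) → ℝ) a b =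
        (if a = x then (1 : ℝ) else 0) * (if b = x then (1 : ℝ) else 0) -
        (if a = x then (1 : ℝ) else 0) * (if b = c x then (1 : ℝ) else 0) -
        (if a = c x then (1 : ℝ) else 0) * (if b = x then (1 : ℝ) else 0) +
        (if a = c x then (1 : ℝ) else 0) * (if b = c x then (1 : ℝ) else 0) := by
      intro x
      simp only [vecMulVec_apply, Pi.sub_apply, Pi.single_apply]
      ring
    rw [Finset.sum_congr rfl fun k _ => e k, Finset.sum_add_distrib, Finset.sum_sub_distrib,
      Finset.sum_sub_distrib, g1, g2, g3, g4]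
    simp only [Matrix.sub_apply, Matrix.smul_apply, Matrix.one_apply, smul_eq_mul,
      transpose_apply, pm]
    ring
  have h2 : ∑ i : Fin (d + 1), vecMulVec (Pi.single i (1 : ℝ) - Pi.single (c i) 1)
      (Pi.single i 1 - Pi.single (c i) 1 : Fin (d + 1) → ℝ) =
      inc d * (inc d)ᵀ + vecMulVec (Pi.single 0 1 - Pi.single (Fin.last d) 1)
      (Pi.single 0 1 - Pi.single (Fin.last d) 1) := by
    rw [Fin.sum_univ_castSucc]
    congr 1
    · ext a b
      rw [Matrix.sum_apply, Matrix.mul_apply]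
      apply Finset.sum_congr rfl
      intro i _
      have hci : c i.castSucc = i.succ := by
        rw [hc]
        have : (i : ℕ) < d := i.2
        have := finRotate_of_lt (k := (i : ℕ)) (n := d) this
        ext
        have h3 := congrArg Fin.val this
        simp
      rw [hci]
      simp only [vecMulVec_apply, Pi.sub_apply, Pi.single_apply, transpose_apply, inc]
    · have hcl : c (Fin.last d) = 0 := by rw [hc]; exact finRotate_last
      rw [hcl]
      ext a b
      simp only [vecMulVec_apply, Pi.sub_apply]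
      ring
  rw [h2] at h1
  ext a b
  have := congrFun (congrFun h1 a) b
  simp only [Matrix.add_apply, Matrix.sub_apply] at this ⊢
  linarith

lemma exists_orth_similar {d : ℕ} {M M' : Matrix (Fin d) (Fin d) ℝ} (hM : M.IsSymm)
    (hM' : M'.IsSymm) (h : M.charpoly = M'.charpoly) :
    ∃ A : Matrix (Fin d) (Fin d) ℝ, A * Aᵀ = 1 ∧ M = A * M' * Aᵀ := by
  have hH : M.IsHermitian := by
    rw [Matrix.IsHermitian, conjTranspose_eq_transpose_of_trivial]; exact hM
  have hH' : M'.IsHermitian := by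
    rw [Matrix.IsHermitian, conjTranspose_eq_transpose_of_trivial]; exact hM'
  have he : hH.eigenvalues = hH'.eigenvalues :=
    (IsHermitian.eigenvalues_eq_eigenvalues_iff hH hH').mpr h
  have s1 := hH.spectral_theorem
  have s2 := hH'.spectral_theorem
  rw [Unitary.conjStarAlgAut_apply] at s1 s2
  set P := (hH.eigenvectorUnitary : Matrix (Fin d) (Fin d) ℝ) with hP
  set P' := (hH'.eigenvectorUnitary : Matrix (Fin d) (Fin d) ℝ) with hP'
  have u1 : P * Pᵀ = 1 := by
    have := (Unitary.mem_iff.mp hH.eigenvectorUnitary.2).2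
    rwa [star_eq_conjTranspose, conjTranspose_eq_transpose_of_trivial] at this
  have u2 : P'ᵀ * P' = 1 := by
    have := (Unitary.mem_iff.mp hH'.eigenvectorUnitary.2).1
    rwa [star_eq_conjTranspose, conjTranspose_eq_transpose_of_trivial] at this
  set Λ : Matrix (Fin d) (Fin d) ℝ := diagonal (RCLike.ofReal ∘ hH.eigenvalues) with hΛ
  have t1 : M = P * Λ * Pᵀ := by
    rw [star_eq_conjTranspose, conjTranspose_eq_transpose_of_trivial] at s1
    exact s1
  have t2 : M' = P' * Λ * P'ᵀ := by
    rw [star_eq_conjTranspose, conjTranspose_eq_transpose_of_trivial, ← he] at s2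
    exact s2
  refine ⟨P * P'ᵀ, ?_, ?_⟩
  · rw [transpose_mul, transpose_transpose]
    have : P * P'ᵀ * (P' * Pᵀ) = P * (P'ᵀ * P') * Pᵀ := by simp only [mul_assoc]
    rw [this, u2, mul_one, u1]
  · rw [transpose_mul, transpose_transpose]
    have : P * P'ᵀ * M' * (P' * Pᵀ) = P * (P'ᵀ * P') * Λ * (P'ᵀ * P') * Pᵀ := by
      rw [t2]; simp only [mul_assoc]
    rw [this, u2, mul_one, mul_one]
    exact t1

/-- The domination of the cycle by the path. -/
theorem exists_orth_path {d : ℕ} {Q : Matrix (Fin (d + 1)) (Fin d) ℝ} (hQ : IsStd Q) :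
    ∃ (w : Fin d → ℝ) (A : Matrix (Fin d) (Fin d) ℝ), A * Aᵀ = 1 ∧
      stdRep Q (finRotate (d + 1)) + (stdRep Q (finRotate (d + 1)))ᵀ + vecMulVec w w =
        A * pathAdj d * Aᵀ := by
  set δ : Fin (d + 1) → ℝ := Pi.single 0 1 - Pi.single (Fin.last d) 1 with hδ
  set Z : Matrix (Fin d) (Fin d) ℝ := Qᵀ * inc d with hZ
  have hZt : Zᵀ * Z = (2 : ℝ) • 1 - pathAdj d := by
    rw [hZ, transpose_mul, transpose_transpose]
    have : (inc d)ᵀ * Q * (Qᵀ * inc d) = (inc d)ᵀ * (Q * Qᵀ * inc d) := by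
      simp only [Matrix.mul_assoc]
    rw [this, hQ.Qt, Matrix.sub_mul, Matrix.one_mul, Matrix.smul_mul, ones_inc, smul_zero,
      sub_zero, inc_tmul]
  have hZZ : Z * Zᵀ = Qᵀ * (inc d * (inc d)ᵀ) * Q := by
    rw [hZ, transpose_mul, transpose_transpose]
    simp only [Matrix.mul_assoc]
  have hcp : (Z * Zᵀ).charpoly = (Zᵀ * Z).charpoly := charpoly_mul_comm _ _
  have hs1 : (Z * Zᵀ).IsSymm := by
    unfold Matrix.IsSymm; rw [transpose_mul, transpose_transpose]
  have hs2 : (Zᵀ * Z).IsSymm := by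
    unfold Matrix.IsSymm; rw [transpose_mul, transpose_transpose]
  obtain ⟨A, hA, hAeq⟩ := exists_orth_similar hs1 hs2 hcp
  refine ⟨Qᵀ *ᵥ δ, A, hA, ?_⟩
  have e1 : stdRep Q (finRotate (d + 1)) + (stdRep Q (finRotate (d + 1)))ᵀ +
      vecMulVec (Qᵀ *ᵥ δ) (Qᵀ *ᵥ δ) = Qᵀ * (pm (finRotate (d + 1)) +
        (pm (finRotate (d + 1)))ᵀ + vecMulVec δ δ) * Q := by
    unfold stdRep
    rw [Matrix.mul_add, Matrix.mul_add, Matrix.add_mul, Matrix.add_mul, mul_vecMulVec,
      vecMulVec_mul, ← mulVec_transpose, transpose_mul, transpose_mul, transpose_transpose,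
      Matrix.mul_assoc Qᵀ (pm _)ᵀ Q]
  rw [e1, cycle_eq, Matrix.mul_sub, Matrix.sub_mul, ← hZZ, hAeq, hZt, Matrix.mul_smul,
    Matrix.smul_mul, Matrix.mul_one, hQ.tQ, mul_sub, sub_mul, mul_smul_comm, smul_mul_assoc,
    mul_one, hA]
  abel

end Pool.Agent.Ramanujan
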