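import Pool.Agent.Ramanujan.Signs

/-!
Assembly: a choice of permutations for which the new part of the adjacency matrix has a
characteristic polynomial positive on `[x₀, ∞)`.
-/

open Matrix Function Equiv Polynomial

namespace Pool.Agent.Ramanujan

section General

variable {ι N : Type*} [DecidableEq ι] [Fintype ι] [Fintype N] [DecidableEq N]

lemma base_eval (X : ι → Matrix N N ℝ) (z : ℝ) :
    (base X).eval z = (z • (1 : Matrix N N ℝ) + ∑ j, X j).det := by
  unfold base
  rw [Matrix.eval_charpoly, sub_neg_eq_add, Matrix.scalar_apply, ← Matrix.smul_one_eq_diagonal]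

lemma base_eval_update (X : ι → Matrix N N ℝ) (j : ι) (A : Matrix N N ℝ) (z : ℝ) :
    (base (update X j A)).eval z =
      ((z • (1 : Matrix N N ℝ) + ∑ i ∈ Finset.univ.erase j, X i) + A).det := by
  rw [base_eval, ← Finset.add_sum_erase _ _ (Finset.mem_univ j), update_self]
  have : ∑ i ∈ Finset.univ.erase j, update X j A i = ∑ i ∈ Finset.univ.erase j, X i :=
    Finset.sum_congr rfl fun i hi => update_of_ne (Finset.ne_of_mem_erase hi) _ _
  rw [this]
  congr 1
  abel

lemma avgOn_base {G : Type*} [Fintype G] (R : G → Matrix N N ℝ) (X : ι → Matrix N N ℝ) (j : ι)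
    (z : ℝ) : avgOn R j Finset.univ (fun Y => (base Y).eval z) X =
      ((Fintype.card G : ℝ)⁻¹) * ∑ g, ((z • (1 : Matrix N N ℝ) +
        ∑ i ∈ Finset.univ.erase j, X i) + R g * X j * (R g)ᵀ).det := by
  unfold avgOn act
  rw [smul_eq_mul, Finset.card_univ]
  congr 1
  exact Finset.sum_congr rfl fun g _ => base_eval_update _ _ _ _

lemma avgOn_base_inv {G : Type*} [Fintype G] {R : G → Matrix N N ℝ} {A : Matrix N N ℝ}
    (h : Inv R A) (X : ι → Matrix N N ℝ) (j : ι) (z : ℝ) :
    avgOn R j Finset.univ (fun Y => (base Y).eval z) (update X j (A * X j * Aᵀ)) =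
      avgOn R j Finset.univ (fun Y => (base Y).eval z) X := by
  rw [avgOn_base, avgOn_base, update_self]
  have : ∑ i ∈ Finset.univ.erase j, update X j (A * X j * Aᵀ) i =
      ∑ i ∈ Finset.univ.erase j, X i :=
    Finset.sum_congr rfl fun i hi => update_of_ne (Finset.ne_of_mem_erase hi) _ _
  rw [this, h]

end General

section Main

variable {V E : Type} [Fintype V] [DecidableEq V] [Fintype E] [DecidableEq E] {G : MGraph V E}

lemma avgOn_quad {d : ℕ} {Q : Matrix (Fin (d + 1)) (Fin d) ℝ} (hQ : IsStd Q) (v : V) (j : E)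
    (z : ℝ) : avgOn (fun π => rep hQ v π) j Finset.univ
      (fun Y : E → Matrix (V × Fin d) (V × Fin d) ℝ => (base Y).eval z) =
      avgOn (fun g => MB v g) j Finset.univ (fun Y => (base Y).eval z) := by
  funext X
  rw [avgOn_base, avgOn_base]
  have h := quadrature hQ v (z • (1 : Matrix (V × Fin d) (V × Fin d) ℝ) +
        ∑ i ∈ Finset.univ.erase j, X i) (X j)
  have h1 : (Fintype.card (Perm (Fin (d + 1))) : ℝ) ≠ 0 := by
    have : 0 < Fintype.card (Perm (Fin (d + 1))) := Fintype.card_pos
    exact_mod_cast this.ne'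
  have h2 : (Fintype.card ((Fin d → ℤˣ) × Perm (Fin d)) : ℝ) ≠ 0 := by
    have : 0 < Fintype.card ((Fin d → ℤˣ) × Perm (Fin d)) := Fintype.card_pos
    exact_mod_cast this.ne'
  rw [inv_mul_eq_div, inv_mul_eq_div, div_eq_div_iff h1 h2, mul_comm _ (Fintype.card _ : ℝ), h]
  ring

lemma XT_symm (d : ℕ) : SymFam (XT G d) := by
  intro e
  unfold XT Matrix.IsSymm
  split_ifs
  · rw [transpose_neg, E_transpose]
    congr 2
    ext i j
    simp only [transpose_apply, pathAdj]
    ring
  · rw [transpose_neg, transpose_add, E_transpose, E_transpose, transpose_one, add_comm]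

theorem iterMB_pos {v₀ : V} (hconn : G.Connected) {x : ℝ} (hx : G.rho v₀ < x) (d : ℕ) :
    0 < iter (fun (e : E) (g : (Fin d → ℤˣ) × Perm (Fin d)) => MB (G.src e) g)
      Finset.univ.toList (fun Y => (base Y).eval x) (XT G d) := by
  rw [iter_eq_sum _ (Finset.nodup_toList _), smul_eq_mul]
  apply mul_pos
  · apply inv_pos.mpr
    have : 0 < Fintype.card (E → (Fin d → ℤˣ) × Perm (Fin d)) := Fintype.card_pos
    exact_mod_cast this
  · rw [← (Equiv.arrowProdEquivProdArrow E (fun _ => Fin d → ℤˣ) (fun _ => Perm (Fin d))).symm.sum_comp,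
      Fintype.sum_prod_type, Finset.sum_comm]
    apply Finset.sum_pos
    · intro π _
      refine lt_of_lt_of_eq (signs_pos hconn hx d π) ?_
      apply Finset.sum_congr rfl
      intro ε _
      rw [base_eval]
      congr 2
      apply Finset.sum_congr rfl
      intro e _
      simp [actL]
    · exact Finset.univ_nonempty

/-- A choice of permutations such that the new part has all its eigenvalues below `x₀`. -/
theorem exists_perm {v₀ : V} (hconn : G.Connected) {x₀ : ℝ} (hx : G.rho v₀ < x₀) {d : ℕ}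
    {Q : Matrix (Fin (d + 1)) (Fin d) ℝ} (hQ : IsStd Q) :
    ∃ τ : E → Perm (Fin (d + 1)), PosFrom (∑ e, (Ramanujan.E (G.src e) (G.tgt e) (stdRep Q (τ e)) +
      Ramanujan.E (G.tgt e) (G.src e) (stdRep Q (τ e))ᵀ)).charpoly x₀ := by
  obtain ⟨w, A, hA, hw⟩ := exists_orth_path hQ
  set ρ : E → (Perm (Fin (d + 1)) →* Matrix (V × Fin d) (V × Fin d) ℝ) :=
    fun e => rep hQ (G.src e) with hρ
  set c := finRotate (d + 1) with hc
  -- the conjugating matrices
  set AA : E → Matrix (V × Fin d) (V × Fin d) ℝ := fun e =>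
    if G.src e = G.tgt e then U (G.src e) A else 1 with hAA
  set Xq : E → Matrix (V × Fin d) (V × Fin d) ℝ := fun e => AA e * XT G d e * (AA e)ᵀ with hXq
  have hXqs : SymFam Xq := by
    intro e
    unfold Matrix.IsSymm
    rw [hXq]
    simp only
    rw [transpose_mul, transpose_mul, transpose_transpose, XT_symm d e, Matrix.mul_assoc]
  set Φ := iter (fun e g => ρ e g) Finset.univ.toList
    (base : (E → Matrix (V × Fin d) (V × Fin d) ℝ) → ℝ[X]) with hΦ
  have hswap : ∀ j (a b : Fin (d + 1)), a ≠ b → ∃ u : V × Fin d → ℝ, u ⬝ᵥ u = 2 ∧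
      ρ j (Equiv.swap a b) = refl u := fun j a b hab => rep_swap' hQ (G.src j) a b hab
  obtain ⟨hgood, hsel⟩ := iter_select ρ hswap Finset.univ.toList
    (base_good : Good (base : (E → Matrix (V × Fin d) (V × Fin d) ℝ) → ℝ[X]))
  -- positivity at `Xq`
  have h1 : PosFrom (Φ Xq) x₀ := by
    intro x hx0
    have hx1 : G.rho v₀ < x := lt_of_lt_of_le hx hx0
    rw [hΦ, iter_eval]
    have e1 : iter (fun e g => ρ e g) Finset.univ.toList
        (fun Y : E → Matrix (V × Fin d) (V × Fin d) ℝ => (base Y).eval x) =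
        iter (fun (e : E) (g : (Fin d → ℤˣ) × Perm (Fin d)) => MB (G.src e) g)
        Finset.univ.toList (fun Y => (base Y).eval x) := by
      apply iter_eq _ _ (Finset.nodup_toList _)
      intro j _
      exact avgOn_quad hQ (G.src j) j x
    rw [e1, hXq]
    have e2 := iter_inv_all (fun (e : E) (g : (Fin d → ℤˣ) × Perm (Fin d)) => MB (G.src e) g)
      (fun Y => (base Y).eval x) AA (fun j X => by
        apply avgOn_base_inv
        simp only [hAA]
        split_ifs
        · exact inv_MB (G.src j) hA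
        · exact Inv.one _) (XT G d)
    rw [e2]
    exact iterMB_pos hconn hx1 d
  -- add the positive rank one matrices
  set Xp : E → Matrix (V × Fin d) (V × Fin d) ℝ := fun e => Xq e +
    (if G.src e = G.tgt e then (1 : ℝ) else 0) • vecMulVec (emb (G.src e) w) (emb (G.src e) w)
    with hXp
  have h2 : PosFrom (Φ Xp) x₀ := by
    apply hgood.mono_all hXqs (fun e => emb (G.src e) w) _ _ h1
    intro e; split_ifs <;> norm_num
  have hXps : SymFam Xp := by
    intro e
    exact (hXqs e).add ((isSymm_vecMulVec_self _).smul _)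
  obtain ⟨g, hg⟩ := hsel Xp hXps x₀ h2
  refine ⟨fun e => if G.src e = G.tgt e then g e * c * (g e)⁻¹ else g e, ?_⟩
  convert hg using 1
  unfold base
  rw [← Finset.sum_neg_distrib]
  congr 1
  apply Finset.sum_congr rfl
  intro e _
  by_cases he : G.src e = G.tgt e
  · simp only [hXp, hXq, hAA, he, if_true, XT, one_smul, hρ]
    rw [vecMulVec_emb, mul_neg, neg_mul, U_mul_E, U_transpose, E_mul_U, ← hw, E_add, E_add,
      neg_add, neg_add_cancel_right, ← E_add, ← E_add, mul_neg, neg_mul, neg_neg, rep_apply,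
      U_mul_E, U_transpose, E_mul_U]
    congr 1
    rw [stdRep_mul hQ, stdRep_mul hQ, ← stdRep_transpose, transpose_mul, transpose_mul,
      transpose_transpose, Matrix.mul_add, Matrix.add_mul]
    simp only [Matrix.mul_assoc]
  · simp only [hXp, hXq, hAA, he, if_false, XT, zero_smul, add_zero, Matrix.one_mul,
      transpose_one, Matrix.mul_one, hρ]
    rw [mul_neg, neg_mul, neg_neg, rep_apply, conj_nonloop he]

end Main

end Pool.Agent.Ramanujan
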