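import Mathlib

/-!
Average of determinants over random signs of the edges (the matching polynomial), its vertex
recursion and its positivity.
-/

open Matrix Function

namespace Pool.Agent.Ramanujan

variable {N : Type*} [Fintype N] [DecidableEq N]

/-- Determinant of the principal submatrix on `S` (rows outside `S` replaced by unit vectors). -/
def Dr (Y : Matrix N N ℝ) (S : Finset N) : ℝ :=
  (Matrix.of fun i => if i ∈ S then Y i else Pi.single i 1).det

/-- The symmetric elementary matrix of the pair `(a, b)`. -/
def Kab (a b : N) : Matrix N N ℝ := Matrix.single a b 1 + Matrix.single b a 1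

omit [Fintype N] in
lemma Kab_row_left {a b : N} (hab : a ≠ b) : Kab a b a = Pi.single b 1 := by
  ext j
  simp only [Kab, Matrix.add_apply, Matrix.single_apply, Pi.single_apply]
  by_cases hj : b = j
  · subst hj; simp [hab, hab.symm]
  · simp [hj, hab, Ne.symm hj, hab.symm]

omit [Fintype N] in
lemma Kab_row_right {a b : N} (hab : a ≠ b) : Kab a b b = Pi.single a 1 := by
  ext j
  simp only [Kab, Matrix.add_apply, Matrix.single_apply, Pi.single_apply]
  by_cases hj : a = j
  · subst hj; simp [hab]
  · simp [hj, hab, Ne.symm hj]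

omit [Fintype N] in
lemma Kab_row_other {a b i : N} (ha : i ≠ a) (hb : i ≠ b) : Kab a b i = 0 := by
  ext j
  simp [Kab, Matrix.single_apply, ha.symm, hb.symm]

/-- One random edge. -/
lemma Dr_edge (Y : Matrix N N ℝ) (S : Finset N) {a b : N} (hab : a ≠ b) :
    Dr (Y - Kab a b) S + Dr (Y + Kab a b) S = 2 * Dr Y S -
      2 * (if a ∈ S ∧ b ∈ S then Dr Y ((S.erase a).erase b) else 0) := by
  set A : Matrix N N ℝ := Matrix.of fun i => if i ∈ S then Y i else Pi.single i 1 with hA
  have gen : ∀ t : ℝ, Dr (Y + t • Kab a b) S =
      (updateRow (updateRow A a (A a + (if a ∈ S then t else 0) • Pi.single b 1)) b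
        (A b + (if b ∈ S then t else 0) • Pi.single a 1)).det := by
    intro t
    unfold Dr
    congr 1
    ext i j
    by_cases hib : i = b
    · subst hib
      rw [updateRow_self]
      by_cases hi : i ∈ S
      · simp only [hA, Matrix.of_apply, hi, if_true, Pi.add_apply, Pi.smul_apply, Matrix.add_apply,
          Matrix.smul_apply, smul_eq_mul]
        rw [Kab_row_right hab]
      · simp [hA, hi]
    · rw [updateRow_ne hib]
      by_cases hia : i = a
      · subst hia
        rw [updateRow_self]
        by_cases hi : i ∈ S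
        · simp only [hA, Matrix.of_apply, hi, if_true, Pi.add_apply, Pi.smul_apply,
            Matrix.add_apply, Matrix.smul_apply, smul_eq_mul]
          rw [Kab_row_left hab]
        · simp [hA, hi]
      · rw [updateRow_ne hia]
        by_cases hi : i ∈ S
        · simp only [hA, Matrix.of_apply, hi, if_true, Matrix.add_apply, Matrix.smul_apply,
            smul_eq_mul]
          rw [Kab_row_other hia hib]
          simp
        · simp [hA, hi]
  have hexp : ∀ s t : ℝ, (updateRow (updateRow A a (A a + s • Pi.single b 1)) b
        (A b + t • Pi.single a 1)).det = A.det +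
        s * (updateRow A a (Pi.single b 1)).det + t * (updateRow A b (Pi.single a 1)).det
        + s * t * (updateRow (updateRow A a (Pi.single b 1)) b (Pi.single a 1)).det := by
    intro s t
    rw [det_updateRow_add, det_updateRow_smul]
    have e1 : ∀ x : N → ℝ, updateRow (updateRow A a x) b (A b) = updateRow A a x := by
      intro x
      have : A b = (updateRow A a x) b := by rw [updateRow_ne hab.symm]
      rw [this, updateRow_eq_self]
    have e2 : ∀ x y : N → ℝ, updateRow (updateRow A a x) b y = updateRow (updateRow A b y) a x := by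
      intro x y
      ext i j
      by_cases hib : i = b
      · subst hib; simp [updateRow_apply, hab.symm]
      · by_cases hia : i = a
        · subst hia; simp [updateRow_apply, hib]
        · simp [updateRow_apply, hia, hib]
    rw [e1, det_updateRow_add, det_updateRow_smul, updateRow_eq_self, e2, det_updateRow_add,
      det_updateRow_smul]
    have e3 : updateRow (updateRow A b (Pi.single a 1)) a (A a) = updateRow A b (Pi.single a 1) := by
      have : A a = (updateRow A b (Pi.single a 1)) a := by rw [updateRow_ne hab]
      rw [this, updateRow_eq_self]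
    rw [e3, ← e2]
    ring
  have h1 : Dr (Y - Kab a b) S = Dr (Y + (-1 : ℝ) • Kab a b) S := by
    rw [neg_smul, one_smul, sub_eq_add_neg]
  have h2 : Dr (Y + Kab a b) S = Dr (Y + (1 : ℝ) • Kab a b) S := by rw [one_smul]
  rw [h1, h2, gen, gen, hexp, hexp]
  have hDr : Dr Y S = A.det := rfl
  rw [hDr]
  by_cases h : a ∈ S ∧ b ∈ S
  · rw [if_pos h.1, if_pos h.2, if_pos h.1, if_pos h.2, if_pos h]
    have h3 : Dr Y ((S.erase a).erase b) = -
        (updateRow (updateRow A a (Pi.single b 1)) b (Pi.single a 1)).det := by
      have h4 : (updateRow (updateRow A a (Pi.single b 1)) b (Pi.single a 1)).det =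
          - (updateRow (updateRow A a (Pi.single a 1)) b (Pi.single b 1)).det := by
        have h5 : updateRow (updateRow A a (Pi.single b 1)) b (Pi.single a 1) =
            (updateRow (updateRow A a (Pi.single a 1)) b (Pi.single b 1)).submatrix
              (Equiv.swap a b) id := by
          ext i j
          simp only [submatrix_apply, id]
          by_cases hib : i = b
          · subst hib
            rw [Equiv.swap_apply_right]
            simp [updateRow_apply, hab]
          · by_cases hia : i = a
            · subst hia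
              rw [Equiv.swap_apply_left]
              simp [updateRow_apply, hab]
            · rw [Equiv.swap_apply_of_ne_of_ne hia hib]
              simp [updateRow_apply, hia, hib]
        rw [h5, det_permute, Equiv.Perm.sign_swap hab]
        simp
      rw [h4, neg_neg]
      unfold Dr
      congr 1
      ext i j
      by_cases hib : i = b
      · subst hib; simp [updateRow_apply]
      · by_cases hia : i = a
        · subst hia; simp [updateRow_apply, hib]
        · simp [updateRow_apply, hia, hib, hA]
    rw [h3]; ring
  · rw [if_neg h]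
    by_cases ha : a ∈ S
    · have hb : b ∉ S := fun hb => h ⟨ha, hb⟩
      simp only [ha, hb, if_true, if_false]
      ring
    · simp only [ha, if_false]
      split_ifs <;> ring

lemma Dr_scalar (x : ℝ) (S : Finset N) : Dr (x • (1 : Matrix N N ℝ)) S = x ^ S.card := by
  unfold Dr
  have : (Matrix.of fun i => if i ∈ S then (x • (1 : Matrix N N ℝ)) i else Pi.single i 1) =
      Matrix.diagonal fun i => if i ∈ S then x else 1 := by
    ext i j
    by_cases hi : i ∈ S
    · simp [hi, Matrix.diagonal_apply, Matrix.one_apply]
    · simp [hi, Matrix.diagonal_apply, Pi.single_apply, eq_comm]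
  rw [this, det_diagonal, Finset.prod_ite_mem, Finset.univ_inter, Finset.prod_const]

section Signs

variable {H : Type*} [Fintype H] [DecidableEq H]

/-- The signed sum of the elementary matrices of the active edges in `s`. -/
def sumK (a b : H → N) (P : H → Prop) [DecidablePred P] (δ : H → ℤˣ) (s : Finset H) :
    Matrix N N ℝ :=
  ∑ h ∈ s, if P h then (((δ h : ℤˣ) : ℤ) : ℝ) • Kab (a h) (b h) else 0

/-- The sum over all signs of the principal determinants. -/
def Ex (a b : H → N) (P : H → Prop) [DecidablePred P] (x : ℝ) (s : Finset H) (S : Finset N) : ℝ :=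
  ∑ δ : H → ℤˣ, Dr (x • 1 - sumK a b P δ s) S

variable (a b : H → N) (P : H → Prop) [DecidablePred P]

lemma Ex_empty (x : ℝ) (S : Finset N) :
    Ex a b P x ∅ S = (Fintype.card (H → ℤˣ) : ℝ) * x ^ S.card := by
  unfold Ex sumK
  simp only [Finset.sum_empty, sub_zero, Dr_scalar, Finset.sum_const, Finset.card_univ,
    nsmul_eq_mul]

lemma Ex_insert (hab : ∀ h, P h → a h ≠ b h) (x : ℝ) {s : Finset H} {h : H} (hs : h ∉ s)
    (S : Finset N) : Ex a b P x (insert h s) S = Ex a b P x s S -
      (if P h ∧ a h ∈ S ∧ b h ∈ S then Ex a b P x s ((S.erase (a h)).erase (b h)) else 0) := by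
  by_cases hP : P h
  · set fl : H → ℤˣ := Function.update 1 h (-1) with hfl
    have hflip : ∀ f : (H → ℤˣ) → ℝ, 2 * ∑ δ, f δ = ∑ δ, (f δ + f (δ * fl)) := by
      intro f
      rw [Finset.sum_add_distrib]
      have : ∑ δ, f (δ * fl) = ∑ δ, f δ := Equiv.sum_comp (Equiv.mulRight fl) f
      rw [this]; ring
    have hsum1 : ∀ δ, sumK a b P (δ * fl) s = sumK a b P δ s := by
      intro δ
      unfold sumK
      apply Finset.sum_congr rfl
      intro k hk
      have : k ≠ h := by rintro rfl; exact hs hk
      simp [hfl, this]
    have hsum2 : ∀ δ, sumK a b P δ (insert h s) = (((δ h : ℤˣ) : ℤ) : ℝ) • Kab (a h) (b h) +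
        sumK a b P δ s := by
      intro δ
      unfold sumK
      rw [Finset.sum_insert hs, if_pos hP]
    have key : ∀ δ : H → ℤˣ, Dr (x • 1 - sumK a b P δ (insert h s)) S +
        Dr (x • 1 - sumK a b P (δ * fl) (insert h s)) S =
        2 * Dr (x • 1 - sumK a b P δ s) S -
        2 * (if a h ∈ S ∧ b h ∈ S then Dr (x • 1 - sumK a b P δ s) ((S.erase (a h)).erase (b h))
          else 0) := by
      intro δ
      rw [hsum2, hsum2, hsum1, ← Dr_edge _ S (hab h hP)]
      have h1 : (δ * fl) h = - δ h := by simp [hfl]
      rw [h1]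
      rcases Int.units_eq_one_or (δ h) with h2 | h2
      · rw [h2]
        simp only [Units.val_neg, Units.val_one, Int.cast_neg, Int.cast_one, one_smul, neg_smul]
        congr 2 <;> abel
      · rw [h2]
        simp only [Units.val_neg, Units.val_one, Int.cast_neg, Int.cast_one, one_smul, neg_smul,
          neg_neg]
        rw [add_comm]
        congr 2 <;> abel
    have h2 := hflip fun δ => Dr (x • 1 - sumK a b P δ (insert h s)) S
    rw [Finset.sum_congr rfl fun δ _ => key δ, Finset.sum_sub_distrib, ← Finset.mul_sum,
      ← Finset.mul_sum] at h2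
    unfold Ex
    by_cases hm : a h ∈ S ∧ b h ∈ S
    · rw [if_pos ⟨hP, hm⟩]
      simp only [if_pos hm] at h2
      linarith
    · rw [if_neg fun h3 => hm h3.2]
      simp only [if_neg hm, Finset.sum_const_zero] at h2
      linarith
  · rw [if_neg fun h3 => hP h3.1, sub_zero]
    unfold Ex
    apply Finset.sum_congr rfl
    intro δ _
    congr 2
    unfold sumK
    rw [Finset.sum_insert hs, if_neg hP, zero_add]

/-- Vertex recursion. -/
lemma Ex_vertex (hab : ∀ h, P h → a h ≠ b h) (x : ℝ) (s : Finset H) :
    ∀ (S : Finset N) (w : N), w ∈ S → Ex a b P x s S = x * Ex a b P x s (S.erase w) -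
      ∑ h ∈ s, ((if P h ∧ a h = w ∧ b h ∈ S.erase w then
          Ex a b P x s ((S.erase w).erase (b h)) else 0) +
        (if P h ∧ b h = w ∧ a h ∈ S.erase w then
          Ex a b P x s ((S.erase w).erase (a h)) else 0)) := by
  induction s using Finset.induction_on with
  | empty =>
    intro S w hw
    rw [Ex_empty, Ex_empty, Finset.sum_empty, sub_zero, Finset.card_erase_of_mem hw]
    have : S.card = (S.card - 1) + 1 := by
      have := Finset.card_pos.mpr ⟨w, hw⟩
      omega
    conv_lhs => rw [this, pow_succ]
    ring
  | insert h₀ s hs ih =>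
    intro S w hw
    set F : Finset N → ℝ := fun T => Ex a b P x s T with hF
    have hF' : ∀ T, Ex a b P x (insert h₀ s) T = F T -
        (if P h₀ ∧ a h₀ ∈ T ∧ b h₀ ∈ T then F ((T.erase (a h₀)).erase (b h₀)) else 0) :=
      fun T => Ex_insert a b P hab x hs T
    have ih' : ∀ (S : Finset N) (w : N), w ∈ S → F S = x * F (S.erase w) -
      ∑ h ∈ s, ((if P h ∧ a h = w ∧ b h ∈ S.erase w then F ((S.erase w).erase (b h)) else 0) +
        (if P h ∧ b h = w ∧ a h ∈ S.erase w then F ((S.erase w).erase (a h)) else 0)) := ih
    simp only [hF']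
    rw [Finset.sum_insert hs]
    by_cases hP : P h₀
    swap
    · simp only [hP, false_and, if_false, sub_zero, zero_add, add_zero]
      exact ih' S w hw
    have hne := hab h₀ hP
    simp only [hP, true_and]
    by_cases hwa : a h₀ = w
    · -- `w = a h₀`
      subst hwa
      have hz : ∀ T : Finset N, a h₀ ∉ T → (if a h₀ ∈ T ∧ b h₀ ∈ T then
          F ((T.erase (a h₀)).erase (b h₀)) else 0) = 0 := by
        intro T hT; rw [if_neg fun h => hT h.1]
      have hn1 : a h₀ ∉ S.erase (a h₀) := Finset.notMem_erase _ _
      have hn2 : ∀ c, a h₀ ∉ (S.erase (a h₀)).erase c := fun c h =>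
        hn1 (Finset.mem_of_mem_erase h)
      rw [hz _ hn1]
      simp only [hz _ (hn2 _), sub_zero]
      have h2 : ¬ (b h₀ = a h₀ ∧ a h₀ ∈ S.erase (a h₀)) := fun h => hn1 h.2
      rw [if_neg h2, add_zero, ih' S _ hw]
      have h3 : b h₀ ∈ S.erase (a h₀) ↔ b h₀ ∈ S := by
        rw [Finset.mem_erase]; exact ⟨fun h => h.2, fun h => ⟨hne.symm, h⟩⟩
      simp only [h3, hw, true_and]
      ring
    · by_cases hwb : b h₀ = w
      · subst hwb
        have hz : ∀ T : Finset N, b h₀ ∉ T → (if a h₀ ∈ T ∧ b h₀ ∈ T then
            F ((T.erase (a h₀)).erase (b h₀)) else 0) = 0 := by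
          intro T hT; rw [if_neg fun h => hT h.2]
        have hn1 : b h₀ ∉ S.erase (b h₀) := Finset.notMem_erase _ _
        have hn2 : ∀ c, b h₀ ∉ (S.erase (b h₀)).erase c := fun c h =>
          hn1 (Finset.mem_of_mem_erase h)
        rw [hz _ hn1]
        simp only [hz _ (hn2 _), sub_zero]
        have h2 : ¬ (a h₀ = b h₀ ∧ b h₀ ∈ S.erase (b h₀)) := fun h => hn1 h.2
        rw [if_neg h2, zero_add, ih' S _ hw]
        have h3 : a h₀ ∈ S.erase (b h₀) ↔ a h₀ ∈ S := by
          rw [Finset.mem_erase]; exact ⟨fun h => h.2, fun h => ⟨hne, h⟩⟩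
        simp only [h3, hw, true_and, and_true]
        rw [Finset.erase_right_comm (a := b h₀) (b := a h₀)]
        ring
      · -- `w` is not an endpoint of the new edge
        have e1 : (a h₀ ∈ S.erase w) ↔ a h₀ ∈ S := by
          rw [Finset.mem_erase]; exact ⟨fun h => h.2, fun h => ⟨hwa, h⟩⟩
        have e2 : (b h₀ ∈ S.erase w) ↔ b h₀ ∈ S := by
          rw [Finset.mem_erase]; exact ⟨fun h => h.2, fun h => ⟨hwb, h⟩⟩
        have h1 : ¬ (a h₀ = w ∧ b h₀ ∈ S.erase w) := fun h => hwa h.1
        have h2 : ¬ (b h₀ = w ∧ a h₀ ∈ S.erase w) := fun h => hwb h.1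
        rw [if_neg h1, if_neg h2]
        simp only [e1, e2]
        by_cases hm : a h₀ ∈ S ∧ b h₀ ∈ S
        · rw [if_pos hm, if_pos hm]
          set S2 := (S.erase (a h₀)).erase (b h₀) with hS2
          have hw2 : w ∈ S2 := by
            rw [hS2, Finset.mem_erase, Finset.mem_erase]
            exact ⟨Ne.symm hwb, Ne.symm hwa, hw⟩
          rw [ih' S w hw, ih' S2 w hw2]
          have e3 : ((S.erase w).erase (a h₀)).erase (b h₀) = S2.erase w := by
            ext i; simp only [hS2, Finset.mem_erase]; tauto
          rw [e3]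
          have hsum : ∀ (p : H → Prop) [DecidablePred p] (c : H → N),
              ∑ h ∈ s, (if p h ∧ c h ∈ S.erase w then
                (F ((S.erase w).erase (c h)) - (if a h₀ ∈ (S.erase w).erase (c h) ∧
                  b h₀ ∈ (S.erase w).erase (c h) then
                  F ((((S.erase w).erase (c h)).erase (a h₀)).erase (b h₀)) else 0)) else 0) =
              ∑ h ∈ s, (if p h ∧ c h ∈ S.erase w then F ((S.erase w).erase (c h)) else 0) -
              ∑ h ∈ s, (if p h ∧ c h ∈ S2.erase w then F ((S2.erase w).erase (c h)) else 0) := by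
            intro p _ c
            rw [← Finset.sum_sub_distrib]
            apply Finset.sum_congr rfl
            intro h _
            by_cases hp : p h
            · by_cases hc : c h ∈ S.erase w
              · have hpc : p h ∧ c h ∈ S.erase w := ⟨hp, hc⟩
                rw [if_pos hpc, if_pos hpc]
                congr 1
                have hcw : c h ≠ w := (Finset.mem_erase.mp hc).1
                have hcS : c h ∈ S := (Finset.mem_erase.mp hc).2
                have hiff : (a h₀ ∈ (S.erase w).erase (c h) ∧ b h₀ ∈ (S.erase w).erase (c h)) ↔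
                    (p h ∧ c h ∈ S2.erase w) := by
                  simp only [hS2, Finset.mem_erase]
                  constructor
                  · rintro ⟨⟨h1, -⟩, ⟨h2, -⟩⟩
                    exact ⟨hp, hcw, Ne.symm h2, Ne.symm h1, hcS⟩
                  · rintro ⟨-, -, h1, h2, -⟩
                    exact ⟨⟨Ne.symm h2, hwa, hm.1⟩, ⟨Ne.symm h1, hwb, hm.2⟩⟩
                by_cases hcond : p h ∧ c h ∈ S2.erase w
                · rw [if_pos hcond, if_pos (hiff.mpr hcond)]
                  congr 1
                  ext i; simp only [hS2, Finset.mem_erase]; tauto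
                · rw [if_neg hcond, if_neg fun h => hcond (hiff.mp h)]
              · have hc2 : c h ∉ S2.erase w := by
                  intro h1
                  apply hc
                  simp only [hS2, Finset.mem_erase] at h1 ⊢
                  exact ⟨h1.1, h1.2.2.2⟩
                rw [if_neg fun h => hc h.2, if_neg fun h => hc h.2, if_neg fun h => hc2 h.2,
                  sub_zero]
            · rw [if_neg fun h => hp h.1, if_neg fun h => hp h.1, if_neg fun h => hp h.1,
                sub_zero]
          have s1 := hsum (fun h => P h ∧ a h = w) b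
          have s2 := hsum (fun h => P h ∧ b h = w) a
          simp only [and_assoc] at s1 s2
          rw [Finset.sum_add_distrib, Finset.sum_add_distrib, Finset.sum_add_distrib, s1, s2]
          ring
        · rw [if_neg hm, if_neg hm, sub_zero, sub_zero, add_zero, zero_add, ih' S w hw]
          congr 1
          apply Finset.sum_congr rfl
          intro h _
          have hz : ∀ c, ¬ (a h₀ ∈ (S.erase w).erase c ∧ b h₀ ∈ (S.erase w).erase c) := by
            intro c h3
            apply hm
            exact ⟨Finset.mem_of_mem_erase (Finset.mem_of_mem_erase h3.1),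
              Finset.mem_of_mem_erase (Finset.mem_of_mem_erase h3.2)⟩
          rw [if_neg (hz _), if_neg (hz _), sub_zero, sub_zero]

/-- Source of a lifted dart. -/
def lsrc (a b : H → N) (h : H) (β : Bool) : N := if β then a h else b h

/-- Target of a lifted dart. -/
def ltgt (a b : H → N) (h : H) (β : Bool) : N := if β then b h else a h

/-- Positivity of the averaged determinants. -/
theorem Ex_pos {D : Type*} [DecidableEq D] (hab : ∀ h, P h → a h ≠ b h) (x : ℝ)
    (f : ℕ → D → ℝ) (hf0 : ∀ k e, 0 ≤ f k e) (out : N → Finset D) (Φ : H → Bool → D)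
    (hΦ : ∀ h β, P h → Φ h β ∈ out (lsrc a b h β))
    (hinj : ∀ h β h' β', P h → P h' → lsrc a b h β = lsrc a b h' β' → Φ h β = Φ h' β' →
      h = h' ∧ β = β')
    (T1 : ∀ k h β, P h →
      0 < x - ∑ e ∈ (out (ltgt a b h β)).erase (Φ h (!β)), f k e ∧
      f (k + 1) (Φ h β) * (x - ∑ e ∈ (out (ltgt a b h β)).erase (Φ h (!β)), f k e) = 1)
    (T2 : ∀ k w, 0 < x - ∑ e ∈ out w, f k e) :
    ∀ (n : ℕ) (S : Finset N), S.card = n → 0 < Ex a b P x Finset.univ S ∧
      ∀ h β, P h → ltgt a b h β ∈ S → lsrc a b h β ∉ S →
        Ex a b P x Finset.univ (S.erase (ltgt a b h β)) ≤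
          f n (Φ h β) * Ex a b P x Finset.univ S := by
  intro n
  induction n with
  | zero =>
    intro S hS
    have hS0 : S = ∅ := Finset.card_eq_zero.mp hS
    subst hS0
    refine ⟨?_, fun h β _ hm => absurd hm (Finset.notMem_empty _)⟩
    -- the value on the empty set
    have : ∀ s : Finset H, Ex a b P x s ∅ = (Fintype.card (H → ℤˣ) : ℝ) := by
      intro s
      unfold Ex Dr
      have h1 : (Matrix.of fun i : N => (Pi.single i (1 : ℝ) : N → ℝ)) = (1 : Matrix N N ℝ) := by
        ext i j
        simp [Matrix.one_apply, Pi.single_apply, eq_comm]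
      simp [h1]
    rw [this]
    have : 0 < Fintype.card (H → ℤˣ) := Fintype.card_pos
    exact_mod_cast this
  | succ n ih =>
    intro S hS
    -- main lower bound
    have main : ∀ w ∈ S, ∀ T : Finset D,
        (∀ h β, P h → lsrc a b h β = w → ltgt a b h β ∈ S.erase w → Φ h β ∈ T) →
        Ex a b P x Finset.univ (S.erase w) * (x - ∑ e ∈ T, f n e) ≤ Ex a b P x Finset.univ S := by
      intro w hw T hT
      have hcard : (S.erase w).card = n := by
        rw [Finset.card_erase_of_mem hw, hS]; rfl
      obtain ⟨hpos, hrec⟩ := ih _ hcard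
      rw [Ex_vertex a b P hab x Finset.univ S w hw]
      have hbound : ∀ (h : H) (β : Bool), (if P h ∧ lsrc a b h β = w ∧ ltgt a b h β ∈ S.erase w then
          Ex a b P x Finset.univ ((S.erase w).erase (ltgt a b h β)) else 0) ≤
          (if P h ∧ lsrc a b h β = w ∧ ltgt a b h β ∈ S.erase w then f n (Φ h β) else 0) *
            Ex a b P x Finset.univ (S.erase w) := by
        intro h β
        by_cases hc : P h ∧ lsrc a b h β = w ∧ ltgt a b h β ∈ S.erase w
        · rw [if_pos hc, if_pos hc]
          apply hrec h β hc.1 hc.2.2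
          rw [hc.2.1]
          exact Finset.notMem_erase _ _
        · rw [if_neg hc, if_neg hc, zero_mul]
      have hsum : ∑ h, ((if P h ∧ a h = w ∧ b h ∈ S.erase w then
          Ex a b P x Finset.univ ((S.erase w).erase (b h)) else 0) +
        (if P h ∧ b h = w ∧ a h ∈ S.erase w then
          Ex a b P x Finset.univ ((S.erase w).erase (a h)) else 0)) ≤
          (∑ e ∈ T, f n e) * Ex a b P x Finset.univ (S.erase w) := by
        have e1 : ∀ h, ((if P h ∧ a h = w ∧ b h ∈ S.erase w then
          Ex a b P x Finset.univ ((S.erase w).erase (b h)) else 0) +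
        (if P h ∧ b h = w ∧ a h ∈ S.erase w then
          Ex a b P x Finset.univ ((S.erase w).erase (a h)) else 0)) ≤
          ∑ β : Bool, (if P h ∧ lsrc a b h β = w ∧ ltgt a b h β ∈ S.erase w then f n (Φ h β) else 0) *
            Ex a b P x Finset.univ (S.erase w) := by
          intro h
          rw [Fintype.sum_bool]
          exact add_le_add (hbound h true) (hbound h false)
        refine (Finset.sum_le_sum fun h _ => e1 h).trans ?_
        rw [← Fintype.sum_prod_type (f := fun p : H × Bool =>
          (if P p.1 ∧ lsrc a b p.1 p.2 = w ∧ ltgt a b p.1 p.2 ∈ S.erase w then f n (Φ p.1 p.2) else 0)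
            * Ex a b P x Finset.univ (S.erase w)), ← Finset.sum_mul]
        apply mul_le_mul_of_nonneg_right _ hpos.le
        rw [← Finset.sum_filter]
        have himg : ∑ p ∈ Finset.univ.filter (fun p : H × Bool => P p.1 ∧ lsrc a b p.1 p.2 = w ∧
            ltgt a b p.1 p.2 ∈ S.erase w), f n (Φ p.1 p.2) =
            ∑ e ∈ (Finset.univ.filter (fun p : H × Bool => P p.1 ∧ lsrc a b p.1 p.2 = w ∧
            ltgt a b p.1 p.2 ∈ S.erase w)).image (fun p => Φ p.1 p.2), f n e := by
          rw [Finset.sum_image]
          rintro ⟨h, β⟩ hp ⟨h', β'⟩ hp' heq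
          simp only [Finset.coe_filter, Finset.mem_univ, true_and, Set.mem_ofPred_eq] at hp hp'
          obtain ⟨q1, q2⟩ := hinj h β h' β' hp.1 hp'.1 (by rw [hp.2.1, hp'.2.1]) heq
          rw [q1, q2]
        rw [himg]
        apply Finset.sum_le_sum_of_subset_of_nonneg
        · intro e he
          rw [Finset.mem_image] at he
          obtain ⟨⟨h, β⟩, hp, rfl⟩ := he
          simp only [Finset.mem_filter, Finset.mem_univ, true_and] at hp
          exact hT h β hp.1 hp.2.1 hp.2.2
        · intro e _ _; exact hf0 n e
      linarith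
    have hne : S.Nonempty := by
      rw [← Finset.card_pos, hS]; exact Nat.succ_pos n
    constructor
    · obtain ⟨w, hw⟩ := hne
      have hcard : (S.erase w).card = n := by
        rw [Finset.card_erase_of_mem hw, hS]; rfl
      have h1 := main w hw (out w) (fun h β hP hs _ => by rw [← hs]; exact hΦ h β hP)
      have h2 := mul_pos (ih _ hcard).1 (T2 n w)
      linarith
    · intro h β hP hw hsrc
      have h1 := main _ hw ((out (ltgt a b h β)).erase (Φ h (!β))) (by
        intro h' β' hP' hs' ht'
        rw [Finset.mem_erase]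
        refine ⟨?_, by rw [← hs']; exact hΦ h' β' hP'⟩
        intro heq
        have hrev : lsrc a b h (!β) = ltgt a b h β := by cases β <;> rfl
        obtain ⟨q1, q2⟩ := hinj h' β' h (!β) hP' hP (by rw [hs', hrev]) heq
        subst q1; subst q2
        have : ltgt a b h' (!β) = lsrc a b h' β := by cases β <;> rfl
        rw [this] at ht'
        exact hsrc (Finset.mem_of_mem_erase ht'))
      obtain ⟨t1, t2⟩ := T1 n h β hP
      have h3 : 0 ≤ f (n + 1) (Φ h β) := hf0 _ _
      have h4 := mul_le_mul_of_nonneg_left h1 h3
      calc Ex a b P x Finset.univ (S.erase (ltgt a b h β))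
          = f (n + 1) (Φ h β) * (Ex a b P x Finset.univ (S.erase (ltgt a b h β)) *
            (x - ∑ e ∈ (out (ltgt a b h β)).erase (Φ h (!β)), f n e)) := by
            linear_combination (-(Ex a b P x Finset.univ (S.erase (ltgt a b h β)))) * t2
        _ ≤ _ := h4

end Signs

end Pool.Agent.Ramanujan
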