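import Pool.Agent.Ramanujan.Averages

/-!
Rotations in a plane: determinants `det (Y + R B Rᵀ)` are trigonometric polynomials of degree
at most two in the rotation angle; consequences for invariance of averages.
-/

open Matrix Function

namespace Pool.Agent.Ramanujan

variable {N : Type*} [Fintype N] [DecidableEq N]

/-- A determinant along four rank one perturbations. -/
lemma det_four (M X₁ X₂ X₃ X₄ : Matrix N N ℂ)
    (h₁ : ∃ x y, X₁ = vecMulVec x y) (h₂ : ∃ x y, X₂ = vecMulVec x y)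
    (h₃ : ∃ x y, X₃ = vecMulVec x y) (h₄ : ∃ x y, X₄ = vecMulVec x y) :
    ∃ a₀ a₁ a₂ b₁ b₂ : ℂ, ∀ z w : ℂ, z * w = 1 →
      (M + (z - 1) • (X₁ + X₂) + (w - 1) • (X₃ + X₄)).det =
        a₀ + a₁ * z + a₂ * z ^ 2 + b₁ * w + b₂ * w ^ 2 := by
  obtain ⟨x₁, y₁, rfl⟩ := h₁
  obtain ⟨x₂, y₂, rfl⟩ := h₂
  obtain ⟨x₃, y₃, rfl⟩ := h₃
  obtain ⟨x₄, y₄, rfl⟩ := h₄
  set D : ℂ → ℂ → ℂ → ℂ → ℂ := fun s₁ s₂ t₁ t₂ => (M + s₁ • vecMulVec x₁ y₁ +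
    s₂ • vecMulVec x₂ y₂ + t₁ • vecMulVec x₃ y₃ + t₂ • vecMulVec x₄ y₄).det with hD
  have e4 : ∀ s₁ s₂ t₁ t₂, D s₁ s₂ t₁ t₂ = D s₁ s₂ t₁ 0 + t₂ * (D s₁ s₂ t₁ 1 - D s₁ s₂ t₁ 0) := by
    intro s₁ s₂ t₁ t₂
    simp only [hD]
    rw [det_add_smul_vecMulVec, zero_smul, add_zero, one_smul]
  have e3 : ∀ s₁ s₂ t₁ t₂, D s₁ s₂ t₁ t₂ = D s₁ s₂ 0 t₂ + t₁ * (D s₁ s₂ 1 t₂ - D s₁ s₂ 0 t₂) := by
    intro s₁ s₂ t₁ t₂
    have : ∀ t, D s₁ s₂ t t₂ = (M + s₁ • vecMulVec x₁ y₁ + s₂ • vecMulVec x₂ y₂ +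
        t₂ • vecMulVec x₄ y₄ + t • vecMulVec x₃ y₃).det := by
      intro t; simp only [hD]; congr 1; abel
    rw [this, this, this, det_add_smul_vecMulVec, zero_smul, add_zero, one_smul]
  have e2 : ∀ s₁ s₂ t₁ t₂, D s₁ s₂ t₁ t₂ = D s₁ 0 t₁ t₂ + s₂ * (D s₁ 1 t₁ t₂ - D s₁ 0 t₁ t₂) := by
    intro s₁ s₂ t₁ t₂
    have : ∀ t, D s₁ t t₁ t₂ = (M + s₁ • vecMulVec x₁ y₁ + t₁ • vecMulVec x₃ y₃ +
        t₂ • vecMulVec x₄ y₄ + t • vecMulVec x₂ y₂).det := by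
      intro t; simp only [hD]; congr 1; abel
    rw [this, this, this, det_add_smul_vecMulVec, zero_smul, add_zero, one_smul]
  have e1 : ∀ s₁ s₂ t₁ t₂, D s₁ s₂ t₁ t₂ = D 0 s₂ t₁ t₂ + s₁ * (D 1 s₂ t₁ t₂ - D 0 s₂ t₁ t₂) := by
    intro s₁ s₂ t₁ t₂
    have : ∀ t, D t s₂ t₁ t₂ = (M + s₂ • vecMulVec x₂ y₂ + t₁ • vecMulVec x₃ y₃ +
        t₂ • vecMulVec x₄ y₄ + t • vecMulVec x₁ y₁).det := by
      intro t; simp only [hD]; congr 1; abel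
    rw [this, this, this, det_add_smul_vecMulVec, zero_smul, add_zero, one_smul]
  have hpoly : ∃ c : Fin 3 → Fin 3 → ℂ, ∀ s t : ℂ, D s s t t = ∑ i, ∑ j, c i j * s ^ (i : ℕ) *
      t ^ (j : ℕ) := by
    refine ⟨fun i j =>
      match i, j with
      | 0, 0 => D 0 0 0 0
      | 0, 1 => (D 0 0 1 0 - D 0 0 0 0) + (D 0 0 0 1 - D 0 0 0 0)
      | 0, 2 => D 0 0 1 1 - D 0 0 1 0 - D 0 0 0 1 + D 0 0 0 0
      | 1, 0 => (D 1 0 0 0 - D 0 0 0 0) + (D 0 1 0 0 - D 0 0 0 0)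
      | 1, 1 => ((D 1 0 1 0 - D 1 0 0 0) + (D 1 0 0 1 - D 1 0 0 0) - (D 0 0 1 0 - D 0 0 0 0)
          - (D 0 0 0 1 - D 0 0 0 0)) + ((D 0 1 1 0 - D 0 1 0 0) + (D 0 1 0 1 - D 0 1 0 0)
          - (D 0 0 1 0 - D 0 0 0 0) - (D 0 0 0 1 - D 0 0 0 0))
      | 1, 2 => ((D 1 0 1 1 - D 1 0 1 0 - D 1 0 0 1 + D 1 0 0 0) -
          (D 0 0 1 1 - D 0 0 1 0 - D 0 0 0 1 + D 0 0 0 0)) +
          ((D 0 1 1 1 - D 0 1 1 0 - D 0 1 0 1 + D 0 1 0 0) -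
          (D 0 0 1 1 - D 0 0 1 0 - D 0 0 0 1 + D 0 0 0 0))
      | 2, 0 => D 1 1 0 0 - D 1 0 0 0 - D 0 1 0 0 + D 0 0 0 0
      | 2, 1 => ((D 1 1 1 0 - D 1 1 0 0) + (D 1 1 0 1 - D 1 1 0 0))
          - ((D 1 0 1 0 - D 1 0 0 0) + (D 1 0 0 1 - D 1 0 0 0))
          - ((D 0 1 1 0 - D 0 1 0 0) + (D 0 1 0 1 - D 0 1 0 0))
          + ((D 0 0 1 0 - D 0 0 0 0) + (D 0 0 0 1 - D 0 0 0 0))
      | 2, 2 => (D 1 1 1 1 - D 1 1 1 0 - D 1 1 0 1 + D 1 1 0 0)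
          - (D 1 0 1 1 - D 1 0 1 0 - D 1 0 0 1 + D 1 0 0 0)
          - (D 0 1 1 1 - D 0 1 1 0 - D 0 1 0 1 + D 0 1 0 0)
          + (D 0 0 1 1 - D 0 0 1 0 - D 0 0 0 1 + D 0 0 0 0), ?_⟩
    intro s t
    rw [e1 s s t t, e2 0 s t t, e2 1 s t t, e3 0 0 t t, e3 0 1 t t, e3 1 0 t t, e3 1 1 t t,
      e4 0 0 0 t, e4 0 0 1 t, e4 0 1 0 t, e4 0 1 1 t, e4 1 0 0 t, e4 1 0 1 t, e4 1 1 0 t,
      e4 1 1 1 t]
    simp only [Fin.sum_univ_three, Fin.val_zero, Fin.val_one, Fin.val_two, pow_zero, pow_one,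
      mul_one]
    ring
  obtain ⟨c, hc⟩ := hpoly
  refine ⟨c 0 0 - c 1 0 + c 2 0 - c 0 1 + 2 * c 1 1 - 3 * c 2 1 + c 0 2 - 3 * c 1 2 + 6 * c 2 2,
    c 1 0 - 2 * c 2 0 - c 1 1 + 3 * c 2 1 + c 1 2 - 4 * c 2 2,
    c 2 0 - c 2 1 + c 2 2,
    c 0 1 - c 1 1 + c 2 1 - 2 * c 0 2 + 3 * c 1 2 - 4 * c 2 2,
    c 0 2 - c 1 2 + c 2 2, ?_⟩
  intro z w hzw
  have h := hc (z - 1) (w - 1)
  have hL : D (z - 1) (z - 1) (w - 1) (w - 1) = (M + (z - 1) • (vecMulVec x₁ y₁ + vecMulVec x₂ y₂)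
      + (w - 1) • (vecMulVec x₃ y₃ + vecMulVec x₄ y₄)).det := by
    simp only [hD]
    congr 1
    rw [smul_add, smul_add]
    abel
  rw [← hL, h]
  simp only [Fin.sum_univ_three, Fin.val_zero, Fin.val_one, Fin.val_two, pow_zero, pow_one,
      mul_one]
  have h2 : z ^ 2 * w = z := by rw [pow_two, mul_assoc, hzw, mul_one]
  have h3 : z * w ^ 2 = w := by rw [pow_two, ← mul_assoc, hzw, one_mul]
  have h4 : z ^ 2 * w ^ 2 = 1 := by rw [← mul_pow, hzw, one_pow]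
  linear_combination (c 1 1 - 2 * c 1 2 - 2 * c 2 1 + 4 * c 2 2) * hzw + (c 2 1 - 2 * c 2 2) * h2 +
    (c 1 2 - 2 * c 2 2) * h3 + c 2 2 * h4

/-- The rotation in the plane of `p`, `q` by the complex number `z`. -/
noncomputable def rot (p q : N → ℝ) (z : ℂ) : Matrix N N ℝ :=
  1 + (z.re - 1) • (vecMulVec p p + vecMulVec q q) + z.im • (vecMulVec q p - vecMulVec p q)

omit [Fintype N] in
lemma rot_transpose (p q : N → ℝ) (z : ℂ) : (rot p q z)ᵀ = rot p q (starRingEnd ℂ z) := by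
  unfold rot
  ext i j
  simp [vecMulVec_apply, Matrix.one_apply, eq_comm]
  ring

lemma rot_mul {p q : N → ℝ} (hp : p ⬝ᵥ p = 1) (hq : q ⬝ᵥ q = 1) (hpq : p ⬝ᵥ q = 0) (z w : ℂ) :
    rot p q z * rot p q w = rot p q (z * w) := by
  have hqp : q ⬝ᵥ p = 0 := by rw [dotProduct_comm]; exact hpq
  unfold rot
  simp only [mul_add, add_mul, mul_one, one_mul, smul_mul_assoc, mul_smul_comm, mul_sub, sub_mul,
    vecMulVec_mul_vecMulVec, hp, hq, hpq, hqp, one_smul, zero_smul, vecMulVec_zero,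
    Complex.mul_re, Complex.mul_im]
  ext i j
  simp only [Matrix.add_apply, Matrix.sub_apply, Matrix.smul_apply, vecMulVec_apply, smul_eq_mul,
    Matrix.zero_apply]
  ring

omit [Fintype N] in
lemma rot_one (p q : N → ℝ) : rot p q 1 = 1 := by
  unfold rot; simp

lemma rot_orth {p q : N → ℝ} (hp : p ⬝ᵥ p = 1) (hq : q ⬝ᵥ q = 1) (hpq : p ⬝ᵥ q = 0) {z : ℂ}
    (hz : z * starRingEnd ℂ z = 1) : rot p q z * (rot p q z)ᵀ = 1 := by
  rw [rot_transpose, rot_mul hp hq hpq, hz, rot_one]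

lemma rot_orth' {p q : N → ℝ} (hp : p ⬝ᵥ p = 1) (hq : q ⬝ᵥ q = 1) (hpq : p ⬝ᵥ q = 0) {z : ℂ}
    (hz : z * starRingEnd ℂ z = 1) : (rot p q z)ᵀ * rot p q z = 1 := by
  rw [rot_transpose, rot_mul hp hq hpq, mul_comm, hz, rot_one]

lemma rot_det {p q : N → ℝ} (hp : p ⬝ᵥ p = 1) (hq : q ⬝ᵥ q = 1) (hpq : p ⬝ᵥ q = 0) {z : ℂ}
    (hz : z * starRingEnd ℂ z = 1) : (rot p q z).det = 1 := by
  obtain ⟨w, hw⟩ : ∃ w : ℂ, w * w = z := by
    obtain ⟨w, hw⟩ := IsAlgClosed.exists_pow_nat_eq z (n := 2) (by norm_num)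
    exact ⟨w, by rw [← pow_two]; exact hw⟩
  have hww : w * starRingEnd ℂ w = 1 := by
    have h1 : (w * starRingEnd ℂ w) * (w * starRingEnd ℂ w) = 1 := by
      rw [← hw, map_mul] at hz
      linear_combination hz
    rw [Complex.mul_conj] at h1 ⊢
    have h2 : Complex.normSq w * Complex.normSq w = 1 := by exact_mod_cast h1
    have h3 := Complex.normSq_nonneg w
    have h4 : Complex.normSq w = 1 := by nlinarith
    rw [h4]; simp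
  have h1 := congrArg Matrix.det (rot_orth hp hq hpq hww)
  rw [det_mul, det_transpose, det_one] at h1
  rw [← hw, ← rot_mul hp hq hpq, det_mul, h1]

/-- Trigonometric degree at most two. -/
lemma rot_trig {p q : N → ℝ} (hp : p ⬝ᵥ p = 1) (hq : q ⬝ᵥ q = 1) (hpq : p ⬝ᵥ q = 0)
    (Y B : Matrix N N ℝ) :
    ∃ a₀ a₁ a₂ b₁ b₂ : ℂ, ∀ z : ℂ, z * starRingEnd ℂ z = 1 →
      (((Y + rot p q z * B * (rot p q z)ᵀ).det : ℝ) : ℂ) =
        a₀ + a₁ * z + a₂ * z ^ 2 + b₁ * starRingEnd ℂ z + b₂ * (starRingEnd ℂ z) ^ 2 := by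
  set f : ℝ →+* ℂ := Complex.ofRealHom with hf
  set Yc := f.mapMatrix Y with hYc
  set Bc := f.mapMatrix B with hBc
  set pc : N → ℂ := fun i => (p i : ℂ) with hpc
  set qc : N → ℂ := fun i => (q i : ℂ) with hqc
  set ap : N → ℂ := pc - Complex.I • qc with ha
  set bp : N → ℂ := (1/2 : ℂ) • (pc + Complex.I • qc) with hb
  set am : N → ℂ := pc + Complex.I • qc with ha'
  set bm : N → ℂ := (1/2 : ℂ) • (pc - Complex.I • qc) with hb'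
  have hrot : ∀ z : ℂ, f.mapMatrix (rot p q z) =
      1 + (z - 1) • vecMulVec ap bp + (starRingEnd ℂ z - 1) • vecMulVec am bm := by
    intro z
    ext i j
    have hz1 : ((z.re : ℝ) : ℂ) = (z + starRingEnd ℂ z) / 2 := by
      rw [Complex.add_conj]; push_cast; ring
    have hz2 : ((z.im : ℝ) : ℂ) = (z - starRingEnd ℂ z) / (2 * Complex.I) := by
      rw [Complex.sub_conj]; field_simp; push_cast; ring
    simp only [rot, RingHom.mapMatrix_apply, Matrix.map_apply, Matrix.add_apply, Matrix.sub_apply,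
      Matrix.smul_apply, vecMulVec_apply, smul_eq_mul, hf, Complex.ofRealHom_eq_coe,
      Complex.ofReal_add, Complex.ofReal_mul, Complex.ofReal_sub, Complex.ofReal_one, hz1, hz2,
      ha, hb, ha', hb', hpc, hqc, Pi.add_apply, Pi.sub_apply, Pi.smul_apply, Matrix.one_apply]
    have hI : (2 * Complex.I)⁻¹ = - Complex.I / 2 := by
      rw [mul_inv, Complex.inv_I]; ring
    have hI2 : Complex.I ^ 2 = -1 := Complex.I_sq
    have h1 : (((if i = j then (1:ℝ) else 0) : ℝ) : ℂ) = if i = j then (1:ℂ) else 0 := by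
      split_ifs <;> simp
    rw [h1, div_eq_mul_inv (z - (starRingEnd ℂ) z), hI]
    ring_nf
    rw [hI2]
    ring
  obtain ⟨a₀, a₁, a₂, b₁, b₂, h⟩ := det_four (Yc + Bc)
    (Yc * vecMulVec ap bp) (vecMulVec ap bp * Bc) (Yc * vecMulVec am bm) (vecMulVec am bm * Bc)
    ⟨_, _, mul_vecMulVec _ _ _⟩ ⟨_, _, vecMulVec_mul _ _ _⟩ ⟨_, _, mul_vecMulVec _ _ _⟩
    ⟨_, _, vecMulVec_mul _ _ _⟩
  refine ⟨a₀, a₁, a₂, b₁, b₂, ?_⟩
  intro z hz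
  rw [← h z _ hz]
  have h1 : (Y + rot p q z * B * (rot p q z)ᵀ).det = (Y * rot p q z + rot p q z * B).det := by
    have h2 : (Y + rot p q z * B * (rot p q z)ᵀ) * rot p q z = Y * rot p q z + rot p q z * B := by
      rw [add_mul, mul_assoc (rot p q z * B), rot_orth' hp hq hpq hz, mul_one]
    rw [← h2, det_mul, rot_det hp hq hpq hz, mul_one]
  rw [h1]
  have h3 : (((Y * rot p q z + rot p q z * B).det : ℝ) : ℂ) =
      (f.mapMatrix (Y * rot p q z + rot p q z * B)).det := by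
    rw [← RingHom.map_det]; rfl
  rw [h3, map_add, map_mul, map_mul, hrot, ← hYc, ← hBc]
  congr 1
  simp only [mul_add, add_mul, mul_one, one_mul, mul_smul_comm, smul_mul_assoc, smul_add]
  abel

end Pool.Agent.Ramanujan
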