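import Mathlib

/-!
Real-rooted pencils `f + t k` of real polynomials and their consequences
(the analytic core of the interlacing argument).
-/

open Polynomial Complex Filter Topology

namespace Pool.Agent.Ramanujan

/-- `f` has no zero in the open upper half plane. -/
def RR (f : ℝ[X]) : Prop := ∀ z : ℂ, 0 < z.im → aeval z f ≠ 0

/-- `f` is positive on `[x₀, ∞)`. -/
def PosFrom (f : ℝ[X]) (x₀ : ℝ) : Prop := ∀ x, x₀ ≤ x → 0 < f.eval x

/-- `f + t k` is real rooted for every real `t`, `f` is monic, `k` has smaller degree and a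
positive coefficient in degree `natDegree f - 1`. -/
structure Pencil (f k : ℝ[X]) : Prop where
  monic : f.Monic
  pos : 0 < f.natDegree
  deg : k.degree < f.degree
  lead : 0 < k.coeff (f.natDegree - 1)
  rr : ∀ t : ℝ, RR (f + C t * k)

lemma Pencil.k_ne {f k : ℝ[X]} (h : Pencil f k) : k ≠ 0 := by
  rintro rfl
  have := h.lead
  simp at this

lemma Pencil.f_ne {f k : ℝ[X]} (h : Pencil f k) {z : ℂ} (hz : 0 < z.im) : aeval z f ≠ 0 := by
  have := h.rr 0 z hz
  simpa using this

lemma Pencil.not_real {f k : ℝ[X]} (h : Pencil f k) {z : ℂ} (hz : 0 < z.im) {s : ℝ}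
    (hs : s ≠ 0) : aeval z k / aeval z f ≠ (s : ℂ) := by
  intro hk
  have hf := h.f_ne hz
  have h1 : aeval z k = (s : ℂ) * aeval z f := by
    rw [← hk]; field_simp
  apply h.rr (-1 / s) z hz
  have hs' : (s : ℂ) ≠ 0 := by exact_mod_cast hs
  rw [map_add, map_mul, aeval_C, h1]
  simp only [coe_algebraMap]
  push_cast
  field_simp
  ring

lemma Pencil.ne_zero {f k : ℝ[X]} (h : Pencil f k) {z : ℂ} (hz : 0 < z.im) :
    aeval z k ≠ 0 := by
  intro hk
  have hf := h.f_ne hz
  have hopen : IsOpen {z : ℂ | 0 < z.im} := isOpen_lt continuous_const Complex.continuous_im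
  have hana : AnalyticAt ℂ (fun w : ℂ => aeval w k / aeval w f) z := by
    apply AnalyticAt.div
    · have : (fun w : ℂ => aeval w k) = fun w => (k.map (algebraMap ℝ ℂ)).eval w := by
        ext w; rw [eval_map_algebraMap]
      rw [this]
      exact (Polynomial.differentiable _).analyticAt _
    · have : (fun w : ℂ => aeval w f) = fun w => (f.map (algebraMap ℝ ℂ)).eval w := by
        ext w; rw [eval_map_algebraMap]
      rw [this]
      exact (Polynomial.differentiable _).analyticAt _
    · exact hf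
  rcases hana.eventually_constant_or_nhds_le_map_nhds with hc | hm
  · -- eventually constant: `k` vanishes near `z`
    have h0 : aeval z k / aeval z f = 0 := by rw [hk, zero_div]
    have hev : ∀ᶠ w in 𝓝 z, aeval w k = 0 := by
      filter_upwards [hc, hopen.mem_nhds hz] with w hw hw2
      have h3 : aeval w k / aeval w f = 0 := by rw [hw]; exact h0
      rcases div_eq_zero_iff.mp h3 with h4 | h4
      · exact h4
      · exact absurd h4 (h.f_ne hw2)
    have hinf : Set.Infinite {w : ℂ | (k.map (algebraMap ℝ ℂ)).eval w = 0} := by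
      have : {w : ℂ | (k.map (algebraMap ℝ ℂ)).eval w = 0} ∈ 𝓝 z := by
        filter_upwards [hev] with w hw
        simpa [eval_map_algebraMap] using hw
      exact infinite_of_mem_nhds z this
    have hk0 : k.map (algebraMap ℝ ℂ) = 0 := by
      apply Polynomial.eq_zero_of_infinite_isRoot
      exact hinf
    exact h.k_ne ((Polynomial.map_eq_zero _).mp hk0)
  · have h0 : aeval z k / aeval z f = 0 := by rw [hk, zero_div]
    simp only [h0] at hm
    have h1 : (fun w : ℂ => aeval w k / aeval w f) '' {z : ℂ | 0 < z.im} ∈ 𝓝 (0 : ℂ) := by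
      apply hm
      exact image_mem_map (hopen.mem_nhds hz)
    rw [Metric.mem_nhds_iff] at h1
    obtain ⟨ε, hε, hball⟩ := h1
    have h2 : ((ε / 2 : ℝ) : ℂ) ∈ Metric.ball (0 : ℂ) ε := by
      rw [mem_ball_zero_iff, Complex.norm_real, Real.norm_eq_abs, abs_of_pos (by positivity)]
      linarith
    obtain ⟨w, hw, hw2⟩ := hball h2
    exact h.not_real hw (by positivity : (ε / 2 : ℝ) ≠ 0) hw2

lemma Pencil.im_ne {f k : ℝ[X]} (h : Pencil f k) {z : ℂ} (hz : 0 < z.im) :
    (aeval z k / aeval z f).im ≠ 0 := by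
  intro h0
  have hre : aeval z k / aeval z f = (((aeval z k / aeval z f).re : ℝ) : ℂ) := by
    apply Complex.ext
    · simp
    · simpa using h0
  by_cases hs : (aeval z k / aeval z f).re = 0
  · rw [hs] at hre
    have h2 : aeval z k / aeval z f = 0 := by simpa using hre
    rcases div_eq_zero_iff.mp h2 with h4 | h4
    · exact h.ne_zero hz h4
    · exact h.f_ne hz h4
  · exact h.not_real hz hs hre

/-- Asymptotics along the imaginary axis. -/
lemma Pencil.tendsto {f k : ℝ[X]} (h : Pencil f k) :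
    Tendsto (fun y : ℝ => ((y : ℂ) * I) * (aeval ((y : ℂ) * I) k / aeval ((y : ℂ) * I) f))
      atTop (𝓝 ((k.coeff (f.natDegree - 1) : ℝ) : ℂ)) := by
  set n := f.natDegree with hn
  have hnpos : 0 < n := h.pos
  have hkdeg : k.natDegree ≤ n - 1 := by
    have := natDegree_lt_natDegree h.k_ne h.deg
    omega
  have key : ∀ z : ℂ, z ≠ 0 → z * (aeval z k / aeval z f) =
      eval₂ (algebraMap ℝ ℂ) z⁻¹ (reflect (n - 1) k) / eval₂ (algebraMap ℝ ℂ) z⁻¹ (reflect n f) := by
    intro z hz
    have : Invertible z := invertibleOfNonzero hz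
    have h1 := eval₂_reflect_mul_pow (algebraMap ℝ ℂ) z (n - 1) k hkdeg
    have h2 := eval₂_reflect_mul_pow (algebraMap ℝ ℂ) z n f le_rfl
    rw [invOf_eq_inv] at h1 h2
    rw [aeval_def, aeval_def, ← h1, ← h2]
    have h3 : z ^ n = z * z ^ (n - 1) := by
      rw [← pow_succ']; congr 1; omega
    rw [h3]
    have h4 : z ^ (n - 1) ≠ 0 := pow_ne_zero _ hz
    by_cases h5 : eval₂ (algebraMap ℝ ℂ) z⁻¹ (reflect n f) = 0
    · simp [h5]
    · field_simp
  have hlim : Tendsto (fun y : ℝ => ((y : ℂ) * I)⁻¹) atTop (𝓝 (0 : ℂ)) := by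
    have h1 : Tendsto (fun y : ℝ => ‖((y : ℂ) * I)⁻¹‖) atTop (𝓝 0) := by
      have : (fun y : ℝ => ‖((y : ℂ) * I)⁻¹‖) = fun y : ℝ => |y|⁻¹ := by
        ext y; simp
      rw [this]
      exact tendsto_inv_atTop_zero.comp tendsto_abs_atTop_atTop
    exact tendsto_zero_iff_norm_tendsto_zero.mpr h1
  have hc : ∀ p : ℝ[X], Tendsto (fun y : ℝ => eval₂ (algebraMap ℝ ℂ) ((y : ℂ) * I)⁻¹ p) atTop
      (𝓝 ((p.coeff 0 : ℝ) : ℂ)) := by
    intro p
    have hcont : Continuous (fun z : ℂ => eval₂ (algebraMap ℝ ℂ) z p) := by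
      have : (fun z : ℂ => eval₂ (algebraMap ℝ ℂ) z p) = fun z => (p.map (algebraMap ℝ ℂ)).eval z := by
        ext z; rw [eval_map]
      rw [this]
      exact Polynomial.continuous _
    have h0 : eval₂ (algebraMap ℝ ℂ) 0 p = ((p.coeff 0 : ℝ) : ℂ) := by
      simp [eval₂_at_zero]
    rw [← h0]
    exact (hcont.tendsto 0).comp hlim
  have hA := hc (reflect (n - 1) k)
  have hB := hc (reflect n f)
  rw [coeff_reflect] at hA hB
  simp only [revAt_le (Nat.zero_le _), Nat.sub_zero] at hA hB
  have hf1 : f.coeff n = 1 := h.monic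
  rw [hf1] at hB
  have hAB := hA.div hB (by simp)
  simp only [ofReal_one, div_one] at hAB
  refine hAB.congr' ?_
  filter_upwards [eventually_gt_atTop 0] with y hy
  have hz : (y : ℂ) * I ≠ 0 := by
    apply mul_ne_zero
    · exact_mod_cast hy.ne'
    · exact I_ne_zero
  rw [key _ hz]
  rfl

/-- Key lemma: `Im (k/f) < 0` on the upper half plane. -/
theorem Pencil.im_neg {f k : ℝ[X]} (h : Pencil f k) {z : ℂ} (hz : 0 < z.im) :
    (aeval z k / aeval z f).im < 0 := by
  -- find a point on the imaginary axis with negative imaginary part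
  obtain ⟨y, hy, hyneg⟩ : ∃ y : ℝ, 0 < y ∧
      (aeval ((y : ℂ) * I) k / aeval ((y : ℂ) * I) f).im < 0 := by
    have h1 := h.tendsto
    have h2 : Tendsto (fun y : ℝ => (((y : ℂ) * I) *
        (aeval ((y : ℂ) * I) k / aeval ((y : ℂ) * I) f)).re)
        atTop (𝓝 (k.coeff (f.natDegree - 1))) := by
      have := (Complex.continuous_re.tendsto _).comp h1
      exact this
    have h3 : ∀ᶠ y : ℝ in atTop, 0 < (((y : ℂ) * I) *
        (aeval ((y : ℂ) * I) k / aeval ((y : ℂ) * I) f)).re :=
      h2.eventually (lt_mem_nhds h.lead)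
    obtain ⟨y, hy1, hy2⟩ := (h3.and (eventually_gt_atTop 0)).exists
    refine ⟨y, hy2, ?_⟩
    set w := aeval ((y : ℂ) * I) k / aeval ((y : ℂ) * I) f
    have h4 : (((y : ℂ) * I) * w).re = - (y * w.im) := by
      simp [Complex.mul_re, Complex.mul_im]
    rw [h4] at hy1
    by_contra hcon
    push Not at hcon
    have := mul_nonneg hy2.le hcon
    linarith
  by_contra hcon
  push Not at hcon
  have hpos : 0 < (aeval z k / aeval z f).im := lt_of_le_of_ne hcon (h.im_ne hz).symm
  have hconv : Convex ℝ {z : ℂ | 0 < z.im} := convex_halfSpace_im_gt 0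
  have hcont : ContinuousOn (fun w : ℂ => (aeval w k / aeval w f).im) {z : ℂ | 0 < z.im} := by
    apply Complex.continuous_im.comp_continuousOn
    apply ContinuousOn.div
    · exact (Polynomial.continuous_aeval k).continuousOn
    · exact (Polynomial.continuous_aeval f).continuousOn
    · intro w hw
      exact h.f_ne hw
  have hiv := hconv.isPreconnected.intermediate_value (a := (y : ℂ) * I) (b := z)
    (by simpa using hy) hz hcont
  have h0 : (0 : ℝ) ∈ Set.Icc ((aeval ((y : ℂ) * I) k / aeval ((y : ℂ) * I) f).im)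
      ((aeval z k / aeval z f).im) := ⟨hyneg.le, hpos.le⟩
  obtain ⟨w, hw, hw0⟩ := hiv h0
  exact h.im_ne hw hw0

lemma eval_eq_aeval_re (p : ℝ[X]) (x : ℝ) : aeval (x : ℂ) p = ((p.eval x : ℝ) : ℂ) := by
  have := Polynomial.aeval_algebraMap_apply ℂ x p
  simp only [coe_algebraMap] at this
  rw [this]
  simp [coe_aeval_eq_eval]

/-- The Wronskian inequality on the real line. -/
lemma Pencil.wronskian {f k : ℝ[X]} (h : Pencil f k) {x : ℝ} (hx : f.eval x ≠ 0) :
    (k.derivative.eval x * f.eval x - k.eval x * f.derivative.eval x) / (f.eval x) ^ 2 ≤ 0 := by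
  set D : ℝ := (k.derivative.eval x * f.eval x - k.eval x * f.derivative.eval x) / (f.eval x) ^ 2
  have hfx : aeval (x : ℂ) f ≠ 0 := by
    rw [eval_eq_aeval_re]; exact_mod_cast hx
  have hd : HasDerivAt (fun w : ℂ => aeval w k / aeval w f) (D : ℂ) (x : ℂ) := by
    have h1 : HasDerivAt (fun w : ℂ => aeval w k) (aeval (x : ℂ) k.derivative) (x : ℂ) :=
      Polynomial.hasDerivAt_aeval k (x : ℂ)
    have h2 : HasDerivAt (fun w : ℂ => aeval w f) (aeval (x : ℂ) f.derivative) (x : ℂ) :=
      Polynomial.hasDerivAt_aeval f (x : ℂ)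
    have h3 := h1.div h2 hfx
    have e : (D : ℂ) = (aeval (x : ℂ) k.derivative * aeval (x : ℂ) f -
        aeval (x : ℂ) k * aeval (x : ℂ) f.derivative) / (aeval (x : ℂ) f) ^ 2 := by
      rw [eval_eq_aeval_re, eval_eq_aeval_re, eval_eq_aeval_re, eval_eq_aeval_re]
      simp only [D]
      push_cast
      ring
    rw [e]
    exact h3
  have hline : HasDerivAt (fun t : ℝ => (x : ℂ) + (t : ℂ) * I) I 0 := by
    have h1 : HasDerivAt (fun t : ℝ => (t : ℂ)) 1 0 := Complex.ofRealCLM.hasDerivAt
    have := (h1.mul_const I).const_add (x : ℂ)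
    simpa using this
  have hcomp : HasDerivAt (fun t : ℝ => aeval ((x : ℂ) + (t : ℂ) * I) k /
      aeval ((x : ℂ) + (t : ℂ) * I) f) ((D : ℂ) * I) 0 := by
    have hd' : HasDerivAt (fun w : ℂ => aeval w k / aeval w f) (D : ℂ)
        ((x : ℂ) + ((0 : ℝ) : ℂ) * I) := by simpa using hd
    exact HasDerivAt.comp (0 : ℝ) hd' hline
  have him : HasDerivAt (fun t : ℝ => (aeval ((x : ℂ) + (t : ℂ) * I) k /
      aeval ((x : ℂ) + (t : ℂ) * I) f).im) D 0 := by
    have := (Complex.imCLM.hasFDerivAt (x := aeval ((x : ℂ) + ((0:ℝ) : ℂ) * I) k /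
      aeval ((x : ℂ) + ((0:ℝ) : ℂ) * I) f)).comp_hasDerivAt (0 : ℝ) hcomp
    have e : Complex.imCLM ((D : ℂ) * I) = D := by simp
    rw [e] at this
    exact this
  have hslope := (hasDerivAt_iff_tendsto_slope.mp him).mono_left
    (nhdsWithin_mono (0 : ℝ) (s := Set.Ioi 0) (fun t ht => (ne_of_gt ht : t ≠ 0)))
  refine le_of_tendsto hslope ?_
  filter_upwards [self_mem_nhdsWithin] with t ht
  have ht' : (0 : ℝ) < t := ht
  have h0 : (aeval ((x : ℂ) + ((0 : ℝ) : ℂ) * I) k /
      aeval ((x : ℂ) + ((0 : ℝ) : ℂ) * I) f).im = 0 := by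
    simp only [ofReal_zero, zero_mul, add_zero, eval_eq_aeval_re]
    rw [← Complex.ofReal_div, Complex.ofReal_im]
  have hneg : (aeval ((x : ℂ) + (t : ℂ) * I) k / aeval ((x : ℂ) + (t : ℂ) * I) f).im < 0 := by
    apply h.im_neg
    simpa using ht'
  simp only [slope, vsub_eq_sub, sub_zero, smul_eq_mul, h0]
  exact mul_nonpos_of_nonneg_of_nonpos (by positivity) hneg.le

lemma Pencil.antitone {f k : ℝ[X]} (h : Pencil f k) {x₀ : ℝ} (hf : PosFrom f x₀) :
    AntitoneOn (fun x => k.eval x / f.eval x) (Set.Ici x₀) := by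
  apply antitoneOn_of_deriv_nonpos (convex_Ici x₀)
  · apply ContinuousOn.div
    · exact k.continuous.continuousOn
    · exact f.continuous.continuousOn
    · intro x hx; exact (hf x hx).ne'
  · intro x hx
    have hx' : x₀ < x := by simpa using hx
    apply DifferentiableAt.differentiableWithinAt
    exact (k.differentiable x).div (f.differentiable x) (hf x hx'.le).ne'
  · intro x hx
    have hx' : x₀ < x := by simpa using hx
    have h1 : HasDerivAt (fun x => k.eval x / f.eval x)
      ((k.derivative.eval x * f.eval x - k.eval x * f.derivative.eval x) / (f.eval x) ^ 2) x :=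
      (k.hasDerivAt x).div (f.hasDerivAt x) (hf x hx'.le).ne'
    rw [h1.deriv]
    exact h.wronskian (hf x hx'.le).ne'

lemma Pencil.nonneg {f k : ℝ[X]} (h : Pencil f k) {x₀ : ℝ} (hf : PosFrom f x₀) {x : ℝ}
    (hx : x₀ ≤ x) : 0 ≤ k.eval x / f.eval x := by
  have hlim : Tendsto (fun x => k.eval x / f.eval x) atTop (𝓝 0) :=
    Polynomial.div_tendsto_atTop_zero_of_degree_lt k f h.deg
  refine le_of_tendsto hlim ?_
  filter_upwards [eventually_ge_atTop x] with y hy
  exact h.antitone hf hx (hx.trans hy) hy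

/-- Monotonicity. -/
lemma Pencil.posFrom_add {f k : ℝ[X]} (h : Pencil f k) {x₀ : ℝ} (hf : PosFrom f x₀) {t : ℝ}
    (ht : 0 ≤ t) : PosFrom (f + C t * k) x₀ := by
  intro x hx
  have h1 := h.nonneg hf hx
  have h2 := hf x hx
  have h3 : (f + C t * k).eval x = f.eval x * (1 + t * (k.eval x / f.eval x)) := by
    simp only [eval_add, eval_mul, eval_C]
    field_simp
  rw [h3]
  positivity

lemma Pencil.posFrom_sub {f k : ℝ[X]} (h : Pencil f k) {x₀ : ℝ} (hf : PosFrom f x₀)
    (h0 : 0 < (f - k).eval x₀) : PosFrom (f - k) x₀ := by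
  intro x hx
  have h1 := h.antitone hf (Set.mem_Ici.mpr le_rfl) hx hx
  simp only at h1
  have h2 := hf x hx
  have h2' := hf x₀ le_rfl
  have h3 : ∀ y, 0 < f.eval y → (f - k).eval y = f.eval y * (1 - (k.eval y / f.eval y)) := by
    intro y hy
    simp only [eval_sub]
    field_simp
  rw [h3 x₀ h2'] at h0
  have h4 : 0 < 1 - (k.eval x₀ / f.eval x₀) := by
    by_contra hcon
    push Not at hcon
    have := mul_nonpos_of_nonneg_of_nonpos h2'.le hcon
    linarith
  rw [h3 x h2]
  apply mul_pos h2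
  linarith

/-- Convex combinations of two directions. -/
lemma Pencil.combo {f k₁ k₂ : ℝ[X]} (h₁ : Pencil f k₁) (h₂ : Pencil f k₂) {a : ℝ}
    (ha0 : 0 ≤ a) (ha1 : a ≤ 1) : Pencil f (C (1 - a) * k₁ + C a * k₂) := by
  have hdeg : (C (1 - a) * k₁ + C a * k₂).degree < f.degree := by
    refine lt_of_le_of_lt (degree_add_le _ _) (max_lt ?_ ?_)
    · refine lt_of_le_of_lt (degree_mul_le _ _) ?_
      refine lt_of_le_of_lt (add_le_add_left degree_C_le _) ?_
      simpa using h₁.deg
    · refine lt_of_le_of_lt (degree_mul_le _ _) ?_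
      refine lt_of_le_of_lt (add_le_add_left degree_C_le _) ?_
      simpa using h₂.deg
  have hlead : 0 < (C (1 - a) * k₁ + C a * k₂).coeff (f.natDegree - 1) := by
    simp only [coeff_add, coeff_C_mul]
    rcases eq_or_lt_of_le ha0 with h | h
    · rw [← h]; simp [h₁.lead]
    · have := mul_pos h h₂.lead
      have := mul_nonneg (sub_nonneg.mpr ha1) h₁.lead.le
      linarith
  refine ⟨h₁.monic, h₁.pos, hdeg, hlead, ?_⟩
  intro t z hz h0
  have hf := h₁.f_ne hz
  have e1 := h₁.im_neg hz
  have e2 := h₂.im_neg hz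
  have him : (aeval z (C (1 - a) * k₁ + C a * k₂) / aeval z f).im < 0 := by
    have : aeval z (C (1 - a) * k₁ + C a * k₂) / aeval z f =
        ((1 - a : ℝ) : ℂ) * (aeval z k₁ / aeval z f) + ((a : ℝ) : ℂ) * (aeval z k₂ / aeval z f) := by
      simp only [map_add, map_mul, aeval_C, coe_algebraMap]
      ring
    rw [this, Complex.add_im, Complex.im_ofReal_mul, Complex.im_ofReal_mul]
    rcases eq_or_lt_of_le ha0 with h | h
    · rw [← h]; simpa using e1
    · have := mul_neg_of_pos_of_neg h e2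
      have := mul_nonpos_of_nonneg_of_nonpos (sub_nonneg.mpr ha1) e1.le
      linarith
  rw [map_add, map_mul, aeval_C] at h0
  simp only [coe_algebraMap] at h0
  by_cases ht : t = 0
  · rw [ht] at h0
    simp at h0
    exact hf h0
  · have h1 : aeval z (C (1 - a) * k₁ + C a * k₂) / aeval z f = ((-(1 / t) : ℝ) : ℂ) := by
      have ht' : (t : ℂ) ≠ 0 := by exact_mod_cast ht
      rw [div_eq_iff hf]
      push_cast
      field_simp
      linear_combination h0
    rw [h1, Complex.ofReal_im] at him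
    exact lt_irrefl _ him

lemma Pencil.shift {f k : ℝ[X]} (h : Pencil f k) (s : ℝ) : Pencil (f + C s * k) k := by
  have hdeg : (C s * k).degree < f.degree := by
    refine lt_of_le_of_lt (degree_mul_le _ _) ?_
    refine lt_of_le_of_lt (add_le_add_left degree_C_le _) ?_
    simpa using h.deg
  have hnat : (f + C s * k).natDegree = f.natDegree :=
    natDegree_add_eq_left_of_degree_lt hdeg
  have hd : (f + C s * k).degree = f.degree := degree_add_eq_left_of_degree_lt hdeg
  refine ⟨h.monic.add_of_left hdeg, by rw [hnat]; exact h.pos, by rw [hd]; exact h.deg,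
    by rw [hnat]; exact h.lead, ?_⟩
  intro t
  have : f + C s * k + C t * k = f + C (s + t) * k := by
    rw [C_add]; ring
  rw [this]
  exact h.rr (s + t)

/-- Real-rootedness and selection for a convex combination of `h - k₁` and `h - k₂`. -/
theorem Pencil.select {h k₁ k₂ : ℝ[X]} (h₁ : Pencil h k₁) (h₂ : Pencil h k₂) {a : ℝ}
    (ha0 : 0 ≤ a) (ha1 : a ≤ 1) :
    RR (C (1 - a) * (h - k₁) + C a * (h - k₂)) ∧
    ∀ x₀, PosFrom (C (1 - a) * (h - k₁) + C a * (h - k₂)) x₀ →
      PosFrom (h - k₁) x₀ ∨ PosFrom (h - k₂) x₀ := by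
  have hc := h₁.combo h₂ ha0 ha1
  have e : C (1 - a) * (h - k₁) + C a * (h - k₂) =
      h + C (-1) * (C (1 - a) * k₁ + C a * k₂) := by
    have : (C (1 - a) : ℝ[X]) = 1 - C a := by simp
    rw [this]
    simp only [C_neg, C_1]
    ring
  refine ⟨?_, ?_⟩
  · rw [e]; exact hc.rr (-1)
  · intro x₀ hpos
    have hpos' := hpos
    rw [e] at hpos'
    have hh : PosFrom h x₀ := by
      have h3 := (hc.shift (-1)).posFrom_add hpos' (t := 1) zero_le_one
      have e2 : h + C (-1) * (C (1 - a) * k₁ + C a * k₂) + C 1 * (C (1 - a) * k₁ + C a * k₂) = h := by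
        simp only [C_neg, C_1]
        ring
      rwa [e2] at h3
    have h0 := hpos x₀ le_rfl
    simp only [eval_add, eval_mul, eval_C] at h0
    by_cases h4 : 0 < (h - k₁).eval x₀
    · exact Or.inl (h₁.posFrom_sub hh h4)
    · right
      apply h₂.posFrom_sub hh
      push Not at h4
      have h5 := mul_nonpos_of_nonneg_of_nonpos (sub_nonneg.mpr ha1) h4
      by_contra h6
      push Not at h6
      have h7 := mul_nonpos_of_nonneg_of_nonpos ha0 h6
      linarith

end Pool.Agent.Ramanujan
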