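import Pool.Agent.Ramanujan.Tree

/-!
Positivity of the continued fractions attached to the oriented edges for `x > ρ(G)`.
-/

open Matrix Equiv

namespace Pool.Agent.Ramanujan

namespace MGraph

variable {V E : Type} [DecidableEq V] [Fintype E] [DecidableEq E] (G : MGraph V E)

/-- Oriented edges leaving `v`. -/
def outd (v : V) : Finset (E × Bool) := Finset.univ.filter fun a => G.dsrc a = v

omit [DecidableEq E] in
lemma mem_outd {v : V} {a : E × Bool} : a ∈ G.outd v ↔ G.dsrc a = v := by simp [outd]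

/-- The truncated continued fraction of an oriented edge. -/
noncomputable def cf (x : ℝ) : ℕ → (E × Bool) → ℝ
  | 0, _ => 0
  | k + 1, a => (x - ∑ b ∈ (G.outd (G.dtgt a)).erase (rv a), cf x k b)⁻¹

/-- The weight of a reduced word. -/
noncomputable def wt (x : ℝ) (k : ℕ) (A : Finset (E × Bool)) : List (E × Bool) → ℝ
  | [] => 1
  | [a] => if rv a ∈ A then G.cf x k (rv a) else 0
  | a :: b :: L => G.cf x (k - (L.length + 1)) (rv a) * wt x k A (b :: L)

variable {G}

lemma wt_length {x : ℝ} {k : ℕ} {A : Finset (E × Bool)} {W : List (E × Bool)}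
    (h : G.wt x k A W ≠ 0) : W.length ≤ k := by
  rcases W with _ | ⟨a, _ | ⟨b, L⟩⟩
  · simp
  · rcases k with _ | k
    · exfalso; apply h; simp [wt, cf]
    · simp
  · have h1 : G.cf x (k - (L.length + 1)) (rv a) ≠ 0 := left_ne_zero_of_mul h
    have h2 : k - (L.length + 1) ≠ 0 := by
      intro h3; rw [h3] at h1; exact h1 rfl
    simp only [List.length_cons]
    omega

lemma wt_cons {x : ℝ} {k : ℕ} {A : Finset (E × Bool)} {a : E × Bool} {L : List (E × Bool)}
    (h : G.wt x k A (a :: L) ≠ 0) :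
    G.wt x k A (a :: L) = G.cf x (k - L.length) (rv a) * G.wt x k A L := by
  rcases L with _ | ⟨b, L⟩
  · unfold wt at h ⊢
    have : rv a ∈ A := by
      by_contra hcon; rw [if_neg hcon] at h; exact h rfl
    rw [if_pos this]
    simp
  · rfl

omit [Fintype E] in
lemma reduce_step {b : E × Bool} {W : List (E × Bool)}
    (hW : FreeGroup.reduce W = W) : FreeGroup.reduce (rv b :: W) =
      match W with
      | [] => [rv b]
      | hd :: tl => if b = hd then tl else rv b :: hd :: tl := by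
  rw [FreeGroup.reduce.cons, hW]
  rcases W with _ | ⟨hd, tl⟩
  · rfl
  · simp only
    congr 1
    rw [eq_iff_iff]
    constructor
    · rintro ⟨h1, h2⟩
      obtain ⟨e, c⟩ := b
      obtain ⟨e', c'⟩ := hd
      simp only [rv] at h1 h2
      subst h1
      simpa using h2
    · rintro rfl
      simp [rv]

theorem star_pos [Fintype V] {v₀ : V} (hconn : G.Connected) {x : ℝ} (hx : G.rho v₀ < x) (k : ℕ)
    (ih : ∀ j < k, ∀ a : E × Bool, 0 < x - ∑ b ∈ (G.outd (G.dtgt a)).erase (rv a), G.cf x j b)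
    (v : V) (A : Finset (E × Bool)) (hA : A ⊆ G.outd v) : 0 < x - ∑ b ∈ A, G.cf x k b := by
  classical
  obtain ⟨L₀, hL₀⟩ := hconn v v₀
  set h : FreeGroup E := FreeGroup.mk L₀ with hh
  set p₀ : G.TreeVertex v₀ := ⟨(v, h), L₀, hL₀, rfl⟩ with hp₀
  set word : G.TreeVertex v₀ → List (E × Bool) := fun q => (q.1.2 * h⁻¹).toWord with hword
  have hred : ∀ q, FreeGroup.reduce (word q) = word q := fun q => FreeGroup.reduce_toWord _
  have hwalk : ∀ q, G.IsWalk q.1.1 (word q) v := by
    intro q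
    obtain ⟨⟨u, g⟩, L, hL, hg⟩ := q
    simp only at hg
    simp only [hword]
    have e1 : g * h⁻¹ = FreeGroup.mk (L ++ FreeGroup.invRev L₀) := by
      rw [hg, hh, FreeGroup.inv_mk, FreeGroup.mul_mk]
    rw [e1, FreeGroup.toWord_mk]
    exact (hL.append hL₀.invRev).reduce
  have hstep : ∀ q (b : E × Bool) (hb : G.dsrc b = q.1.1), word (q.step b hb) =
      FreeGroup.reduce (rv b :: word q) := by
    intro q b hb
    simp only [hword]
    have e1 : (q.step b hb).1.2 * h⁻¹ = FreeGroup.mk (rv b :: (q.1.2 * h⁻¹).toWord) := by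
      change (FreeGroup.mk [b])⁻¹ * q.1.2 * h⁻¹ = _
      rw [← mk_rv, mul_assoc]
      conv_lhs => rw [← FreeGroup.mk_toWord (x := q.1.2 * h⁻¹)]
      rw [FreeGroup.mul_mk]
      rfl
    rw [e1, FreeGroup.toWord_mk]
  have hword0 : ∀ q, word q = [] ↔ q = p₀ := by
    intro q
    constructor
    · intro hq
      have h1 := hwalk q
      rw [hq] at h1
      have h2 : q.1.2 * h⁻¹ = 1 := FreeGroup.toWord_eq_nil_iff.mp hq
      apply Subtype.ext
      apply Prod.ext
      · exact h1
      · exact mul_inv_eq_one.mp h2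
    · rintro rfl
      simp [hword, hp₀]
  -- the test function
  set g₀ : G.TreeVertex v₀ → ℂ := fun q => ((G.wt x k A (word q) : ℝ) : ℂ) with hg₀
  have hfin : (Function.support g₀).Finite := by
    have h1 : ((Set.univ : Set V) ×ˢ {L : List (E × Bool) | L.length ≤ k}).Finite :=
      Set.finite_univ.prod (List.finite_length_le _ _)
    apply Set.Finite.of_finite_image (f := fun q : G.TreeVertex v₀ => (q.1.1, word q))
    · apply h1.subset
      rintro _ ⟨q, hq, rfl⟩
      refine ⟨Set.mem_univ _, ?_⟩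
      have : G.wt x k A (word q) ≠ 0 := by
        intro h0; apply hq; simp [hg₀, h0]
      exact wt_length this
    · intro q _ q' _ hqq
      simp only [Prod.mk.injEq] at hqq
      apply Subtype.ext
      apply Prod.ext
      · exact hqq.1
      · have := FreeGroup.toWord_injective hqq.2
        exact mul_right_cancel this
  have hmem : Memℓp g₀ 2 := by
    apply memℓp_gen
    apply summable_of_hasFiniteSupport
    apply hfin.subset
    intro q hq h0
    apply hq
    simp only [Function.mem_support, ne_eq, not_not] at *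
    rw [h0]; simp
  set g : G.TreeL2 v₀ := Subtype.mk g₀ hmem with hg
  have hgq : ∀ q, g.fn q = g₀ q := fun q => rfl
  have hgne : g ≠ 0 := by
    intro h0
    have h1 : g.fn p₀ = 0 := by rw [h0]; rfl
    rw [hgq, hg₀] at h1
    simp only [(hword0 p₀).mpr rfl, wt] at h1
    norm_num at h1
  -- action of the adjacency operator
  have hact : ∀ q, (G.treeAdj v₀ g).fn q =
      ((∑ b ∈ G.outd q.1.1, G.wt x k A (FreeGroup.reduce (rv b :: word q)) : ℝ) : ℂ) := by
    intro q
    rw [treeAdj_apply]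
    unfold outd
    rw [Finset.sum_filter]
    push_cast
    apply Finset.sum_congr rfl
    intro b _
    unfold shiftFun
    by_cases hb : G.dsrc b = q.1.1
    · rw [dif_pos hb, if_pos hb, hgq, hg₀]
      simp only
      rw [hstep]
    · rw [dif_neg hb, if_neg hb]; simp
  have hzero : ∀ q, q ≠ p₀ → G.wt x k A (word q) * (x * G.wt x k A (word q) -
      ∑ b ∈ G.outd q.1.1, G.wt x k A (FreeGroup.reduce (rv b :: word q))) = 0 := by
    intro q hq
    by_cases hw : G.wt x k A (word q) = 0
    · rw [hw, zero_mul]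
    · have hne : word q ≠ [] := fun h1 => hq ((hword0 q).mp h1)
      obtain ⟨hd, tl, hW⟩ : ∃ hd tl, word q = hd :: tl := by
        rcases hL : word q with _ | ⟨hd, tl⟩
        · exact absurd hL hne
        · exact ⟨hd, tl, rfl⟩
      have hwk := hwalk q
      have hrd := hred q
      rw [hW] at hw hwk hrd ⊢
      have hhd : G.dsrc hd = q.1.1 := hwk.1
      have hhd' : hd ∈ G.outd q.1.1 := (G.mem_outd).mpr hhd
      have hlen := wt_length hw
      simp only [List.length_cons] at hlen
      have hcons := wt_cons hw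
      rw [← Finset.add_sum_erase _ _ hhd']
      have e1 : FreeGroup.reduce (rv hd :: hd :: tl) = tl := by
        rw [reduce_step hrd]; simp
      have e2 : ∀ b ∈ (G.outd q.1.1).erase hd, G.wt x k A (FreeGroup.reduce (rv b :: hd :: tl)) =
          G.cf x (k - (tl.length + 1)) b * G.wt x k A (hd :: tl) := by
        intro b hb
        rw [reduce_step hrd]
        simp only
        rw [if_neg (Finset.ne_of_mem_erase hb)]
        change G.cf x (k - (tl.length + 1)) (rv (rv b)) * G.wt x k A (hd :: tl) = _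
        rw [rv_rv]
      rw [e1, Finset.sum_congr rfl e2, ← Finset.sum_mul]
      set j := k - (tl.length + 1) with hj
      have hj1 : k - tl.length = j + 1 := by omega
      have hih := ih j (by omega) (rv hd)
      rw [dtgt_rv, rv_rv, hhd] at hih
      have hcf : G.cf x (k - tl.length) (rv hd) = (x - ∑ b ∈ (G.outd q.1.1).erase hd,
          G.cf x j b)⁻¹ := by
        rw [hj1]
        change (x - ∑ b ∈ (G.outd (G.dtgt (rv hd))).erase (rv (rv hd)), G.cf x j b)⁻¹ = _
        rw [dtgt_rv, rv_rv, hhd]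
      rw [hcf] at hcons
      have h3 : G.wt x k A tl = (x - ∑ b ∈ (G.outd q.1.1).erase hd, G.cf x j b) *
          G.wt x k A (hd :: tl) := by
        rw [hcons, ← mul_assoc, mul_inv_cancel₀ hih.ne', one_mul]
      rw [h3]; ring
  -- the quadratic form
  have hquad : @inner ℂ (G.TreeL2 v₀) InnerProductSpace.toInner g ((x : ℂ) • g - G.treeAdj v₀ g) = ((x - ∑ b ∈ A, G.cf x k b : ℝ) : ℂ) := by
    rw [TreeL2.inner_eq, tsum_eq_single p₀]
    · have h1 : ((x : ℂ) • g - G.treeAdj v₀ g).fn p₀ =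
          ((x : ℂ) * g.fn p₀ - (G.treeAdj v₀ g).fn p₀) := rfl
      rw [h1, hact, hgq, hg₀]
      simp only [(hword0 p₀).mpr rfl]
      have e3 : ∑ b ∈ G.outd p₀.1.1, G.wt x k A (FreeGroup.reduce [rv b]) =
          ∑ b ∈ A, G.cf x k b := by
        have e4 : ∀ b ∈ G.outd p₀.1.1, G.wt x k A (FreeGroup.reduce [rv b]) =
            if b ∈ A then G.cf x k b else 0 := by
          intro b _
          rw [reduce_step (W := []) rfl]
          change (if rv (rv b) ∈ A then G.cf x k (rv (rv b)) else 0) = _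
          rw [rv_rv]
        rw [Finset.sum_congr rfl e4, ← Finset.sum_filter]
        apply Finset.sum_congr
        · ext b
          rw [Finset.mem_filter]
          exact ⟨fun h => h.2, fun h => ⟨hA h, h⟩⟩
        · intro b _; rfl
      rw [e3]
      simp [wt]
    · intro q hq
      have h1 : ((x : ℂ) • g - G.treeAdj v₀ g).fn q =
          ((x : ℂ) * g.fn q - (G.treeAdj v₀ g).fn q) := rfl
      rw [h1, hact, hgq, hg₀]
      have h2 := hzero q hq
      simp only [RCLike.inner_apply, Complex.conj_ofReal]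
      have h3 : ((x : ℂ) * ((G.wt x k A (word q) : ℝ) : ℂ) -
          ((∑ b ∈ G.outd q.1.1, G.wt x k A (FreeGroup.reduce (rv b :: word q)) : ℝ) : ℂ)) *
          ((G.wt x k A (word q) : ℝ) : ℂ) = ((G.wt x k A (word q) * (x * G.wt x k A (word q) -
      ∑ b ∈ G.outd q.1.1, G.wt x k A (FreeGroup.reduce (rv b :: word q))) : ℝ) : ℂ) := by
        push_cast; ring
      rw [h3, h2]; simp
  have hre : (@inner ℂ (G.TreeL2 v₀) InnerProductSpace.toInner g ((x : ℂ) • g - G.treeAdj v₀ g)).re = x - ∑ b ∈ A, G.cf x k b := by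
    rw [hquad]; simp
  rw [← hre, inner_sub_right, inner_smul_right, inner_self_eq_norm_sq_to_K]
  have h5 : (@inner ℂ (G.TreeL2 v₀) InnerProductSpace.toInner g (G.treeAdj v₀ g)).re ≤ ‖G.treeAdj v₀‖ * ‖g‖ ^ 2 := by
    calc (@inner ℂ (G.TreeL2 v₀) InnerProductSpace.toInner g (G.treeAdj v₀ g)).re ≤ ‖@inner ℂ (G.TreeL2 v₀) InnerProductSpace.toInner g (G.treeAdj v₀ g)‖ := Complex.re_le_norm _
      _ ≤ ‖g‖ * ‖G.treeAdj v₀ g‖ := norm_inner_le_norm _ _
      _ ≤ ‖g‖ * (‖G.treeAdj v₀‖ * ‖g‖) := by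
        apply mul_le_mul_of_nonneg_left (ContinuousLinearMap.le_opNorm _ _) (norm_nonneg _)
      _ = ‖G.treeAdj v₀‖ * ‖g‖ ^ 2 := by ring
  have h6 : ‖G.treeAdj v₀‖ < x := by rw [← rho_eq_norm]; exact hx
  have h7 : 0 < ‖g‖ := norm_pos_iff.mpr hgne
  have h8 : ((x : ℂ) * ((‖g‖ : ℂ)) ^ 2).re = x * ‖g‖ ^ 2 := by
    have : (x : ℂ) * ((‖g‖ : ℂ)) ^ 2 = ((x * ‖g‖ ^ 2 : ℝ) : ℂ) := by push_cast; ring
    rw [this, Complex.ofReal_re]
  rw [Complex.sub_re]
  change 0 < ((x : ℂ) * ((‖g‖ : ℂ)) ^ 2).re - _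
  rw [h8]
  have h9 : ‖G.treeAdj v₀‖ * ‖g‖ ^ 2 < x * ‖g‖ ^ 2 := by
    apply mul_lt_mul_of_pos_right h6; positivity
  linarith

theorem edge_pos [Fintype V] {v₀ : V} (hconn : G.Connected) {x : ℝ} (hx : G.rho v₀ < x) (k : ℕ)
    (a : E × Bool) : 0 < x - ∑ b ∈ (G.outd (G.dtgt a)).erase (rv a), G.cf x k b := by
  induction k using Nat.strong_induction_on generalizing a with
  | _ k ih => exact star_pos hconn hx k ih (G.dtgt a) _ (Finset.erase_subset _ _)

theorem vertex_pos [Fintype V] {v₀ : V} (hconn : G.Connected) {x : ℝ} (hx : G.rho v₀ < x) (k : ℕ)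
    (v : V) : 0 < x - ∑ b ∈ G.outd v, G.cf x k b :=
  star_pos hconn hx k (fun j _ a => edge_pos hconn hx j a) v _ (Finset.Subset.refl _)

theorem cf_nonneg [Fintype V] {v₀ : V} (hconn : G.Connected) {x : ℝ} (hx : G.rho v₀ < x) (k : ℕ)
    (a : E × Bool) : 0 ≤ G.cf x k a := by
  rcases k with _ | k
  · exact le_refl _
  · exact (inv_pos.mpr (edge_pos hconn hx k a)).le

theorem cf_mul [Fintype V] {v₀ : V} (hconn : G.Connected) {x : ℝ} (hx : G.rho v₀ < x) (k : ℕ)
    (a : E × Bool) : G.cf x (k + 1) a *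
      (x - ∑ b ∈ (G.outd (G.dtgt a)).erase (rv a), G.cf x k b) = 1 :=
  inv_mul_cancel₀ (edge_pos hconn hx k a).ne'

end MGraph

end Pool.Agent.Ramanujan
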