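import Pool.Agent.Ramanujan.Iter
import Pool.Agent.Ramanujan.Loop
import Pool.Agent.Ramanujan.Matching
import Pool.Agent.Ramanujan.TreePos

/-!
The sum over signed permutations is positive.
-/

open Matrix Function Equiv

namespace Pool.Agent.Ramanujan

section Fibre

variable {V : Type*} [Fintype V] [DecidableEq V] {d : ℕ}

omit [Fintype V] in
lemma E_sum {β : Type*} (s : Finset β) (u v : V) (f : β → Matrix (Fin d) (Fin d) ℝ) :
    E u v (∑ b ∈ s, f b) = ∑ b ∈ s, E u v (f b) := by
  classical
  induction s using Finset.induction_on with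
  | empty => simp [E_zero]
  | insert a s ha ih => rw [Finset.sum_insert ha, Finset.sum_insert ha, E_add, ih]

omit [Fintype V] in
lemma E_single (u v : V) (i j : Fin d) (c : ℝ) :
    E u v (Matrix.single i j c) = Matrix.single (u, i) (v, j) c := by
  ext p q
  obtain ⟨p1, p2⟩ := p
  obtain ⟨q1, q2⟩ := q
  simp only [E, Matrix.single_apply, Prod.mk.injEq]
  by_cases h1 : p1 = u
  · by_cases h2 : q1 = v
    · simp [h1, h2]
    · simp [h1, h2, Ne.symm h2]
  · simp [h1, Ne.symm h1]

lemma signed_eq_sum (g : (Fin d → ℤˣ) × Perm (Fin d)) :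
    pm g.2 * sg g.1 = ∑ j, Matrix.single (g.2 j) j ((((g.1 j : ℤˣ) : ℤ) : ℝ)) := by
  ext a b
  rw [Matrix.sum_apply]
  unfold sg
  rw [mul_diagonal]
  simp only [pm, Matrix.single_apply]
  rw [Finset.sum_eq_single b]
  · by_cases h : a = g.2 b
    · simp [h]
    · simp [h, Ne.symm h]
  · intro c _ hc; simp [hc]
  · intro h; exact absurd (Finset.mem_univ _) h

/-- Next index. -/
def nxt (i : Fin d) : Fin d := if h : (i : ℕ) + 1 < d then ⟨i + 1, h⟩ else i

lemma pathAdj_eq_sum : pathAdj d = ∑ j : Fin d, if (j : ℕ) + 1 < d then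
    Matrix.single j (nxt j) (1 : ℝ) + Matrix.single (nxt j) j 1 else 0 := by
  ext a b
  rw [Matrix.sum_apply]
  have e : ∀ j : Fin d, (if (j : ℕ) + 1 < d then
      Matrix.single j (nxt j) (1 : ℝ) + Matrix.single (nxt j) j 1 else 0 :
      Matrix (Fin d) (Fin d) ℝ) a b =
      (if j = a then (if (a : ℕ) + 1 = b then (1 : ℝ) else 0) else 0) +
      (if j = b then (if (b : ℕ) + 1 = a then (1 : ℝ) else 0) else 0) := by
    intro j
    by_cases hj : (j : ℕ) + 1 < d
    · simp only [hj, if_true, Matrix.add_apply, Matrix.single_apply, nxt, dif_pos]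
      have h1 : (j = a ∧ (⟨(j : ℕ) + 1, hj⟩ : Fin d) = b) ↔ (j = a ∧ (a : ℕ) + 1 = b) := by
        constructor
        · rintro ⟨rfl, rfl⟩; exact ⟨rfl, rfl⟩
        · rintro ⟨rfl, h⟩; exact ⟨rfl, Fin.ext h⟩
      have h2 : ((⟨(j : ℕ) + 1, hj⟩ : Fin d) = a ∧ j = b) ↔ (j = b ∧ (b : ℕ) + 1 = a) := by
        constructor
        · rintro ⟨rfl, rfl⟩; exact ⟨rfl, rfl⟩
        · rintro ⟨rfl, h⟩; exact ⟨Fin.ext h, rfl⟩
      simp only [h1, h2, ← ite_and]
    · simp only [hj, if_false, Matrix.zero_apply]
      have h1 : ∀ c : Fin d, j = a → (a : ℕ) + 1 ≠ c := by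
        rintro c rfl h; apply hj; rw [h]; exact c.2
      have h2 : ∀ c : Fin d, j = b → (b : ℕ) + 1 ≠ c := by
        rintro c rfl h; apply hj; rw [h]; exact c.2
      by_cases ha : j = a
      · rw [if_pos ha, if_neg (h1 b ha)]
        by_cases hb : j = b
        · rw [if_pos hb, if_neg (h2 a hb)]; simp
        · rw [if_neg hb]; simp
      · rw [if_neg ha]
        by_cases hb : j = b
        · rw [if_pos hb, if_neg (h2 a hb)]; simp
        · rw [if_neg hb]; simp
  rw [Finset.sum_congr rfl fun j _ => e j, Finset.sum_add_distrib]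
  simp [pathAdj]

lemma conj_single (g : (Fin d → ℤˣ) × Perm (Fin d)) (i j : Fin d) :
    (pm g.2 * sg g.1) * Matrix.single i j (1 : ℝ) * (pm g.2 * sg g.1)ᵀ =
      Matrix.single (g.2 i) (g.2 j) ((((g.1 i * g.1 j : ℤˣ) : ℤ) : ℝ)) := by
  have h1 : ∀ k, (pm g.2 * sg g.1) *ᵥ Pi.single k 1 =
      Pi.single (g.2 k) ((((g.1 k : ℤˣ) : ℤ) : ℝ)) := by
    intro k
    ext a
    rw [mulVec_single_one]
    unfold sg
    simp only [Matrix.col_apply, mul_diagonal, pm, Pi.single_apply]
    by_cases h : a = g.2 k <;> simp [h]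
  have h2 : Matrix.single i j (1 : ℝ) = vecMulVec (Pi.single i 1) (Pi.single j 1) := by
    ext a b
    simp only [Matrix.single_apply, vecMulVec_apply, Pi.single_apply]
    by_cases ha : a = i
    · by_cases hb : b = j
      · simp [ha, hb]
      · simp [ha, hb, Ne.symm hb]
    · simp [ha, Ne.symm ha]
  rw [h2, mul_vecMulVec, vecMulVec_mul, ← mulVec_transpose, transpose_transpose, h1, h1]
  ext a b
  simp only [Matrix.single_apply, vecMulVec_apply, Pi.single_apply]
  by_cases ha : a = g.2 i
  · by_cases hb : b = g.2 j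
    · simp [ha, hb]
    · simp [ha, hb, Ne.symm hb]
  · simp [ha, Ne.symm ha]

lemma conj_loop (v : V) (g : (Fin d → ℤˣ) × Perm (Fin d)) :
    MB v g * E v v (pathAdj d) * (MB v g)ᵀ = ∑ j : Fin d, if (j : ℕ) + 1 < d then
      ((((g.1 j * g.1 (nxt j) : ℤˣ) : ℤ) : ℝ)) • Kab (v, g.2 j) (v, g.2 (nxt j)) else 0 := by
  unfold MB
  rw [U_mul_E, U_transpose, E_mul_U, pathAdj_eq_sum, Matrix.mul_sum, Matrix.sum_mul, E_sum]
  apply Finset.sum_congr rfl
  intro j _
  by_cases hj : (j : ℕ) + 1 < d
  · simp only [hj, if_true]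
    rw [Matrix.mul_add, Matrix.add_mul, conj_single, conj_single, E_add, E_single, E_single]
    unfold Kab
    rw [smul_add, Matrix.smul_single, Matrix.smul_single, smul_eq_mul, mul_one, mul_comm (g.1 j)]
  · simp only [hj, if_false]
    rw [Matrix.mul_zero, Matrix.zero_mul, E_zero]

lemma conj_nonloop {s t : V} (hst : s ≠ t) (R : Matrix (Fin d) (Fin d) ℝ) :
    U s R * (E s t 1 + E t s 1) * (U s R)ᵀ = E s t R + E t s Rᵀ := by
  rw [mul_add, add_mul, U_transpose, U_mul_E, U_mul_E_ne hst, E_mul_U_ne hst.symm, E_mul_U,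
    Matrix.mul_one, Matrix.one_mul]

lemma conj_nonloop_MB {s t : V} (hst : s ≠ t) (g : (Fin d → ℤˣ) × Perm (Fin d)) :
    MB s g * (E s t 1 + E t s 1) * (MB s g)ᵀ =
      ∑ j : Fin d, ((((g.1 j : ℤˣ) : ℤ) : ℝ)) • Kab (s, g.2 j) (t, j) := by
  unfold MB
  rw [conj_nonloop hst, signed_eq_sum, transpose_sum, E_sum, E_sum, ← Finset.sum_add_distrib]
  apply Finset.sum_congr rfl
  intro j _
  rw [Matrix.transpose_single, E_single, E_single]
  unfold Kab
  rw [smul_add, Matrix.smul_single, Matrix.smul_single, smul_eq_mul, mul_one]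

end Fibre

/-- Change of signs along a path. -/
def twist {d : ℕ} (ε : Fin d → ℤˣ) : Fin d → ℤˣ := fun j =>
  if (j : ℕ) + 1 < d then ε j * ε (nxt j) else ε j

lemma twist_injective (d : ℕ) : Injective (twist (d := d)) := by
  intro ε ε' h
  have key : ∀ (n : ℕ) (j : Fin d), d - 1 - (j : ℕ) = n → ε j = ε' j := by
    intro n
    induction n with
    | zero =>
      intro j hj
      have hj' : ¬ ((j : ℕ) + 1 < d) := by omega
      have := congrFun h j
      simpa [twist, hj'] using this
    | succ n ih =>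
      intro j hj
      have hj' : ((j : ℕ) + 1 < d) := by omega
      have h1 := congrFun h j
      simp only [twist, hj', if_true] at h1
      have h2 : ε (nxt j) = ε' (nxt j) := by
        apply ih
        simp only [nxt, hj', dif_pos]
        omega
      rw [h2] at h1
      exact mul_right_cancel h1
  funext j
  exact key _ j rfl

lemma twist_bijective (d : ℕ) : Bijective (twist (d := d)) :=
  Finite.injective_iff_bijective.mp (twist_injective d)

section Main

variable {V E : Type} [Fintype V] [DecidableEq V] [Fintype E] [DecidableEq E] (G : MGraph V E)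

/-- The family of matrices to which the sign average is applied. -/
def XT (d : ℕ) : E → Matrix (V × Fin d) (V × Fin d) ℝ := fun e =>
  if G.src e = G.tgt e then - Ramanujan.E (G.src e) (G.src e) (pathAdj d)
  else - (Ramanujan.E (G.src e) (G.tgt e) 1 + Ramanujan.E (G.tgt e) (G.src e) 1)

variable {G}

theorem signs_pos {v₀ : V} (hconn : G.Connected) {x : ℝ} (hx : G.rho v₀ < x) (d : ℕ)
    (π : E → Perm (Fin d)) : 0 < ∑ ε : E → Fin d → ℤˣ, (x • (1 : Matrix (V × Fin d) (V × Fin d) ℝ) +
      ∑ e, MB (G.src e) (ε e, π e) * XT G d e * (MB (G.src e) (ε e, π e))ᵀ).det := by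
  classical
  set a : E × Fin d → V × Fin d := fun h => (G.src h.1, π h.1 h.2) with ha
  set b : E × Fin d → V × Fin d := fun h =>
    (G.tgt h.1, if G.src h.1 = G.tgt h.1 then π h.1 (nxt h.2) else h.2) with hb
  set P : E × Fin d → Prop := fun h => G.src h.1 ≠ G.tgt h.1 ∨ (h.2 : ℕ) + 1 < d with hP
  have hab : ∀ h, P h → a h ≠ b h := by
    rintro ⟨e, i⟩ hPh heq
    simp only [ha, hb, Prod.mk.injEq] at heq
    obtain ⟨h1, h2⟩ := heq
    rcases hPh with h3 | h3
    · exact h3 h1
    · rw [if_pos h1] at h2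
      have h4 := (π e).injective h2
      have h5 := congrArg Fin.val h4
      simp only at h3
      simp only [nxt, h3, dif_pos] at h5
      omega
  set f : ℕ → E × Bool → ℝ := fun k e => G.cf x k e with hf
  set out : V × Fin d → Finset (E × Bool) := fun w => G.outd w.1 with hout
  set Φ : E × Fin d → Bool → E × Bool := fun h β => (h.1, β) with hΦ
  have key := (Ex_pos a b P hab x f (fun k e => MGraph.cf_nonneg hconn hx k e) out Φ ?_ ?_ ?_ ?_
    _ Finset.univ rfl).1
  · -- identify the sums
    set θ : (E → Fin d → ℤˣ) → (E × Fin d → ℤˣ) := fun ε h =>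
      if G.src h.1 = G.tgt h.1 then twist (ε h.1) h.2 else ε h.1 h.2 with hθ
    have hθb : Bijective θ := by
      have hinj : Injective θ := by
        intro ε ε' h
        funext e
        by_cases he : G.src e = G.tgt e
        · apply twist_injective
          funext i
          have := congrFun h (e, i)
          simpa [hθ, he] using this
        · funext i
          have := congrFun h (e, i)
          simpa [hθ, he] using this
      rw [Fintype.bijective_iff_injective_and_card]
      refine ⟨hinj, ?_⟩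
      exact Fintype.card_congr (Equiv.curry E (Fin d) ℤˣ).symm
    have hDr : ∀ Y : Matrix (V × Fin d) (V × Fin d) ℝ, Dr Y Finset.univ = Y.det := by
      intro Y
      unfold Dr
      congr 1
      ext i j
      simp
    unfold Ex at key
    rw [← hθb.sum_comp] at key
    convert key using 2 with ε
    rw [hDr, sub_eq_add_neg]
    congr 2
    unfold sumK
    rw [Fintype.sum_prod_type, ← Finset.sum_neg_distrib]
    apply Finset.sum_congr rfl
    intro e _
    by_cases he : G.src e = G.tgt e
    · simp only [XT, he, if_true]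
      rw [mul_neg, neg_mul, ← he, conj_loop]
      congr 1
      apply Finset.sum_congr rfl
      intro i _
      by_cases hi : (i : ℕ) + 1 < d
      · have hPi : P (e, i) := Or.inr hi
        rw [if_pos hi, if_pos hPi]
        simp only [hθ, ha, hb, he, if_true, twist, hi]
      · have hPi : ¬ P (e, i) := by
          rintro (h | h)
          · exact h he
          · exact hi h
        rw [if_neg hi, if_neg hPi]
    · simp only [XT, he, if_false]
      rw [mul_neg, neg_mul, conj_nonloop_MB he]
      congr 1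
      apply Finset.sum_congr rfl
      intro i _
      have hPi : P (e, i) := Or.inl he
      rw [if_pos hPi]
      simp only [hθ, ha, hb, he, if_false]
  · -- hΦ
    rintro ⟨e, i⟩ β _
    rw [hout]
    simp only
    rw [MGraph.mem_outd]
    cases β <;> rfl
  · -- injectivity
    rintro ⟨e, i⟩ β ⟨e', i'⟩ β' hP1 hP2 h1 h2
    simp only [hΦ, Prod.mk.injEq] at h2
    obtain ⟨rfl, rfl⟩ := h2
    refine ⟨?_, rfl⟩
    congr 1
    cases β
    · simp only [lsrc, hb, Prod.mk.injEq, true_and, Bool.false_eq_true, if_false] at h1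
      by_cases he : G.src e = G.tgt e
      · simp only [he, if_true] at h1
        have h3 : (i : ℕ) + 1 < d := hP1.resolve_left fun h => h he
        have h4 : (i' : ℕ) + 1 < d := hP2.resolve_left fun h => h he
        have h5 := congrArg Fin.val ((π e).injective h1)
        simp only [nxt, h3, h4, dif_pos] at h5
        exact Fin.ext (by omega)
      · simpa [he] using h1
    · simp only [lsrc, ha, Prod.mk.injEq, true_and, if_true] at h1
      exact (π e).injective h1
  · -- T1
    rintro k ⟨e, i⟩ β _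
    have e1 : (ltgt a b (e, i) β).1 = G.dtgt (Φ (e, i) β) := by cases β <;> rfl
    have e2 : Φ (e, i) (!β) = MGraph.rv (Φ (e, i) β) := rfl
    simp only [hout, e1, e2, hf]
    exact ⟨MGraph.edge_pos hconn hx k _, MGraph.cf_mul hconn hx k _⟩
  · -- T2
    intro k w
    exact MGraph.vertex_pos hconn hx k w.1

end Main

end Pool.Agent.Ramanujan
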