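import Pool.Agent.Ramanujan.Fibre

/-!
The standard representation of the symmetric group in orthonormal coordinates, and the quadrature
theorem.
-/

open Matrix Function Equiv

namespace Pool.Agent.Ramanujan

/-- `Q` is an isometry of `ℝ^d` onto the orthogonal complement of the all one vector. -/
structure IsStd {d : ℕ} (Q : Matrix (Fin (d + 1)) (Fin d) ℝ) : Prop where
  tQ : Qᵀ * Q = 1
  Qt : Q * Qᵀ = 1 - ((d + 1 : ℕ) : ℝ)⁻¹ • Matrix.of (fun _ _ => (1 : ℝ))

theorem exists_std (d : ℕ) : ∃ Q : Matrix (Fin (d + 1)) (Fin d) ℝ, IsStd Q := by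
  set r : ℝ := ((d + 1 : ℕ) : ℝ) with hr
  have hr0 : 0 < r := by rw [hr]; positivity
  set q0 : EuclideanSpace ℝ (Fin (d + 1)) := WithLp.toLp 2 (fun _ => (Real.sqrt r)⁻¹) with hq0
  have hs : Real.sqrt r * Real.sqrt r = r := Real.mul_self_sqrt hr0.le
  have hs0 : Real.sqrt r ≠ 0 := by positivity
  have hnorm : ‖q0‖ = 1 := by
    rw [EuclideanSpace.norm_eq, hq0]
    simp only [Real.norm_eq_abs, sq_abs, Finset.sum_const, Finset.card_univ, Fintype.card_fin,
      nsmul_eq_mul]
    rw [Real.sqrt_eq_one, ← hr, inv_pow, pow_two, hs, mul_inv_cancel₀ hr0.ne']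
  have hon : Orthonormal ℝ (({0} : Set (Fin (d + 1))).domRestrict
      (fun _ : Fin (d + 1) => q0)) := by
    constructor
    · intro i; exact hnorm
    · intro i j hij
      exfalso; apply hij
      exact Subsingleton.elim _ _
  obtain ⟨b, hb⟩ := hon.exists_orthonormalBasis_extension_of_card_eq (by simp)
  have hb0 : b 0 = q0 := hb 0 (by simp)
  set O : Matrix (Fin (d + 1)) (Fin (d + 1)) ℝ := Matrix.of fun i j => b j i with hO
  have hOO : Oᵀ * O = 1 := by
    ext i j
    rw [Matrix.mul_apply, Matrix.one_apply]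
    have := (orthonormal_iff_ite.mp b.orthonormal) i j
    rw [PiLp.inner_apply] at this
    simp only [RCLike.inner_apply, conj_trivial] at this
    rw [← this]
    exact Finset.sum_congr rfl fun k _ => by simp only [transpose_apply, hO, Matrix.of_apply]; ring
  have hOO' : O * Oᵀ = 1 := mul_eq_one_comm.mp hOO
  refine ⟨Matrix.of fun i j => O i j.succ, ?_, ?_⟩
  · ext i j
    have := congrFun (congrFun hOO i.succ) j.succ
    rw [Matrix.mul_apply] at this ⊢
    simp only [transpose_apply, Matrix.of_apply] at this ⊢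
    rw [this, Matrix.one_apply, Matrix.one_apply]
    simp [Fin.succ_inj]
  · ext i j
    have := congrFun (congrFun hOO' i) j
    rw [Matrix.mul_apply, Fin.sum_univ_succ] at this
    simp only [transpose_apply] at this
    have h0 : O i 0 * O j 0 = r⁻¹ := by
      simp only [hO, Matrix.of_apply, hb0, hq0]
      rw [← mul_inv, hs]
    rw [h0] at this
    rw [Matrix.mul_apply]
    simp only [transpose_apply, Matrix.sub_apply, Matrix.smul_apply, Matrix.of_apply, smul_eq_mul,
      mul_one]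
    have h9 : ((d + 1 : ℕ) : ℝ)⁻¹ = r⁻¹ := rfl
    linarith

section

variable {d : ℕ} {Q : Matrix (Fin (d + 1)) (Fin d) ℝ} (hQ : IsStd Q)

include hQ in
lemma IsStd.colsum (j : Fin d) : ∑ a, Q a j = 0 := by
  set J : Matrix (Fin (d + 1)) (Fin (d + 1)) ℝ := Matrix.of (fun _ _ => (1 : ℝ)) with hJ
  have hJJ : J * J = ((d + 1 : ℕ) : ℝ) • J := by
    ext a b; simp [hJ, Matrix.mul_apply]
  have hr0 : ((d + 1 : ℕ) : ℝ) ≠ 0 := by positivity
  have h1 : Qᵀ * J = 0 := by
    have : Qᵀ * J = Qᵀ * (Q * Qᵀ) * J := by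
      rw [← Matrix.mul_assoc, hQ.tQ, Matrix.one_mul]
    rw [this, hQ.Qt, Matrix.mul_assoc, sub_mul, one_mul, smul_mul_assoc, hJJ, smul_smul,
      inv_mul_cancel₀ hr0, one_smul, sub_self, Matrix.mul_zero]
  have := congrFun (congrFun h1 j) 0
  simpa [Matrix.mul_apply, hJ] using this

/-- The standard representation. -/
def stdRep (Q : Matrix (Fin (d + 1)) (Fin d) ℝ) (π : Perm (Fin (d + 1))) :
    Matrix (Fin d) (Fin d) ℝ := Qᵀ * pm π * Q

include hQ in
lemma stdRep_one : stdRep Q 1 = 1 := by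
  unfold stdRep; rw [pm_one, Matrix.mul_one, hQ.tQ]

include hQ in
lemma stdRep_mul (π τ : Perm (Fin (d + 1))) : stdRep Q (π * τ) = stdRep Q π * stdRep Q τ := by
  unfold stdRep
  have h1 : Qᵀ * pm π * Q * (Qᵀ * pm τ * Q) = Qᵀ * pm π * (Q * Qᵀ) * pm τ * Q := by
    simp only [Matrix.mul_assoc]
  rw [h1, hQ.Qt, Matrix.mul_sub, Matrix.mul_one, Matrix.sub_mul, Matrix.sub_mul, pm_mul,
    Matrix.mul_smul, Matrix.smul_mul, Matrix.smul_mul]
  have h2 : Qᵀ * pm π * (Matrix.of (fun _ _ => (1 : ℝ)) :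
      Matrix (Fin (d + 1)) (Fin (d + 1)) ℝ) * pm τ * Q = 0 := by
    have h3 : (Matrix.of (fun _ _ => (1 : ℝ)) : Matrix (Fin (d + 1)) (Fin (d + 1)) ℝ) * (pm τ * Q)
        = 0 := by
      ext a j
      rw [Matrix.mul_apply]
      simp only [Matrix.of_apply, one_mul, Matrix.zero_apply]
      have : ∀ x, (pm τ * Q) x j = Q (τ⁻¹ x) j := by
        intro x
        rw [Matrix.mul_apply, Finset.sum_eq_single (τ⁻¹ x)]
        · simp [pm]
        · intro b _ hb
          have : x ≠ τ b := by
            intro h; apply hb; rw [h]; simp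
          simp [pm, this]
        · intro h; exact absurd (Finset.mem_univ _) h
      rw [Finset.sum_congr rfl fun x _ => this x]
      rw [Equiv.sum_comp τ⁻¹ (fun x => Q x j)]
      exact hQ.colsum j
    rw [Matrix.mul_assoc, Matrix.mul_assoc, Matrix.mul_assoc, h3, Matrix.mul_zero,
      Matrix.mul_zero]
  rw [h2, smul_zero, sub_zero]
  simp only [Matrix.mul_assoc]

omit hQ in
lemma stdRep_transpose (π : Perm (Fin (d + 1))) : (stdRep Q π)ᵀ = stdRep Q π⁻¹ := by
  unfold stdRep
  rw [transpose_mul, transpose_mul, transpose_transpose, pm_transpose, Matrix.mul_assoc]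

include hQ in
lemma stdRep_orth (π : Perm (Fin (d + 1))) : stdRep Q π * (stdRep Q π)ᵀ = 1 := by
  rw [stdRep_transpose, ← stdRep_mul hQ, mul_inv_cancel, stdRep_one hQ]

include hQ in
lemma IsStd.gram (a b : Fin (d + 1)) : (fun k => Q a k) ⬝ᵥ (fun k => Q b k) =
    (if a = b then 1 else 0) - ((d + 1 : ℕ) : ℝ)⁻¹ := by
  have := congrFun (congrFun hQ.Qt a) b
  rw [Matrix.mul_apply] at this
  simp only [transpose_apply, Matrix.sub_apply, Matrix.smul_apply, Matrix.of_apply, smul_eq_mul,
      mul_one, Matrix.one_apply] at this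
  exact this

include hQ in
lemma stdRep_swap {a b : Fin (d + 1)} (hab : a ≠ b) :
    stdRep Q (swap a b) = 1 - vecMulVec ((fun k => Q a k) - fun k => Q b k)
      ((fun k => Q a k) - fun k => Q b k) := by
  unfold stdRep
  rw [pm_swap hab, Matrix.mul_sub, Matrix.sub_mul, Matrix.mul_one, hQ.tQ, mul_vecMulVec,
    vecMulVec_mul]
  have h1 : Qᵀ *ᵥ (Pi.single a 1 - Pi.single b 1) = (fun k => Q a k) - fun k => Q b k := by
    rw [mulVec_sub, mulVec_single_one, mulVec_single_one]
    ext k; simp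
  have h2 : (Pi.single a 1 - Pi.single b 1) ᵥ* Q = (fun k => Q a k) - fun k => Q b k := by
    rw [← mulVec_transpose, h1]
  rw [h1, h2]

include hQ in
lemma IsStd.diff_dot {a b : Fin (d + 1)} (hab : a ≠ b) :
    ((fun k => Q a k) - fun k => Q b k) ⬝ᵥ ((fun k => Q a k) - fun k => Q b k) = 2 := by
  rw [sub_dotProduct, dotProduct_sub, dotProduct_sub, hQ.gram, hQ.gram, hQ.gram, hQ.gram]
  simp [hab, hab.symm]; ring

variable {V : Type*} [Fintype V] [DecidableEq V]

/-- The representation on the fibre over `v`. -/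
def rep (hQ : IsStd Q) (v : V) : Perm (Fin (d + 1)) →* Matrix (V × Fin d) (V × Fin d) ℝ where
  toFun π := U v (stdRep Q π)
  map_one' := by rw [stdRep_one hQ, U_one]
  map_mul' π τ := by rw [stdRep_mul hQ, U_mul]

lemma rep_apply (v : V) (π : Perm (Fin (d + 1))) : rep hQ v π = U v (stdRep Q π) := rfl

lemma rep_orth (v : V) (π : Perm (Fin (d + 1))) : rep hQ v π * (rep hQ v π)ᵀ = 1 :=
  U_orth v (stdRep_orth hQ π)

lemma refl_emb (v : V) {x : Fin d → ℝ} (hx : x ⬝ᵥ x = 2) : refl (emb v x) = U v (refl x) := by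
  rw [← hh_eq_refl hx, ← hh_emb, hh_eq_refl (by rw [emb_dot]; exact hx)]

lemma rep_swap (v : V) {a b : Fin (d + 1)} (hab : a ≠ b) :
    rep hQ v (swap a b) = refl (emb v ((fun k => Q a k) - fun k => Q b k)) := by
  rw [rep_apply, stdRep_swap hQ hab, refl_emb v (hQ.diff_dot hab)]
  rfl

lemma rep_swap' (v : V) (a b : Fin (d + 1)) (hab : a ≠ b) :
    ∃ u : V × Fin d → ℝ, u ⬝ᵥ u = 2 ∧ rep hQ v (swap a b) = refl u :=
  ⟨_, by rw [emb_dot]; exact hQ.diff_dot hab, rep_swap hQ v hab⟩

include hQ in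
/-- The average over the symmetric group is invariant under the whole orthogonal group of the
fibre. -/
theorem inv_rep (v : V) {A : Matrix (Fin d) (Fin d) ℝ} (hA : A * Aᵀ = 1) :
    Inv (fun π => rep hQ v π) (U v A) := by
  have hM := rep_orth hQ v
  refine Inv.all_orthogonal v ?_ _ A hA rfl
  intro y
  set w : Fin (d + 1) → V × Fin d → ℝ := fun a => emb v (fun k => Q a k) with hw
  have hgram : ∀ a b, w a ⬝ᵥ w b = (if a = b then 1 else 0) - ((d + 1 : ℕ) : ℝ)⁻¹ := by
    intro a b; rw [hw]; simp only [emb_dot]; exact hQ.gram a b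
  have hroots : ∀ a b, a ≠ b → Inv (fun π => rep hQ v π) (hh (w a - w b)) := by
    intro a b hab
    have e1 : hh (w a - w b) = rep hQ v (swap a b) := by
      rw [rep_swap hQ v hab, hw]
      simp only
      rw [← emb_sub, hh_eq_refl (by rw [emb_dot]; exact hQ.diff_dot hab)]
    rw [e1]
    exact Inv.of_equiv (Equiv.mulRight (swap a b)) fun g => by
      simp only [Equiv.coe_mulRight, map_mul]
  have key := Inv.frame hM hgram hroots _ (Q *ᵥ y) rfl (by
    have : ∑ a, (Q *ᵥ y) a = ∑ j, (∑ a, Q a j) * y j := by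
      simp only [mulVec, dotProduct]
      rw [Finset.sum_comm]
      exact Finset.sum_congr rfl fun j _ => by rw [Finset.sum_mul]
    rw [this]
    exact Finset.sum_eq_zero fun j _ => by rw [hQ.colsum j, zero_mul])
  have e2 : comb w (Q *ᵥ y) = emb v y := by
    unfold comb
    simp only [hw, ← emb_smul]
    rw [← emb_sum]
    congr 1
    have h1 : y = Qᵀ *ᵥ (Q *ᵥ y) := by
      rw [mulVec_mulVec, hQ.tQ, one_mulVec]
    conv_rhs => rw [h1]
    ext k
    simp only [Finset.sum_apply, Pi.smul_apply, smul_eq_mul]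
    rw [mulVec, dotProduct]
    exact Finset.sum_congr rfl fun a _ => by rw [transpose_apply]; ring
  rwa [e2] at key

/-- Signed permutation matrices on the fibre over `v`. -/
def MB (v : V) (g : (Fin d → ℤˣ) × Perm (Fin d)) : Matrix (V × Fin d) (V × Fin d) ℝ :=
  U v (pm g.2 * sg g.1)

lemma signed_orth (g : (Fin d → ℤˣ) × Perm (Fin d)) :
    (pm g.2 * sg g.1) * (pm g.2 * sg g.1)ᵀ = 1 := by
  rw [transpose_mul, sg_transpose]
  have : pm g.2 * sg g.1 * (sg g.1 * (pm g.2)ᵀ) = pm g.2 * (sg g.1 * sg g.1) * (pm g.2)ᵀ := by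
    simp only [mul_assoc]
  rw [this, sg_sq, mul_one, pm_orth]

lemma MB_orth (v : V) (g : (Fin d → ℤˣ) × Perm (Fin d)) : MB v g * (MB v g)ᵀ = 1 :=
  U_orth v (signed_orth g)

/-- The average over signed permutations is invariant under the orthogonal group of the fibre. -/
theorem inv_MB (v : V) {A : Matrix (Fin d) (Fin d) ℝ} (hA : A * Aᵀ = 1) :
    Inv (fun g => MB v g) (U v A) := by
  have hM := MB_orth (d := d) v
  refine Inv.all_orthogonal v ?_ _ A hA rfl
  intro y
  set w : Fin d → V × Fin d → ℝ := fun a => emb v (Pi.single a 1) with hw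
  have hgram : ∀ a b, w a ⬝ᵥ w b = (if a = b then 1 else 0) := by
    intro a b; rw [hw]; simp only [emb_dot, single_dotProduct, one_mul, Pi.single_apply]
  have h1 : ∀ a, Inv (fun g => MB v g) (hh (w a)) := by
    intro a
    set δ : Fin d → ℤˣ := Function.update 1 a (-1) with hδ
    have e1 : hh (w a) = U v (sg δ) := by
      rw [hw]
      simp only
      rw [hh_emb]
      congr 1
      unfold hh sg
      ext i j
      have : (Pi.single a (1 : ℝ) : Fin d → ℝ) ⬝ᵥ Pi.single a 1 = 1 := by simp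
      rw [this]
      simp only [div_one, Matrix.sub_apply, Matrix.one_apply, Matrix.smul_apply, vecMulVec_apply,
        smul_eq_mul, diagonal_apply, hδ, Pi.single_apply, Function.update_apply, Pi.one_apply]
      by_cases hij : i = j
      · subst hij
        by_cases hia : i = a
        · subst hia; simp; norm_num
        · simp [hia]
      · by_cases hia : i = a
        · subst hia; simp [hij, Ne.symm hij]
        · simp [hij, hia]
    rw [e1]
    refine Inv.of_equiv (Equiv.prodCongr (Equiv.mulRight δ) (Equiv.refl _)) ?_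
    rintro ⟨ε, π⟩
    unfold MB
    simp only [Equiv.prodCongr_apply, Prod.map_apply, Equiv.coe_mulRight, Equiv.refl_apply]
    rw [U_mul, sg_mul, mul_assoc]
  have h2 : ∀ a b, a ≠ b → Inv (fun g => MB v g) (hh (w a - w b)) := by
    intro a b hab
    have e1 : hh (w a - w b) = U v (pm (swap a b)) := by
      rw [hw]
      simp only
      rw [← emb_sub, hh_emb, pm_swap hab, hh_eq_refl]
      · rfl
      · rw [sub_dotProduct, dotProduct_sub, dotProduct_sub]
        simp [hab, hab.symm]; norm_num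
    rw [e1]
    refine Inv.of_equiv (Equiv.prodCongr
      (Equiv.arrowCongr (swap a b) (Equiv.refl _)) (Equiv.mulRight (swap a b))) ?_
    rintro ⟨ε, π⟩
    unfold MB
    simp only [Equiv.prodCongr_apply, Prod.map_apply, Equiv.coe_mulRight]
    rw [U_mul, mul_assoc, sg_mul_pm, ← mul_assoc, ← pm_mul]
    congr 3
  have key := Inv.ortho hM hgram h1 h2 _ y rfl
  have e2 : comb w y = emb v y := by
    unfold comb
    simp only [hw, ← emb_smul]
    rw [← emb_sum]
    congr 1
    ext k
    simp [Finset.sum_apply, Pi.single_apply]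
  rwa [e2] at key

/-- Transposition on signed permutations. -/
def flipB : ((Fin d → ℤˣ) × Perm (Fin d)) ≃ ((Fin d → ℤˣ) × Perm (Fin d)) where
  toFun g := (g.1 ∘ ⇑(g.2⁻¹), g.2⁻¹)
  invFun g := (g.1 ∘ ⇑(g.2⁻¹), g.2⁻¹)
  left_inv := by rintro ⟨ε, π⟩; simp [Function.comp_def]
  right_inv := by rintro ⟨ε, π⟩; simp [Function.comp_def]

omit [Fintype V] in
lemma MB_flip (v : V) (g : (Fin d → ℤˣ) × Perm (Fin d)) : MB v (flipB g) = (MB v g)ᵀ := by
  obtain ⟨ε, π⟩ := g
  unfold MB flipB
  simp only [Equiv.coe_fn_mk]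
  rw [U_transpose, transpose_mul, sg_transpose, pm_transpose, sg_mul_pm]

/-- The quadrature theorem. -/
theorem quadrature (v : V) (Y B : Matrix (V × Fin d) (V × Fin d) ℝ) :
    (Fintype.card ((Fin d → ℤˣ) × Perm (Fin d)) : ℝ) *
      ∑ π, (Y + rep hQ v π * B * (rep hQ v π)ᵀ).det =
    (Fintype.card (Perm (Fin (d + 1))) : ℝ) * ∑ g, (Y + MB v g * B * (MB v g)ᵀ).det := by
  refine quad_general (M₁ := fun π => rep hQ v π) (M₂ := fun g => MB v g) (rep_orth hQ v)
    (MB_orth v) (fun g => inv_rep hQ v (signed_orth g)) (fun π => ?_) flipB (MB_flip v) Y B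
  rw [rep_apply, U_transpose]
  apply inv_MB
  rw [transpose_transpose]
  exact mul_eq_one_comm.mp (stdRep_orth hQ π)

end

end Pool.Agent.Ramanujan
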