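import Pool.Agent.Ramanujan.RealRooted

/-!
The class of polynomial valued functions of families of symmetric matrices which is closed under
averaging over random reflections (swaps), and the selection principle.
-/

open Polynomial Matrix Function

namespace Pool.Agent.Ramanujan

variable {ι N : Type*} [Fintype ι] [DecidableEq ι] [Fintype N] [DecidableEq N]

/-- All members of the family are symmetric. -/
def SymFam (X : ι → Matrix N N ℝ) : Prop := ∀ j, (X j).IsSymm

omit [Fintype ι] [Fintype N] [DecidableEq N] in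
lemma SymFam.update {X : ι → Matrix N N ℝ} (hX : SymFam X) (j : ι) {A : Matrix N N ℝ}
    (hA : A.IsSymm) : SymFam (Function.update X j A) := by
  intro i
  by_cases h : i = j
  · subst h; simpa using hA
  · simpa [h] using hX i

omit [Fintype N] [DecidableEq N] in
lemma isSymm_vecMulVec_self (v : N → ℝ) : (vecMulVec v v).IsSymm := by
  ext i j; simp [vecMulVec_apply, mul_comm]

structure Good (Φ : (ι → Matrix N N ℝ) → ℝ[X]) : Prop where
  monic : ∀ X, SymFam X → (Φ X).Monic
  deg : ∀ X, SymFam X → (Φ X).natDegree = Fintype.card N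
  rr : ∀ X, SymFam X → RR (Φ X)
  affine : ∀ X, SymFam X → ∀ (j : ι) (v : N → ℝ), v ≠ 0 → ∃ k : ℝ[X],
    k.degree < (Fintype.card N : ℕ) ∧ 0 < k.coeff (Fintype.card N - 1) ∧
    ∀ t : ℝ, Φ (update X j (X j + t • vecMulVec v v)) = Φ X + C t * k

omit [Fintype ι] in
lemma Good.pencil {Φ : (ι → Matrix N N ℝ) → ℝ[X]} (hΦ : Good Φ) {X : ι → Matrix N N ℝ}
    (hX : SymFam X) (j : ι) {v : N → ℝ} (hv : v ≠ 0) : ∃ k : ℝ[X], Pencil (Φ X) k ∧
    ∀ t : ℝ, Φ (update X j (X j + t • vecMulVec v v)) = Φ X + C t * k := by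
  obtain ⟨k, hk1, hk2, hk3⟩ := hΦ.affine X hX j v hv
  have hN : 0 < Fintype.card N := by
    rw [Fintype.card_pos_iff]
    by_contra hne
    rw [not_nonempty_iff] at hne
    exact hv (funext fun i => hne.elim i)
  have hd := hΦ.deg X hX
  refine ⟨k, ⟨hΦ.monic X hX, by omega, ?_, by rw [hd]; exact hk2, ?_⟩, hk3⟩
  · rw [degree_eq_natDegree (hΦ.monic X hX).ne_zero, hd]; exact hk1
  · intro t
    rw [← hk3 t]
    apply hΦ.rr
    apply hX.update
    exact (hX j).add ((isSymm_vecMulVec_self v).smul t)

omit [Fintype ι] in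
lemma Good.mono {Φ : (ι → Matrix N N ℝ) → ℝ[X]} (hΦ : Good Φ) {X : ι → Matrix N N ℝ}
    (hX : SymFam X) (j : ι) (v : N → ℝ) {t : ℝ} (ht : 0 ≤ t) {x₀ : ℝ} (h : PosFrom (Φ X) x₀) :
    PosFrom (Φ (update X j (X j + t • vecMulVec v v))) x₀ := by
  by_cases hv : v = 0
  · subst hv
    have : X j + t • vecMulVec (0 : N → ℝ) 0 = X j := by
      ext a b; simp [vecMulVec_apply]
    rw [this, update_eq_self]; exact h
  · obtain ⟨k, hk, hk2⟩ := hΦ.pencil hX j hv
    rw [hk2]
    exact hk.posFrom_add h ht

lemma Pencil.smul {f k : ℝ[X]} (h : Pencil f k) {c : ℝ} (hc : 0 < c) : Pencil f (C c * k) := by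
  refine ⟨h.monic, h.pos, ?_, ?_, ?_⟩
  · refine lt_of_le_of_lt (degree_mul_le _ _) ?_
    refine lt_of_le_of_lt (add_le_add_left degree_C_le _) ?_
    simpa using h.deg
  · rw [coeff_C_mul]; exact mul_pos hc h.lead
  · intro t
    have : C t * (C c * k) = C (t * c) * k := by rw [C_mul]; ring
    rw [this]; exact h.rr _

/-- The swap operator on the slot `j`. -/
noncomputable def swapOp (j : ι) (R : Matrix N N ℝ) (a : ℝ) (Φ : (ι → Matrix N N ℝ) → ℝ[X]) :
    (ι → Matrix N N ℝ) → ℝ[X] :=
  fun X => C (1 - a) * Φ X + C a * Φ (update X j (R * X j * R))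

/-- The reflection in the direction `u` with `u ⬝ᵥ u = 2`. -/
def refl (u : N → ℝ) : Matrix N N ℝ := 1 - vecMulVec u u

omit [Fintype N] in
lemma refl_symm (u : N → ℝ) : (refl u).IsSymm := by
  unfold refl
  exact isSymm_one.sub (isSymm_vecMulVec_self u)

lemma refl_mul_self {u : N → ℝ} (hu : u ⬝ᵥ u = 2) : refl u * refl u = 1 := by
  unfold refl
  rw [mul_sub, sub_mul, sub_mul, vecMulVec_mul_vecMulVec, hu]
  simp only [one_mul, mul_one]
  rw [vecMulVec_smul, two_smul]
  abel

lemma refl_conj {u : N → ℝ} (A : Matrix N N ℝ) (hA : A.IsSymm) :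
    refl u * A * refl u = A - vecMulVec u (A *ᵥ u) - vecMulVec (A *ᵥ u) u +
      (u ⬝ᵥ (A *ᵥ u)) • vecMulVec u u := by
  unfold refl
  have h1 : vecMulVec u u * A = vecMulVec u (A *ᵥ u) := by
    rw [vecMulVec_mul]
    congr 1
    rw [← mulVec_transpose, hA]
  have h2 : A * vecMulVec u u = vecMulVec (A *ᵥ u) u := by
    rw [mul_vecMulVec]
  have h3 : vecMulVec u (A *ᵥ u) * vecMulVec u u = (u ⬝ᵥ (A *ᵥ u)) • vecMulVec u u := by
    rw [vecMulVec_mul_vecMulVec, vecMulVec_smul, dotProduct_comm]
  rw [sub_mul, one_mul, h1, mul_sub, mul_one, sub_mul, h2, h3]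
  abel

/-- The decomposition of the change under a reflection. -/
lemma refl_conj_split {u : N → ℝ} (hu : u ⬝ᵥ u = 2) (A : Matrix N N ℝ) (hA : A.IsSymm) :
    ∃ a b : N → ℝ, a ≠ 0 ∧ b ≠ 0 ∧
      refl u * A * refl u = A + (1/2 : ℝ) • vecMulVec a a + (-(1/2) : ℝ) • vecMulVec b b := by
  set κ := u ⬝ᵥ (A *ᵥ u) with hκ
  set y : N → ℝ := A *ᵥ u - (κ / 2) • u with hy
  have hort : u ⬝ᵥ y = 0 := by
    rw [hy, dotProduct_sub, dotProduct_smul, hu, ← hκ]
    simp
  refine ⟨u - y, u + y, ?_, ?_, ?_⟩
  · intro h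
    have : u ⬝ᵥ (u - y) = 0 := by rw [h]; simp
    rw [dotProduct_sub, hu, hort] at this
    norm_num at this
  · intro h
    have : u ⬝ᵥ (u + y) = 0 := by rw [h]; simp
    rw [dotProduct_add, hu, hort] at this
    norm_num at this
  · rw [refl_conj A hA, ← hκ]
    have hAu : A *ᵥ u = y + (κ / 2) • u := by rw [hy]; abel
    rw [hAu]
    ext i j
    simp only [Matrix.add_apply, Matrix.sub_apply, Matrix.smul_apply, vecMulVec_apply,
      Pi.add_apply, Pi.sub_apply, Pi.smul_apply, smul_eq_mul]
    ring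

omit [Fintype ι] in
/-- Data for the selection step at a swap. -/
lemma Good.swap_data {Φ : (ι → Matrix N N ℝ) → ℝ[X]} (hΦ : Good Φ) {X : ι → Matrix N N ℝ}
    (hX : SymFam X) (j : ι) {u : N → ℝ} (hu : u ⬝ᵥ u = 2) :
    ∃ h k₁ k₂ : ℝ[X], Pencil h k₁ ∧ Pencil h k₂ ∧ Φ X = h - k₁ ∧
      Φ (update X j (refl u * X j * refl u)) = h - k₂ := by
  obtain ⟨a, b, ha, hb, hab⟩ := refl_conj_split hu (X j) (hX j)
  set X1 := update X j (X j + (1/2 : ℝ) • vecMulVec a a) with hX1
  have hX1s : SymFam X1 := hX.update j ((hX j).add ((isSymm_vecMulVec_self a).smul _))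
  obtain ⟨k₁, hk1, hk1'⟩ := hΦ.pencil hX1s j ha
  obtain ⟨k₂, hk2, hk2'⟩ := hΦ.pencil hX1s j hb
  refine ⟨Φ X1, C (1/2) * k₁, C (1/2) * k₂, hk1.smul (by norm_num), hk2.smul (by norm_num), ?_, ?_⟩
  · have h1 := hk1' (-(1/2))
    have h2 : update X1 j (X1 j + (-(1/2) : ℝ) • vecMulVec a a) = X := by
      rw [hX1]
      simp only [update_self, update_idem]
      have : X j + (1/2 : ℝ) • vecMulVec a a + (-(1/2) : ℝ) • vecMulVec a a = X j := by
        rw [add_assoc, ← add_smul]; simp
      rw [this, update_eq_self]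
    rw [h2] at h1
    rw [h1, C_neg]; ring
  · have h1 := hk2' (-(1/2))
    have h2 : update X1 j (X1 j + (-(1/2) : ℝ) • vecMulVec b b) =
        update X j (refl u * X j * refl u) := by
      rw [hX1, hab]
      simp only [update_self, update_idem]
    rw [h2] at h1
    rw [h1, C_neg]; ring

omit [Fintype ι] in
lemma Good.swap {Φ : (ι → Matrix N N ℝ) → ℝ[X]} (hΦ : Good Φ) (j : ι) {u : N → ℝ}
    (hu : u ⬝ᵥ u = 2) {a : ℝ} (ha0 : 0 ≤ a) (ha1 : a ≤ 1) : Good (swapOp j (refl u) a Φ) := by
  have hsymm : ∀ A : Matrix N N ℝ, A.IsSymm → (refl u * A * refl u).IsSymm := by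
    intro A hA
    unfold Matrix.IsSymm
    rw [transpose_mul, transpose_mul, refl_symm u, hA, mul_assoc]
  have hup : ∀ X : ι → Matrix N N ℝ, SymFam X → SymFam (update X j (refl u * X j * refl u)) :=
    fun X hX => hX.update j (hsymm _ (hX j))
  have hdegEq : ∀ X, SymFam X → (Φ X).degree = (Fintype.card N : ℕ) := by
    intro X hX
    rw [degree_eq_natDegree (hΦ.monic X hX).ne_zero, hΦ.deg X hX]
  have hform : ∀ X, SymFam X → swapOp j (refl u) a Φ X =
      Φ X + C a * (Φ (update X j (refl u * X j * refl u)) - Φ X) := by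
    intro X _
    unfold swapOp
    rw [C_sub, C_1]; ring
  have hdiff : ∀ X, SymFam X →
      (C a * (Φ (update X j (refl u * X j * refl u)) - Φ X)).degree < (Φ X).degree := by
    intro X hX
    refine lt_of_le_of_lt (degree_mul_le _ _) ?_
    refine lt_of_le_of_lt (add_le_add_left degree_C_le _) ?_
    rw [zero_add, hdegEq X hX, ← hdegEq _ (hup X hX)]
    apply degree_sub_lt_left
    · rw [hdegEq X hX, hdegEq _ (hup X hX)]
    · exact (hΦ.monic _ (hup X hX)).ne_zero
    · rw [(hΦ.monic _ (hup X hX)).leadingCoeff, (hΦ.monic _ hX).leadingCoeff]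
  refine ⟨?_, ?_, ?_, ?_⟩
  · intro X hX
    rw [hform X hX]
    exact (hΦ.monic X hX).add_of_left (hdiff X hX)
  · intro X hX
    rw [hform X hX, natDegree_add_eq_left_of_degree_lt (hdiff X hX), hΦ.deg X hX]
  · intro X hX
    obtain ⟨h, k₁, k₂, h1, h2, e1, e2⟩ := hΦ.swap_data hX j hu
    unfold swapOp
    rw [e1, e2]
    exact (h1.select h2 ha0 ha1).1
  · intro X hX i v hv
    obtain ⟨k₁, hk1, hk1', hk1''⟩ := hΦ.affine X hX i v hv
    by_cases hij : i = j
    · subst hij
      have hv' : refl u *ᵥ v ≠ 0 := by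
        intro h0
        apply hv
        have : refl u *ᵥ (refl u *ᵥ v) = 0 := by rw [h0]; simp
        rwa [mulVec_mulVec, refl_mul_self hu, one_mulVec] at this
      obtain ⟨k₂, hk2, hk2', hk2''⟩ := hΦ.affine _ (hup X hX) i (refl u *ᵥ v) hv'
      refine ⟨C (1 - a) * k₁ + C a * k₂, ?_, ?_, ?_⟩
      · refine lt_of_le_of_lt (degree_add_le _ _) (max_lt ?_ ?_)
        · refine lt_of_le_of_lt (degree_mul_le _ _) ?_
          refine lt_of_le_of_lt (add_le_add_left degree_C_le _) ?_
          simpa using hk1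
        · refine lt_of_le_of_lt (degree_mul_le _ _) ?_
          refine lt_of_le_of_lt (add_le_add_left degree_C_le _) ?_
          simpa using hk2
      · simp only [coeff_add, coeff_C_mul]
        rcases eq_or_lt_of_le ha0 with h | h
        · rw [← h]; simp [hk1']
        · have := mul_pos h hk2'
          have := mul_nonneg (sub_nonneg.mpr ha1) hk1'.le
          linarith
      · intro t
        have e := hk2'' t
        simp only [update_self, update_idem] at e
        unfold swapOp
        rw [hk1'' t]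
        simp only [update_self, update_idem]
        have e3 : refl u * (X i + t • vecMulVec v v) * refl u =
            refl u * X i * refl u + t • vecMulVec (refl u *ᵥ v) (refl u *ᵥ v) := by
          rw [mul_add, add_mul, mul_smul_comm, smul_mul_assoc, mul_vecMulVec, vecMulVec_mul]
          congr 3
          rw [← mulVec_transpose, refl_symm]
        rw [e3, e]
        ring
    · obtain ⟨k₂, hk2, hk2', hk2''⟩ := hΦ.affine _ (hup X hX) i v hv
      refine ⟨C (1 - a) * k₁ + C a * k₂, ?_, ?_, ?_⟩
      · refine lt_of_le_of_lt (degree_add_le _ _) (max_lt ?_ ?_)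
        · refine lt_of_le_of_lt (degree_mul_le _ _) ?_
          refine lt_of_le_of_lt (add_le_add_left degree_C_le _) ?_
          simpa using hk1
        · refine lt_of_le_of_lt (degree_mul_le _ _) ?_
          refine lt_of_le_of_lt (add_le_add_left degree_C_le _) ?_
          simpa using hk2
      · simp only [coeff_add, coeff_C_mul]
        rcases eq_or_lt_of_le ha0 with h | h
        · rw [← h]; simp [hk1']
        · have := mul_pos h hk2'
          have := mul_nonneg (sub_nonneg.mpr ha1) hk1'.le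
          linarith
      · intro t
        have e := hk2'' t
        rw [update_of_ne hij] at e
        unfold swapOp
        rw [hk1'' t]
        rw [update_of_ne (Ne.symm hij), update_comm hij, e]
        ring

omit [Fintype ι] in
lemma Good.swap_select {Φ : (ι → Matrix N N ℝ) → ℝ[X]} (hΦ : Good Φ) {X : ι → Matrix N N ℝ}
    (hX : SymFam X) (j : ι) {u : N → ℝ} (hu : u ⬝ᵥ u = 2) {a : ℝ} (ha0 : 0 ≤ a) (ha1 : a ≤ 1)
    {x₀ : ℝ} (h : PosFrom (swapOp j (refl u) a Φ X) x₀) :
    PosFrom (Φ X) x₀ ∨ PosFrom (Φ (update X j (refl u * X j * refl u))) x₀ := by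
  obtain ⟨p, k₁, k₂, h1, h2, e1, e2⟩ := hΦ.swap_data hX j hu
  unfold swapOp at h
  rw [e1, e2] at h ⊢
  exact (h1.select h2 ha0 ha1).2 x₀ h

/-- The basic function: characteristic polynomial of `-∑ X_j`, i.e. `det (x + ∑ X_j)`. -/
noncomputable def base (X : ι → Matrix N N ℝ) : ℝ[X] := (-∑ j, X j).charpoly

lemma charpoly_ne_zero_of_symm {A : Matrix N N ℝ} (hA : A.IsSymm) : RR A.charpoly := by
  intro z hz
  have hH : A.IsHermitian := by
    rw [Matrix.IsHermitian, conjTranspose_eq_transpose_of_trivial]; exact hA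
  rw [hH.charpoly_eq, map_prod]
  apply Finset.prod_ne_zero_iff.mpr
  intro i _
  rw [map_sub, aeval_X, aeval_C]
  intro h0
  have : z.im = 0 := by
    rw [sub_eq_zero] at h0
    rw [h0]; simp
  linarith

lemma det_add_smul_vecMulVec {R : Type*} [CommRing R] (A : Matrix N N R) (x y : N → R) (s : R) :
    (A + s • vecMulVec x y).det = A.det + s * ((A + vecMulVec x y).det - A.det) := by
  have key : ∀ s : R, (A + s • vecMulVec x y).det =
      (fromBlocks (1 : Matrix Unit Unit R) (replicateRow Unit (-y)) (s • replicateCol Unit x) A).det := by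
    intro s
    rw [det_fromBlocks_one₁₁]
    congr 1
    ext i j
    simp [vecMulVec_apply, Matrix.mul_apply]
  have hcol : ∀ s : R, fromBlocks (1 : Matrix Unit Unit R) (replicateRow Unit (-y))
      (s • replicateCol Unit x) A =
      updateCol (fromBlocks (1 : Matrix Unit Unit R) (replicateRow Unit (-y))
        (replicateCol Unit (0 : N → R)) A) (Sum.inl ())
        ((Sum.elim (fun _ => 1) (fun _ => 0)) + s • (Sum.elim (fun _ => 0) x)) := by
    intro s
    ext i j
    rcases i with i | i <;> rcases j with j | j <;> simp [updateCol_apply]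
  have h1 := key s
  have h2 := key 1
  have h3 := key 0
  rw [hcol, det_updateCol_add, det_updateCol_smul] at h1 h2 h3
  rw [zero_smul, add_zero] at h3
  rw [one_smul] at h2
  rw [h1, h2, h3]
  ring

lemma base_good : Good (base : (ι → Matrix N N ℝ) → ℝ[X]) := by
  have hsum : ∀ X : ι → Matrix N N ℝ, SymFam X → (-∑ j, X j).IsSymm := by
    intro X hX
    apply Matrix.IsSymm.neg
    unfold Matrix.IsSymm
    rw [transpose_sum]
    exact Finset.sum_congr rfl fun j _ => hX j
  refine ⟨fun X _ => charpoly_monic _, fun X _ => charpoly_natDegree_eq_dim _,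
    fun X hX => charpoly_ne_zero_of_symm (hsum X hX), ?_⟩
  intro X hX j v hv
  have hN : Nonempty N := by
    by_contra hne
    rw [not_nonempty_iff] at hne
    exact hv (funext fun i => hne.elim i)
  have hcard : 0 < Fintype.card N := Fintype.card_pos
  have hsumup : ∀ t : ℝ, ∑ i, update X j (X j + t • vecMulVec v v) i =
      ∑ i, X i + t • vecMulVec v v := by
    intro t
    have h1 : ∀ i, update X j (X j + t • vecMulVec v v) i =
        X i + (if i = j then t • vecMulVec v v else 0) := by
      intro i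
      by_cases h : i = j
      · subst h; simp
      · simp [h]
    rw [Finset.sum_congr rfl fun i _ => h1 i, Finset.sum_add_distrib]
    simp
  have hbase : ∀ t : ℝ, base (update X j (X j + t • vecMulVec v v)) =
      base X + C t * (base (update X j (X j + (1 : ℝ) • vecMulVec v v)) - base X) := by
    intro t
    unfold base
    rw [hsumup, hsumup]
    have hc : ∀ s : ℝ, (-(∑ i, X i + s • vecMulVec v v)).charpoly =
        (charmatrix (-∑ i, X i) + (C s) • vecMulVec (C ∘ v) (C ∘ v)).det := by
      intro s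
      unfold charpoly
      congr 1
      ext i k
      simp only [charmatrix_apply, Matrix.neg_apply, Matrix.add_apply, Matrix.smul_apply,
        vecMulVec_apply, smul_eq_mul, Function.comp, C_neg, C_add, C_mul]
      ring_nf
    rw [hc t, hc 1, det_add_smul_vecMulVec]
    rw [C_1, one_smul]
    rfl
  refine ⟨base (update X j (X j + (1 : ℝ) • vecMulVec v v)) - base X, ?_, ?_, hbase⟩
  · have h1 : (base (update X j (X j + (1 : ℝ) • vecMulVec v v))).degree = Fintype.card N :=
      charpoly_degree_eq_dim _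
    have h2 : (base X).degree = Fintype.card N := charpoly_degree_eq_dim _
    rw [← h1]
    apply degree_sub_lt_left
    · rw [h1, h2]
    · exact (charpoly_monic _).ne_zero
    · have m1 : (base (update X j (X j + (1 : ℝ) • vecMulVec v v))).Monic := charpoly_monic _
      have m2 : (base X).Monic := charpoly_monic _
      rw [m1.leadingCoeff, m2.leadingCoeff]
  · have ht : ∀ A : Matrix N N ℝ, A.charpoly.coeff (Fintype.card N - 1) = - A.trace := by
      intro A
      rw [trace_eq_neg_charpoly_coeff A]; ring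
    rw [coeff_sub]
    unfold base
    rw [ht, ht, hsumup, trace_neg, trace_neg, trace_add, one_smul]
    have hv2 : 0 < (vecMulVec v v).trace := by
      rw [trace_vecMulVec]
      rcases (dotProduct_self_star_nonneg v).lt_or_eq with h | h
      · simpa using h
      · exfalso
        apply hv
        apply dotProduct_self_eq_zero.mp
        simpa using h.symm
    linarith

end Pool.Agent.Ramanujan
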