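import Pool.Agent.Ramanujan.Defs

/-!
The adjacency operator of the universal covering tree: self-adjointness and the positivity of the
continued fractions attached to the oriented edges for `x > ρ(G)`.
-/

open Matrix Equiv

namespace Pool.Agent.Ramanujan

namespace MGraph

variable {V E : Type} {G : MGraph V E}

/-- reversal of an oriented edge -/
def rv (a : E × Bool) : E × Bool := (a.1, !a.2)

lemma rv_rv (a : E × Bool) : rv (rv a) = a := by simp [rv]

lemma rv_injective : Function.Injective (rv : E × Bool → E × Bool) := by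
  intro a b h
  rw [← rv_rv a, h, rv_rv]

lemma dsrc_rv (a : E × Bool) : G.dsrc (rv a) = G.dtgt a := by
  obtain ⟨e, b⟩ := a; cases b <;> rfl

lemma dtgt_rv (a : E × Bool) : G.dtgt (rv a) = G.dsrc a := by
  obtain ⟨e, b⟩ := a; cases b <;> rfl

lemma mk_rv (a : E × Bool) : FreeGroup.mk [rv a] = (FreeGroup.mk [a])⁻¹ := by
  rw [FreeGroup.inv_mk]; rfl

lemma IsWalk.append {u v w : V} {L M : List (E × Bool)} (h1 : G.IsWalk u L v)
    (h2 : G.IsWalk v M w) : G.IsWalk u (L ++ M) w := by
  induction L generalizing u with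
  | nil => rw [show u = v from h1]; exact h2
  | cons a L ih => exact ⟨h1.1, ih h1.2⟩

lemma IsWalk.invRev {u v : V} {L : List (E × Bool)} (h : G.IsWalk u L v) :
    G.IsWalk v (FreeGroup.invRev L) u := by
  induction L generalizing u with
  | nil => exact (show u = v from h).symm
  | cons a L ih =>
    have h1 := ih h.2
    have : FreeGroup.invRev (a :: L) = FreeGroup.invRev L ++ [rv a] := by
      simp [FreeGroup.invRev, rv]
    rw [this]
    apply h1.append
    refine ⟨?_, ?_⟩
    · rw [dsrc_rv]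
    · change G.dtgt (rv a) = u
      rw [dtgt_rv]; exact h.1

lemma IsWalk.reduce [DecidableEq E] {u v : V} {L : List (E × Bool)} (h : G.IsWalk u L v) :
    G.IsWalk u (FreeGroup.reduce L) v := by
  induction L generalizing u with
  | nil => exact h
  | cons a L ih =>
    have h1 := ih h.2
    rw [FreeGroup.reduce.cons]
    rcases hL : FreeGroup.reduce L with _ | ⟨hd, tl⟩
    · rw [hL] at h1
      exact ⟨h.1, h1⟩
    · rw [hL] at h1
      simp only
      split_ifs with hc
      · have hhd : hd = rv a := by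
          obtain ⟨e, b⟩ := a
          obtain ⟨e', b'⟩ := hd
          simp only at hc
          obtain ⟨rfl, rfl⟩ := hc
          simp [rv]
        have h2 := h1.2
        rw [hhd, dtgt_rv, h.1] at h2
        exact h2
      · exact ⟨h.1, h1⟩

section Op

variable (v₀ : V)

lemma TreeVertex.step_step {a : E × Bool} {p : G.TreeVertex v₀} (h : G.dsrc a = p.1.1)
    (h' : G.dsrc (rv a) = (p.step a h).1.1) : (p.step a h).step (rv a) h' = p := by
  apply Subtype.ext
  apply Prod.ext
  · change G.dtgt (rv a) = p.1.1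
    rw [dtgt_rv, h]
  · change (FreeGroup.mk [rv a])⁻¹ * ((FreeGroup.mk [a])⁻¹ * p.1.2) = p.1.2
    rw [mk_rv, inv_inv, mul_inv_cancel_left]

variable [DecidableEq V]

lemma shiftOp_apply (a : E × Bool) (f : G.TreeL2 v₀)
    (p : G.TreeVertex v₀) : (G.shiftOp v₀ a f).fn p = shiftFun a f.fn p := rfl

omit [DecidableEq V] in
lemma TreeL2.inner_eq (f g : G.TreeL2 v₀) :
    @inner ℂ (G.TreeL2 v₀) InnerProductSpace.toInner f g =
      ∑' p, @inner ℂ ℂ InnerProductSpace.toInner (f.fn p) (g.fn p) :=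
  @lp.inner_eq_tsum (G.TreeVertex v₀) ℂ _ (fun _ => ℂ) _ _ f g

/-- Evaluation at a vertex. -/
def TreeL2.ev (p : G.TreeVertex v₀) : G.TreeL2 v₀ →+ ℂ where
  toFun f := f.fn p
  map_zero' := rfl
  map_add' _ _ := rfl

open scoped InnerProductSpace in
lemma shiftOp_adjoint (a : E × Bool) :
    G.shiftOp v₀ (rv a) = ContinuousLinearMap.adjoint (G.shiftOp v₀ a) := by
  rw [ContinuousLinearMap.eq_adjoint_iff]
  intro f g
  rw [TreeL2.inner_eq, TreeL2.inner_eq]
  simp only [shiftOp_apply]
  set F : G.TreeVertex v₀ → ℂ := fun p => ⟪shiftFun (rv a) f.fn p, g.fn p⟫_ℂ with hF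
  set H : G.TreeVertex v₀ → ℂ := fun q => ⟪f.fn q, shiftFun a g.fn q⟫_ℂ with hH
  have hFs : Function.support F ⊆ {p : G.TreeVertex v₀ | G.dsrc (rv a) = p.1.1} := by
    intro p hp
    by_contra hcon
    apply hp
    have : ¬ G.dsrc (rv a) = p.1.1 := hcon
    simp [hF, shiftFun, this]
  have hHs : Function.support H ⊆ {p : G.TreeVertex v₀ | G.dsrc a = p.1.1} := by
    intro p hp
    by_contra hcon
    apply hp
    have : ¬ G.dsrc a = p.1.1 := hcon
    simp [hH, shiftFun, this]
  rw [← tsum_subtype_eq_of_support_subset hFs, ← tsum_subtype_eq_of_support_subset hHs]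
  let e : {p : G.TreeVertex v₀ | G.dsrc (rv a) = p.1.1} ≃
      {p : G.TreeVertex v₀ | G.dsrc a = p.1.1} :=
    { toFun := fun p => ⟨p.1.step (rv a) p.2, by
        change G.dsrc a = G.dtgt (rv a); rw [dtgt_rv]⟩
      invFun := fun q => ⟨q.1.step a q.2, by
        change G.dsrc (rv a) = G.dtgt a; rw [dsrc_rv]⟩
      left_inv := by
        rintro ⟨p, hp⟩
        apply Subtype.ext
        have h' : G.dsrc (rv (rv a)) = (p.step (rv a) hp).1.1 := by
          change G.dsrc (rv (rv a)) = G.dtgt (rv a); rw [dsrc_rv]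
        have := TreeVertex.step_step v₀ hp h'
        simp only [rv_rv] at this
        exact this
      right_inv := by
        rintro ⟨p, hp⟩
        apply Subtype.ext
        exact TreeVertex.step_step v₀ hp (by
          change G.dsrc (rv a) = G.dtgt a; rw [dsrc_rv]) }
  rw [← Equiv.tsum_eq e]
  apply tsum_congr
  rintro ⟨p, hp⟩
  have hp' : G.dsrc (rv a) = p.1.1 := hp
  have h1 : shiftFun (rv a) f.fn p = f.fn (p.step (rv a) hp) := by
    simp [shiftFun, hp']
  have h2 : shiftFun a g.fn (e ⟨p, hp⟩).1 = g.fn p := by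
    have h3 : G.dsrc a = (e ⟨p, hp⟩).1.1.1 := by
      change G.dsrc a = G.dtgt (rv a); rw [dtgt_rv]
    unfold shiftFun
    rw [dif_pos h3]
    apply congrArg g.fn
    have h' : G.dsrc (rv (rv a)) = (p.step (rv a) hp).1.1 := by
      change G.dsrc (rv (rv a)) = G.dtgt (rv a); rw [dsrc_rv]
    have := TreeVertex.step_step v₀ hp h'
    simp only [rv_rv] at this
    exact this
  change ⟪shiftFun (rv a) f.fn p, g.fn p⟫_ℂ = ⟪f.fn (e ⟨p, hp⟩).1, shiftFun a g.fn (e ⟨p, hp⟩).1⟫_ℂ
  rw [h1, h2]
  rfl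

variable [Fintype E]

lemma treeAdj_selfAdjoint : IsSelfAdjoint (G.treeAdj v₀) := by
  unfold treeAdj IsSelfAdjoint
  rw [star_sum]
  have h1 : ∀ a : E × Bool, star (G.shiftOp v₀ a) = G.shiftOp v₀ (rv a) := by
    intro a
    rw [shiftOp_adjoint]; rfl
  rw [Finset.sum_congr rfl fun a _ => h1 a]
  let e : (E × Bool) ≃ (E × Bool) := ⟨rv, rv, rv_rv, rv_rv⟩
  exact Equiv.sum_comp e fun a => G.shiftOp v₀ a

lemma rho_eq_norm : G.rho v₀ = ‖G.treeAdj v₀‖ := by
  unfold rho
  have := (treeAdj_selfAdjoint (G := G) v₀).spectralRadius_eq_nnnorm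
  rw [this]
  simp

lemma treeAdj_apply (f : G.TreeL2 v₀) (p : G.TreeVertex v₀) :
    (G.treeAdj v₀ f).fn p = ∑ a : E × Bool, shiftFun a f.fn p := by
  unfold treeAdj
  rw [_root_.sum_apply]
  exact map_sum (TreeL2.ev v₀ p) (fun a => G.shiftOp v₀ a f) Finset.univ

end Op

end MGraph

end Pool.Agent.Ramanujan
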